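import Pool.Statements.S00586
import Pool.Agent.H22.Quot

set_option autoImplicit false
open Pool Pool.MP_01baca_al

namespace Pool.Agent.S00586

/-- The negation of the preceding statement: For every ring R with a derivation d and no nonzero nil two-sided ideals, the differential polynomial ring R[x;d] (xr = rx + d(r), free on powers of x) has zero Jacobson radical. -/
theorem result :
    ¬ (∀ (R : Type) [Ring R] (d : R →+ R),
      (∀ a b : R, d (a * b) = d a * b + a * d b) →
      (∀ I : TwoSidedIdeal R, (∀ a ∈ I, IsNilpotent a) → I = ⊥) →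
      ∀ (S : Type) [Ring S] (f : R →+* S) (x : S),
        (∀ r : R, x * f r = f r * x + f (d r)) →
        (∀ s : S, ∃! c : ℕ →₀ R, s = c.sum (fun n a => f a * x ^ n)) →
        (⊥ : Ideal S).jacobson = ⊥) := by
  intro H
  exact Pool.Agent.H22.jacobson_ne_bot (H Pool.Agent.H22.RR Pool.Agent.H22.dR
    Pool.Agent.H22.dR_mul Pool.Agent.H22.RR_no_nil
    (Pool.Agent.H22.DPR Pool.Agent.H22.dR Pool.Agent.H22.dR_mul)
    (Pool.Agent.H22.DPf Pool.Agent.H22.dR Pool.Agent.H22.dR_mul)
    (Pool.Agent.H22.DPx Pool.Agent.H22.dR Pool.Agent.H22.dR_mul)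
    (Pool.Agent.H22.DP_comm Pool.Agent.H22.dR_mul)
    (Pool.Agent.H22.DP_free Pool.Agent.H22.dR_mul))

end Pool.Agent.S00586
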