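import Pool.Statements.S01258
import Pool.Agent.UniqueAdd.Iso
import Pool.Agent.UniqueAdd.GroupG
import Pool.Agent.UniqueAdd.GroupH

set_option autoImplicit false
open Pool Pool.MP_3dd297_al

namespace Pool.Agent.S01258

/-- The negation of the preceding statement: Let an abelian lattice-ordered group be an ℓ-subgroup of a product of copies of ℤ, with every projection onto ℤ surjective. Then any group operation on the same lattice, with the same zero and order-compatible translations on both sides, equals the original addition. -/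
theorem result :
    ¬ (∀ (G : Type) [AddCommGroup G] [Lattice G] [IsOrderedAddMonoid G],
      (∃ (I : Type) (f : G →+ (I → ℤ)),
        Function.Injective f ∧
        (∀ x y : G, f (x ⊔ y) = f x ⊔ f y) ∧
        (∀ x y : G, f (x ⊓ y) = f x ⊓ f y) ∧
        (∀ i : I, Function.Surjective (fun x : G => f x i))) →
      ∀ op : G → G → G,
        (∀ a b c : G, op (op a b) c = op a (op b c)) →
        (∀ a : G, op 0 a = a ∧ op a 0 = a) →
        (∀ a : G, ∃ b : G, op a b = 0 ∧ op b a = 0) →
        (∀ a b c : G, a ≤ b → op c a ≤ op c b ∧ op a c ≤ op b c) →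
        ∀ x y : G, op x y = x + y) := by
  intro H
  open Pool.Agent.UniqueAdd in
  obtain ⟨Φ, hΦ0, hΦ⟩ := exists_equiv generic_G generic_H
    (fun f g h => Subtype.ext (funext h)) (fun f g h => Subtype.ext (funext h)) (0 : GT) (0 : HT)
  have hle : ∀ f g : Pool.Agent.UniqueAdd.GT, f ≤ g ↔ Φ f ≤ Φ g := fun f g => hΦ f g
  have hsymm0 : Φ.symm 0 = 0 := by rw [← hΦ0, Φ.symm_apply_apply]
  have key := @H Pool.Agent.UniqueAdd.GT inferInstance inferInstance inferInstance
    ⟨List ℕ, Pool.Agent.UniqueAdd.emb, Pool.Agent.UniqueAdd.emb_injective,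
      Pool.Agent.UniqueAdd.emb_sup, Pool.Agent.UniqueAdd.emb_inf,
      Pool.Agent.UniqueAdd.emb_surj⟩
    (fun x y => Φ.symm (Φ x + Φ y))
    (fun a b c => by simp only [Equiv.apply_symm_apply, add_assoc])
    (fun a => by simp only [hΦ0, zero_add, add_zero, Equiv.symm_apply_apply, and_self])
    (fun a => ⟨Φ.symm (-Φ a), by
      simp only [Equiv.apply_symm_apply, add_neg_cancel, neg_add_cancel, hsymm0, and_self]⟩)
    (fun a b c hab => by
      have h1 := (hle a b).1 hab
      refine ⟨?_, ?_⟩
      · rw [hle, Equiv.apply_symm_apply, Equiv.apply_symm_apply]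
        gcongr
      · rw [hle, Equiv.apply_symm_apply, Equiv.apply_symm_apply]
        gcongr)
  -- divide `Φ e₀` by two
  have h2 := key (Φ.symm (Pool.Agent.UniqueAdd.half (Φ Pool.Agent.UniqueAdd.e0)))
    (Φ.symm (Pool.Agent.UniqueAdd.half (Φ Pool.Agent.UniqueAdd.e0)))
  simp only [Equiv.apply_symm_apply, Pool.Agent.UniqueAdd.half_add_half,
    Equiv.symm_apply_apply] at h2
  have h3 := congrArg (fun f => Pool.Agent.UniqueAdd.emb f []) h2
  simp only [map_add, Pi.add_apply] at h3
  have h4 : Pool.Agent.UniqueAdd.emb Pool.Agent.UniqueAdd.e0 [] = 1 := by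
    show ((Finsupp.single 0 1 : ℕ →₀ ℤ) : ℕ → ℤ) 0 = 1
    simp
  rw [h4] at h3
  omega

end Pool.Agent.S01258
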