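import Pool.Statements.S02639
import Pool.Agent.MQ94.Red

set_option autoImplicit false
open Pool Pool.MP_aaabe1_al

namespace Pool.Agent.S02639

/-- Every finite partial idempotent quasigroup of order n closed under x(yx)=y embeds in a complete idempotent quasigroup satisfying x(yx)=y of every order t ≥ 2n+1 with t ≡ 0 or 1 mod 3, t ≠ 6. -/
theorem result :
    ∀ n : ℕ, ∀ p : Fin n → Fin n → Option (Fin n),
      (∀ x y y' z : Fin n, p x y = some z → p x y' = some z → y = y') →
      (∀ x x' y z : Fin n, p x y = some z → p x' y = some z → x = x') →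
      (∀ x z : Fin n, p x x = some z → z = x) →
      (∀ x y z : Fin n, p x y = some z → p y z = some x) →
      ∀ t : ℕ, 2 * n + 1 ≤ t → (t % 3 = 0 ∨ t % 3 = 1) → t ≠ 6 →
        ∃ op : Fin t → Fin t → Fin t,
          (∀ x : Fin t, op x x = x) ∧
          (∀ x y : Fin t, op x (op y x) = y) ∧
          ∃ f : Fin n ↪ Fin t, ∀ x y z : Fin n, p x y = some z → op (f x) (f y) = f z := by
  intro n p h1 h2 h3 h4 t ht hmod h6
  exact MQ94.embed_main n p h1 h2 h3 h4 t ht hmod h6

end Pool.Agent.S02639
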