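import Pool.Statements.S02753
import Pool.Agent.H20.PowerfulRank

set_option autoImplicit false
open Pool Pool.MP_b2678d_al

namespace Pool.Agent.S02753

/-- For each prime p there is h>0 such that for every finite-dimensional nilpotent F_p-algebra R whose adjoint group 1+R is powerful, some subgroup of 1+R needs at least h·dim R generators, i.e. rank of 1+R ≥ h·dim R. -/
theorem result :
    ∀ p : ℕ, p.Prime → ∃ h : ℝ, 0 < h ∧
      ∀ (A : Type) [Ring A] [Algebra (ZMod p) A] [Module.Finite (ZMod p) A]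
        (V : Submodule (ZMod p) A),
        V * V ≤ V →
        (∃ n : ℕ, V ^ n = ⊥) →
        ⁅Subgroup.closure {u : Aˣ | ((u : Aˣ) : A) - 1 ∈ V},
          Subgroup.closure {u : Aˣ | ((u : Aˣ) : A) - 1 ∈ V}⁆ ≤
          Subgroup.closure {x : Aˣ | ∃ g ∈ Subgroup.closure {u : Aˣ | ((u : Aˣ) : A) - 1 ∈ V},
            g ^ (if p = 2 then 4 else p) = x} →
        ∃ H : Subgroup Aˣ, H ≤ Subgroup.closure {u : Aˣ | ((u : Aˣ) : A) - 1 ∈ V} ∧
          ∀ s : Finset Aˣ, Subgroup.closure (s : Set Aˣ) = H →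
            h * (Module.finrank (ZMod p) V : ℝ) ≤ (s.card : ℝ) := by
  intro p hp
  have : Fact p.Prime := ⟨hp⟩
  refine ⟨1 / 4, by norm_num, ?_⟩
  intro A _ _ _ V hV hnil hpow
  have key : ∃ H : Subgroup Aˣ, H ≤ Pool.Agent.H20.Powerful.G V ∧
      ∀ s : Finset Aˣ, Subgroup.closure (s : Set Aˣ) = H →
        Module.finrank (ZMod p) V ≤ 4 * s.card := by
    by_cases h2 : p = 2
    · exact Pool.Agent.H20.Powerful.rank_bound (k := 2) V hV hnil
        (e := if p = 2 then 4 else p) (by subst h2; rfl) (by subst h2; norm_num) hpow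
    · exact Pool.Agent.H20.Powerful.rank_bound (k := 1) V hV hnil
        (e := if p = 2 then 4 else p) (by rw [if_neg h2, pow_one])
        (by rw [pow_one]; have := hp.two_le; omega) hpow
  obtain ⟨H, hH, hs⟩ := key
  refine ⟨H, hH, fun s hcl => ?_⟩
  have h1 : (Module.finrank (ZMod p) V : ℝ) ≤ 4 * (s.card : ℝ) := by exact_mod_cast hs s hcl
  linarith

end Pool.Agent.S02753
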