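import Pool.Statements.S02978

set_option autoImplicit false
open Pool Pool.MP_c3451b_al

namespace Pool.Agent.S02978

/-- permutations of the set of infinite binary sequences -/
abbrev PT := Equiv.Perm (ℕ → Bool)

/-- prepend a letter -/
def cns (e : Bool) (x : ℕ → Bool) : ℕ → Bool := fun n => Nat.casesOn n e x

/-- delete the first letter -/
def tl (x : ℕ → Bool) : ℕ → Bool := fun n => x (n + 1)

@[simp] lemma cns_zero (e : Bool) (x : ℕ → Bool) : cns e x 0 = e := rfl
@[simp] lemma cns_succ (e : Bool) (x : ℕ → Bool) (n : ℕ) : cns e x (n + 1) = x n := rfl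
@[simp] lemma tl_cns (e : Bool) (x : ℕ → Bool) : tl (cns e x) = x := rfl
@[simp] lemma cns_tl (x : ℕ → Bool) : cns (x 0) (tl x) = x := by
  funext n; cases n <;> rfl
lemma tl_apply (x : ℕ → Bool) (n : ℕ) : tl x n = x (n + 1) := rfl

/-- the pair map on functions -/
def prf (f0 f1 : (ℕ → Bool) → (ℕ → Bool)) (x : ℕ → Bool) : ℕ → Bool :=
  cns (x 0) (if x 0 = true then f1 (tl x) else f0 (tl x))

/-- `pr g0 g1` acts as `g0` below the letter false and as `g1` below the letter true. -/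
def pr (g0 g1 : PT) : PT where
  toFun := prf g0 g1
  invFun := prf g0.symm g1.symm
  left_inv := by
    intro x
    unfold prf
    by_cases h : x 0 = true <;> simp [h]
    · rw [← h]; simp
    · have h' : x 0 = false := by simpa using h
      rw [← h']; simp
  right_inv := by
    intro x
    unfold prf
    by_cases h : x 0 = true <;> simp [h]
    · rw [← h]; simp
    · have h' : x 0 = false := by simpa using h
      rw [← h']; simp

lemma pr_apply (g0 g1 : PT) (x : ℕ → Bool) :
    pr g0 g1 x = cns (x 0) (if x 0 = true then g1 (tl x) else g0 (tl x)) := rfl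

lemma pr_false (g0 g1 : PT) (x : ℕ → Bool) : pr g0 g1 (cns false x) = cns false (g0 x) := by
  simp [pr_apply]

lemma pr_true (g0 g1 : PT) (x : ℕ → Bool) : pr g0 g1 (cns true x) = cns true (g1 x) := by
  simp [pr_apply]

lemma pr_mul (g0 g1 h0 h1 : PT) : pr g0 g1 * pr h0 h1 = pr (g0 * h0) (g1 * h1) := by
  apply Equiv.ext
  intro x
  rw [Equiv.Perm.mul_apply, pr_apply h0 h1, pr_apply (g0 * h0)]
  by_cases h : x 0 = true
  · simp only [h, if_true, pr_true, Equiv.Perm.mul_apply]
  · have h' : x 0 = false := by simpa using h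
    simp only [h', pr_false, Equiv.Perm.mul_apply]
    simp

lemma pr_one : pr 1 1 = 1 := by
  apply Equiv.ext
  intro x
  simp [pr_apply]

lemma pr_inv (g0 g1 : PT) : (pr g0 g1)⁻¹ = pr g0⁻¹ g1⁻¹ := by
  rw [inv_eq_iff_mul_eq_one, pr_mul]; simp [pr_one]

lemma pr_inj {g0 g1 h0 h1 : PT} (h : pr g0 g1 = pr h0 h1) : g0 = h0 ∧ g1 = h1 := by
  constructor
  · apply Equiv.ext
    intro x
    have := congrArg (fun f => tl (f (cns false x))) h
    simpa [pr_false] using this
  · apply Equiv.ext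
    intro x
    have := congrArg (fun f => tl (f (cns true x))) h
    simpa [pr_true] using this

/-- flip the first letter -/
def ga : PT where
  toFun x := cns (!(x 0)) (tl x)
  invFun x := cns (!(x 0)) (tl x)
  left_inv := by intro x; simp
  right_inv := by intro x; simp

lemma ga_apply (x : ℕ → Bool) : ga x = cns (!(x 0)) (tl x) := rfl

lemma ga_mul_ga : ga * ga = 1 := by
  apply Equiv.ext; intro x; simp [Equiv.Perm.mul_apply, ga_apply]

lemma ga_pr_ga (g0 g1 : PT) : ga * pr g0 g1 * ga = pr g1 g0 := by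
  apply Equiv.ext
  intro x
  simp only [Equiv.Perm.mul_apply, ga_apply x]
  by_cases h : x 0 = true
  · rw [pr_apply g1 g0, h]
    simp [pr_false, ga_apply]
  · have h' : x 0 = false := by simpa using h
    rw [pr_apply g1 g0, h']
    simp [pr_true, ga_apply]

/-- the position predicate for the directed generators -/
def Pos (r : ℕ → Prop) (x : ℕ → Bool) (j : ℕ) : Prop :=
  ∃ k, j = k + 1 ∧ x k = false ∧ (∀ i < k, x i = true) ∧ r k

open Classical in
/-- flip the letter after the first false, if it is at position `k` with `r k` -/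
noncomputable def flf (r : ℕ → Prop) (x : ℕ → Bool) : ℕ → Bool :=
  fun j => if Pos r x j then !(x j) else x j

open Classical in
lemma flf_prf (r : ℕ → Prop) (x : ℕ → Bool) :
    flf r x = prf (if r 0 then ⇑ga else id) (flf (fun k => r (k + 1))) x := by
  funext j
  by_cases h : x 0 = true
  · -- first letter true
    rcases j with _ | j
    · have : ¬ Pos r x 0 := by rintro ⟨k, hk, _⟩; omega
      simp [flf, this, prf]
    · have : Pos r x (j + 1) ↔ Pos (fun k => r (k + 1)) (tl x) j := by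
        constructor
        · rintro ⟨k, hk, h1, h2, h3⟩
          rcases k with _ | k
          · rw [h] at h1; cases h1
          · exact ⟨k, by omega, h1, fun i hi => h2 (i + 1) (by omega), h3⟩
        · rintro ⟨k, hk, h1, h2, h3⟩
          refine ⟨k + 1, by omega, h1, ?_, h3⟩
          intro i hi
          rcases i with _ | i
          · exact h
          · exact h2 i (by omega)
      simp [flf, this, prf, h, tl_apply]
  · have h' : x 0 = false := by simpa using h
    rcases j with _ | j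
    · have : ¬ Pos r x 0 := by rintro ⟨k, hk, _⟩; omega
      simp [flf, this, prf]
    · have : Pos r x (j + 1) ↔ (j = 0 ∧ r 0) := by
        constructor
        · rintro ⟨k, hk, h1, h2, h3⟩
          rcases k with _ | k
          · exact ⟨by omega, h3⟩
          · have := h2 0 (by omega)
            rw [h'] at this; cases this
        · rintro ⟨hj, hr⟩
          exact ⟨0, by omega, h', by intro i hi; omega, hr⟩
      by_cases hr : r 0
      · rcases j with _ | j
        · simp [flf, this, prf, h', hr, ga_apply, tl_apply]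
        · simp [flf, this, prf, h', hr, ga_apply, tl_apply]
      · simp [flf, this, prf, h', hr, tl_apply]

lemma pos_flf (r s : ℕ → Prop) (x : ℕ → Bool) (j : ℕ) : Pos r (flf s x) j ↔ Pos r x j := by
  -- positions at or before the first false are unchanged
  have key : ∀ k, (∀ i < k, x i = true) → ∀ i ≤ k, flf s x i = x i := by
    intro k hk i hi
    have : ¬ Pos s x i := by
      rintro ⟨m, hm, h1, -, -⟩
      have := hk m (by omega)
      rw [h1] at this; cases this
    simp [flf, this]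
  have key2 : ∀ k, (∀ i < k, flf s x i = true) → ∀ i < k, x i = true := by
    intro k
    induction k with
    | zero => intro _ i hi; omega
    | succ k ih =>
      intro hk i hi
      have h1 := ih (fun i hi => hk i (by omega))
      rcases Nat.lt_succ_iff_lt_or_eq.mp hi with h | h
      · exact h1 i h
      · subst h
        rw [← key i h1 i le_rfl]
        exact hk i (by omega)
  constructor
  · rintro ⟨k, hk, h1, h2, h3⟩
    have h4 := key2 k h2
    exact ⟨k, hk, by rw [← key k h4 k le_rfl]; exact h1, h4, h3⟩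
  · rintro ⟨k, hk, h1, h2, h3⟩
    refine ⟨k, hk, by rw [key k h2 k le_rfl]; exact h1, ?_, h3⟩
    intro i hi
    rw [key k h2 i hi.le]
    exact h2 i hi

open Classical in
lemma flf_flf (r s : ℕ → Prop) (x : ℕ → Bool) :
    flf r (flf s x) = flf (fun k => ¬ (r k ↔ s k)) x := by
  funext j
  have h1 : Pos (fun k => ¬ (r k ↔ s k)) x j ↔ ¬ (Pos r x j ↔ Pos s x j) := by
    by_cases hk : ∃ k, j = k + 1 ∧ x k = false ∧ (∀ i < k, x i = true)
    · obtain ⟨k, hj, hx, hi⟩ := hk
      have : ∀ r : ℕ → Prop, Pos r x j ↔ r k := by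
        intro r
        constructor
        · rintro ⟨k', hj', _, _, hr⟩
          have : k' = k := by omega
          rwa [this] at hr
        · intro hr; exact ⟨k, hj, hx, hi, hr⟩
      rw [this, this, this]
    · have : ∀ r : ℕ → Prop, ¬ Pos r x j := by
        rintro r ⟨k, h1, h2, h3, _⟩
        exact hk ⟨k, h1, h2, h3⟩
      simp [this]
  have h2 : Pos r (flf s x) j ↔ Pos r x j := pos_flf r s x j
  have e1 : flf r (flf s x) j = if Pos r (flf s x) j then !(flf s x j) else flf s x j := rfl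
  have e2 : flf s x j = if Pos s x j then !(x j) else x j := rfl
  have e3 : flf (fun k => ¬ (r k ↔ s k)) x j =
    if Pos (fun k => ¬ (r k ↔ s k)) x j then !(x j) else x j := rfl
  rw [e1, e3, e2]
  by_cases hr : Pos r x j <;> by_cases hs : Pos s x j <;> simp [h1, h2, hr, hs]

lemma flf_false (x : ℕ → Bool) : flf (fun _ => False) x = x := by
  funext j
  have : ¬ Pos (fun _ => False) x j := by rintro ⟨k, _, _, _, h⟩; exact h
  simp [flf, this]

/-- directed generator -/
noncomputable def fl (r : ℕ → Prop) : PT where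
  toFun := flf r
  invFun := flf r
  left_inv := by intro x; rw [flf_flf]; simp [flf_false]
  right_inv := by intro x; rw [flf_flf]; simp [flf_false]

lemma fl_apply (r : ℕ → Prop) (x : ℕ → Bool) : fl r x = flf r x := rfl

lemma fl_mul_fl (r s : ℕ → Prop) : fl r * fl s = fl (fun k => ¬ (r k ↔ s k)) := by
  apply Equiv.ext; intro x
  rw [Equiv.Perm.mul_apply, fl_apply, fl_apply, fl_apply, flf_flf]

lemma fl_false : fl (fun _ => False) = 1 := by
  apply Equiv.ext; intro x
  rw [fl_apply, flf_false]; rfl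

lemma fl_ne (r : ℕ → Prop) (x : ℕ → Bool) (j : ℕ) :
    fl r x j ≠ x j ↔ ∃ k, j = k + 1 ∧ x k = false ∧ (∀ i < k, x i = true) ∧ r k := by
  rw [fl_apply]
  change _ ↔ Pos r x j
  unfold flf
  by_cases h : Pos r x j <;> simp [h]

open Classical in
lemma fl_pr (r : ℕ → Prop) : fl r = pr (if r 0 then ga else 1) (fl (fun k => r (k + 1))) := by
  apply Equiv.ext; intro x
  rw [fl_apply, flf_prf, pr_apply]
  unfold prf
  by_cases hr : r 0 <;> simp [hr, fl_apply]

/-- generators -/
noncomputable def gb : PT := fl (fun k => k % 3 ≠ 2)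
noncomputable def gc : PT := fl (fun k => k % 3 ≠ 1)
noncomputable def gd : PT := fl (fun k => k % 3 ≠ 0)

lemma gb_eq : gb = pr ga gc := by
  unfold gb gc
  rw [fl_pr]
  simp only [Nat.zero_mod, ne_eq]
  rw [if_pos (by norm_num)]
  congr 2
  funext k
  apply propext
  omega

lemma gc_eq : gc = pr ga gd := by
  unfold gc gd
  rw [fl_pr]
  simp only [Nat.zero_mod, ne_eq]
  rw [if_pos (by norm_num)]
  congr 2
  funext k
  apply propext
  omega

lemma gd_eq : gd = pr 1 gb := by
  unfold gd gb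
  rw [fl_pr]
  simp only [Nat.zero_mod, ne_eq]
  rw [if_neg (by norm_num)]
  congr 2
  funext k
  apply propext
  omega

lemma fl_sq (r : ℕ → Prop) : fl r * fl r = 1 := by
  rw [fl_mul_fl]; simp [fl_false]

lemma gb_sq : gb * gb = 1 := fl_sq _
lemma gc_sq : gc * gc = 1 := fl_sq _
lemma gd_sq : gd * gd = 1 := fl_sq _
lemma gb_gc : gb * gc = gd := by
  unfold gb gc gd
  rw [fl_mul_fl]
  congr 1
  funext k
  apply propext
  omega


/-! ### The branching subgroup -/

/-- `t = (ab)^2` -/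
noncomputable def tt : PT := ga * gb * ga * gb
/-- `v = (t, 1)` -/
noncomputable def vv : PT := pr tt 1
/-- `w = (1, t)` -/
noncomputable def ww : PT := pr 1 tt

lemma ga_inv : ga⁻¹ = ga := by rw [inv_eq_iff_mul_eq_one]; exact ga_mul_ga
lemma gb_inv : gb⁻¹ = gb := by rw [inv_eq_iff_mul_eq_one]; exact gb_sq
lemma gc_inv : gc⁻¹ = gc := by rw [inv_eq_iff_mul_eq_one]; exact gc_sq
lemma gd_inv : gd⁻¹ = gd := by rw [inv_eq_iff_mul_eq_one]; exact gd_sq

lemma aba : ga * gb * ga = pr gc ga := by rw [gb_eq, ga_pr_ga]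
lemma ada : ga * gd * ga = pr gb 1 := by rw [gd_eq, ga_pr_ga]

lemma tt_eq : tt = pr (gc * ga) (ga * gc) := by
  unfold tt
  rw [aba]
  conv_lhs => rw [gb_eq]
  rw [pr_mul]

lemma vv_word : vv = gb * (ga * gd * ga) * (gb * (ga * gd * ga)) := by
  rw [ada]
  conv_rhs => rw [gb_eq]
  simp only [pr_mul, mul_one]
  rw [gc_sq]
  unfold vv tt
  rw [← gb_eq]
  simp only [mul_assoc]


lemma ga_ga_x (x : PT) : ga * (ga * x) = x := by rw [← mul_assoc, ga_mul_ga, one_mul]
lemma gb_gb_x (x : PT) : gb * (gb * x) = x := by rw [← mul_assoc, gb_sq, one_mul]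
lemma gc_gc_x (x : PT) : gc * (gc * x) = x := by rw [← mul_assoc, gc_sq, one_mul]
lemma gd_gd_x (x : PT) : gd * (gd * x) = x := by rw [← mul_assoc, gd_sq, one_mul]
lemma gb_gc_x (x : PT) : gb * (gc * x) = gd * x := by rw [← mul_assoc, gb_gc]

lemma ga_vv_ga : ga * vv * ga = ww := by unfold vv ww; exact ga_pr_ga _ _
lemma ga_ww_ga : ga * ww * ga = vv := by unfold vv ww; exact ga_pr_ga _ _
lemma ga_tt_ga : ga * tt * ga = tt⁻¹ := by
  unfold tt
  simp only [mul_inv_rev, ga_inv, gb_inv, mul_assoc, ga_ga_x]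

lemma ww_word : ww = ga * (gb * (ga * (gd * (ga * (gb * (ga * gd)))))) := by
  rw [← ga_vv_ga, vv_word]
  simp only [mul_assoc, ga_mul_ga, mul_one]

lemma rel1 : tt⁻¹ * (gc * ga)⁻¹ * tt * (gc * ga) = vv := by
  rw [vv_word]
  unfold tt
  simp only [mul_inv_rev, ga_inv, gb_inv, gc_inv, mul_assoc, ga_ga_x, gb_gc_x]

lemma rel2 : tt * (gc * ga) * tt⁻¹ * (gc * ga)⁻¹ = ww := by
  rw [ww_word]
  unfold tt
  simp only [mul_inv_rev, ga_inv, gb_inv, gc_inv, mul_assoc, ga_ga_x, gb_gc_x, gb_gc]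

lemma pr_vv : vv⁻¹ * tt⁻¹ * vv * tt = pr vv 1 := by
  have h : vv⁻¹ * tt⁻¹ * vv * tt = (pr tt 1)⁻¹ * (pr (gc * ga) (ga * gc))⁻¹ *
      (pr tt 1) * (pr (gc * ga) (ga * gc)) := by
    rw [← tt_eq]; rfl
  rw [h]
  simp only [pr_inv, pr_mul]
  rw [rel1]
  congr 1
  group

lemma pr_ww : vv * tt * vv⁻¹ * tt⁻¹ = pr ww 1 := by
  have h : vv * tt * vv⁻¹ * tt⁻¹ = (pr tt 1) * (pr (gc * ga) (ga * gc)) *
      (pr tt 1)⁻¹ * (pr (gc * ga) (ga * gc))⁻¹ := by
    rw [← tt_eq]; rfl
  rw [h]
  simp only [pr_inv, pr_mul]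
  rw [rel2]
  congr 1
  group

/-- the finitely generated branching subgroup -/
noncomputable def HH : Subgroup PT := Subgroup.closure {tt, vv, ww}

lemma tt_mem : tt ∈ HH := Subgroup.subset_closure (by simp)
lemma vv_mem : vv ∈ HH := Subgroup.subset_closure (by simp)
lemma ww_mem : ww ∈ HH := Subgroup.subset_closure (by simp)

/-- the left embedding as a homomorphism -/
def prL : PT →* PT where
  toFun g := pr g 1
  map_one' := pr_one
  map_mul' g h := by simp [pr_mul]

/-- the right embedding as a homomorphism -/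
def prR : PT →* PT where
  toFun g := pr 1 g
  map_one' := pr_one
  map_mul' g h := by simp [pr_mul]

lemma prL_apply (g : PT) : prL g = pr g 1 := rfl
lemma prR_apply (g : PT) : prR g = pr 1 g := rfl

lemma pr_left_mem {h : PT} (hh : h ∈ HH) : pr h 1 ∈ HH := by
  have : HH ≤ HH.comap prL := by
    conv_lhs => unfold HH
    rw [Subgroup.closure_le]
    rintro x (rfl | rfl | rfl)
    · exact vv_mem
    · change pr vv 1 ∈ HH
      rw [← pr_vv]
      exact HH.mul_mem (HH.mul_mem (HH.mul_mem (HH.inv_mem vv_mem) (HH.inv_mem tt_mem)) vv_mem)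
        tt_mem
    · change pr ww 1 ∈ HH
      rw [← pr_ww]
      exact HH.mul_mem (HH.mul_mem (HH.mul_mem vv_mem tt_mem) (HH.inv_mem vv_mem))
        (HH.inv_mem tt_mem)
  exact this hh

/-- conjugation by the first generator -/
def cga : PT →* PT where
  toFun g := ga * g * ga
  map_one' := by simp [ga_mul_ga]
  map_mul' g h := by
    simp only [mul_assoc, ga_ga_x]

lemma cga_mem {h : PT} (hh : h ∈ HH) : ga * h * ga ∈ HH := by
  have : HH ≤ HH.comap cga := by
    conv_lhs => unfold HH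
    rw [Subgroup.closure_le]
    rintro x (rfl | rfl | rfl)
    · change ga * tt * ga ∈ HH
      rw [ga_tt_ga]; exact HH.inv_mem tt_mem
    · change ga * vv * ga ∈ HH
      rw [ga_vv_ga]; exact ww_mem
    · change ga * ww * ga ∈ HH
      rw [ga_ww_ga]; exact vv_mem
  exact this hh

lemma pr_right_mem {h : PT} (hh : h ∈ HH) : pr 1 h ∈ HH := by
  have := cga_mem (pr_left_mem hh)
  rwa [ga_pr_ga] at this

lemma pr_mem {g h : PT} (hg : g ∈ HH) (hh : h ∈ HH) : pr g h ∈ HH := by
  have := HH.mul_mem (pr_left_mem hg) (pr_right_mem hh)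
  rwa [pr_mul, mul_one, one_mul] at this

/-- The Grigorchuk group. -/
noncomputable def GG : Subgroup PT := Subgroup.closure ({ga, gb, gc, gd} : Set PT)

lemma ga_mem : ga ∈ GG := Subgroup.subset_closure (by simp)
lemma gb_mem : gb ∈ GG := Subgroup.subset_closure (by simp)
lemma gc_mem : gc ∈ GG := Subgroup.subset_closure (by simp)
lemma gd_mem : gd ∈ GG := Subgroup.subset_closure (by simp)

lemma HH_le_GG : HH ≤ GG := by
  have h1 : tt ∈ GG := GG.mul_mem (GG.mul_mem (GG.mul_mem ga_mem gb_mem) ga_mem) gb_mem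
  have h2 : vv ∈ GG := by
    rw [vv_word]
    have := GG.mul_mem gb_mem (GG.mul_mem (GG.mul_mem ga_mem gd_mem) ga_mem)
    exact GG.mul_mem this this
  have h3 : ww ∈ GG := by
    rw [← ga_vv_ga]
    exact GG.mul_mem (GG.mul_mem ga_mem h2) ga_mem
  unfold HH
  rw [Subgroup.closure_le]
  rintro x (rfl | rfl | rfl)
  · exact h1
  · exact h2
  · exact h3

/-! ### Germs -/

/-- trivial germs at points with infinitely many false letters -/
def Germ (g : PT) : Prop :=
  ∀ ξ : ℕ → Bool, (∀ N, ∃ j, N ≤ j ∧ ξ j = false) →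
    ∃ n, ∀ ζ : ℕ → Bool, (∀ i < n, ζ i = ξ i) →
      (∀ j, n ≤ j → g ζ j = ζ j) ∧ (∀ j < n, g ζ j = g ξ j)

lemma germ_one : Germ 1 := by
  intro ξ _
  exact ⟨0, fun ζ _ => ⟨fun j _ => rfl, fun j hj => by omega⟩⟩

lemma germ_mul {g h : PT} (hg : Germ g) (hh : Germ h) : Germ (g * h) := by
  intro ξ hξ
  obtain ⟨n1, h1⟩ := hh ξ hξ
  have hx : ∀ j, n1 ≤ j → h ξ j = ξ j := (h1 ξ (fun _ _ => rfl)).1
  have hξ' : ∀ N, ∃ j, N ≤ j ∧ h ξ j = false := by
    intro N
    obtain ⟨j, hj, hj'⟩ := hξ (max N n1)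
    exact ⟨j, le_trans (le_max_left _ _) hj, by
      rw [hx j (le_trans (le_max_right _ _) hj)]; exact hj'⟩
  obtain ⟨n2, h2⟩ := hg (h ξ) hξ'
  refine ⟨max n1 n2, fun ζ hζ => ?_⟩
  obtain ⟨h3, h4⟩ := h1 ζ (fun i hi => hζ i (lt_of_lt_of_le hi (le_max_left _ _)))
  have h5 : ∀ j < max n1 n2, h ζ j = h ξ j := by
    intro j hj
    by_cases hj1 : j < n1
    · exact h4 j hj1
    · rw [h3 j (by omega), hζ j hj, hx j (by omega)]
  obtain ⟨h6, h7⟩ := h2 (h ζ) (fun i hi => h5 i (lt_of_lt_of_le hi (le_max_right _ _)))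
  constructor
  · intro j hj
    have hj1 : n1 ≤ j := le_trans (le_max_left _ _) hj
    have hj2 : n2 ≤ j := le_trans (le_max_right _ _) hj
    rw [Equiv.Perm.mul_apply, h6 j hj2, h3 j hj1]
  · intro j hj
    rw [Equiv.Perm.mul_apply, Equiv.Perm.mul_apply]
    by_cases hj2 : j < n2
    · exact h7 j hj2
    · rw [h6 j (by omega), h5 j hj]
      exact ((h2 (h ξ) (fun _ _ => rfl)).1 j (by omega)).symm

lemma germ_ga : Germ ga := by
  intro ξ _
  refine ⟨1, fun ζ hζ => ⟨?_, ?_⟩⟩
  · intro j hj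
    rcases j with _ | j
    · omega
    · rfl
  · intro j hj
    have : j = 0 := by omega
    subst this
    simp [ga_apply, hζ 0 (by omega)]

lemma germ_fl (r : ℕ → Prop) : Germ (fl r) := by
  classical
  intro ξ hξ
  have hex : ∃ k, ξ k = false := by
    obtain ⟨j, _, hj⟩ := hξ 0
    exact ⟨j, hj⟩
  let k := Nat.find hex
  have hk : ξ k = false := Nat.find_spec hex
  have hk' : ∀ i < k, ξ i = true := by
    intro i hi
    have := Nat.find_min hex hi
    simpa using this
  refine ⟨k + 2, fun ζ hζ => ?_⟩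
  have hz : ζ k = false := by rw [hζ k (by omega)]; exact hk
  have hz' : ∀ i < k, ζ i = true := by
    intro i hi; rw [hζ i (by omega)]; exact hk' i hi
  have uniq : ∀ x : ℕ → Bool, x k = false → (∀ i < k, x i = true) → ∀ j, Pos r x j ↔
      (j = k + 1 ∧ r k) := by
    intro x hx hx' j
    constructor
    · rintro ⟨m, hm, h1, h2, h3⟩
      have : m = k := by
        rcases lt_trichotomy m k with h | h | h
        · have := hx' m h; rw [h1] at this; cases this
        · exact h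
        · have := h2 k h; rw [hx] at this; cases this
      subst this
      exact ⟨hm, h3⟩
    · rintro ⟨h1, h2⟩
      exact ⟨k, h1, hx, hx', h2⟩
  constructor
  · intro j hj
    rw [fl_apply]
    have : ¬ Pos r ζ j := by rw [uniq ζ hz hz']; omega
    simp [flf, this]
  · intro j hj
    rw [fl_apply, fl_apply]
    have h1 := uniq ζ hz hz' j
    have h2 := uniq ξ hk hk' j
    unfold flf
    by_cases hc : (j = k + 1 ∧ r k)
    · rw [if_pos (h1.mpr hc), if_pos (h2.mpr hc), hζ j hj]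
    · rw [if_neg (fun h => hc (h1.mp h)), if_neg (fun h => hc (h2.mp h)), hζ j hj]

lemma germ_GG {g : PT} (hg : g ∈ GG) : Germ g := by
  have : Germ g ∧ Germ g⁻¹ := by
    unfold GG at hg
    induction hg using Subgroup.closure_induction with
    | mem x hx =>
      rcases hx with rfl | rfl | rfl | rfl
      · rw [ga_inv]; exact ⟨germ_ga, germ_ga⟩
      · rw [gb_inv]; exact ⟨germ_fl _, germ_fl _⟩
      · rw [gc_inv]; exact ⟨germ_fl _, germ_fl _⟩
      · rw [gd_inv]; exact ⟨germ_fl _, germ_fl _⟩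
    | one => rw [inv_one]; exact ⟨germ_one, germ_one⟩
    | mul x y _ _ h1 h2 =>
      rw [mul_inv_rev]
      exact ⟨germ_mul h1.1 h2.1, germ_mul h2.2 h1.2⟩
    | inv x _ h => rw [inv_inv]; exact ⟨h.2, h.1⟩
  exact this.1

/-- prepend `n` letters false -/
def C (n : ℕ) (x : ℕ → Bool) : ℕ → Bool := fun j => if j < n then false else x (j - n)

lemma C_zero (x : ℕ → Bool) : C 0 x = x := by funext j; simp [C]

lemma C_succ (n : ℕ) (x : ℕ → Bool) : C (n + 1) x = cns false (C n x) := by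
  funext j
  rcases j with _ | j
  · simp [C]
  · simp [C]

lemma no_fix {k x : PT} (hk : k ∈ GG) (h : k = pr k x) : x = 1 := by
  obtain ⟨n, hn⟩ := germ_GG hk (fun _ => false) (fun N => ⟨N, le_rfl, rfl⟩)
  have key : ∀ m ω, k (C m (cns true ω)) = C m (cns true (x ω)) := by
    intro m ω
    induction m with
    | zero =>
      rw [C_zero, C_zero]
      conv_lhs => rw [h]
      rw [pr_true]
    | succ m ih =>
      rw [C_succ, C_succ]
      conv_lhs => rw [h]
      rw [pr_false, ih]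
  apply Equiv.ext
  intro ω
  funext i
  have h1 := (hn (C n (cns true ω)) (by intro i hi; simp [C, hi])).1 (n + 1 + i) (by omega)
  rw [key] at h1
  have h2 : ∀ y : ℕ → Bool, C n (cns true y) (n + 1 + i) = y i := by
    intro y
    have : ¬ (n + 1 + i < n) := by omega
    have h3 : n + 1 + i - n = i + 1 := by omega
    simp [C, this, h3]
  rw [h2, h2] at h1
  simpa using h1

/-! ### The sequences -/

/-- place an automorphism at the vertex `0^n 1` -/
def pl : ℕ → PT → PT
  | 0, y => pr 1 y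
  | n + 1, y => pr (pl n y) 1

lemma pl_mul (n : ℕ) (y z : PT) : pl n (y * z) = pl n y * pl n z := by
  induction n with
  | zero => simp [pl, pr_mul]
  | succ n ih => simp [pl, pr_mul, ih]

lemma pl_one (n : ℕ) : pl n 1 = 1 := by
  induction n with
  | zero => exact pr_one
  | succ n ih => simp only [pl, ih]; exact pr_one

lemma pl_inv (n : ℕ) (y : PT) : pl n y⁻¹ = (pl n y)⁻¹ := by
  rw [eq_inv_iff_mul_eq_one, ← pl_mul, inv_mul_cancel, pl_one]

lemma pl_comm {n m : ℕ} (h : n ≠ m) (y z : PT) : pl n y * pl m z = pl m z * pl n y := by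
  induction n generalizing m with
  | zero =>
    rcases m with _ | m
    · exact absurd rfl h
    · simp [pl, pr_mul]
  | succ n ih =>
    rcases m with _ | m
    · simp [pl, pr_mul]
    · have := ih (m := m) (by omega)
      simp [pl, pr_mul, this]

lemma pl_comm_self (n : ℕ) (x : PT) : pl n x * pl 0 x = pl 0 x * pl n x := by
  by_cases h : n = 0
  · subst h; rfl
  · exact pl_comm h x x

lemma pl_mem {y : PT} (hy : y ∈ HH) (n : ℕ) : pl n y ∈ HH := by
  induction n with
  | zero => exact pr_right_mem hy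
  | succ n ih => exact pr_left_mem ih

/-- the approximating sequence -/
def kk (x : PT) : ℕ → PT
  | 0 => 1
  | n + 1 => pr (kk x n) x

lemma kk_mem {x : PT} (hx : x ∈ HH) (n : ℕ) : kk x n ∈ HH := by
  induction n with
  | zero => exact HH.one_mem
  | succ n ih => exact pr_mem ih hx

lemma kk_eq (x : PT) (n : ℕ) : (kk x n)⁻¹ * pr (kk x n) 1 = pr 1 x⁻¹ * pl n x := by
  induction n with
  | zero => simp [kk, pl, pr_mul, pr_one]
  | succ n ih =>
    have h1 : pr (kk x n) x = pr (kk x n) 1 * pr 1 x := by simp [pr_mul]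
    have h2 : pr 1 x⁻¹ * pl n x * pr 1 x = pl n x := by
      have := pl_comm_self n x
      change pl n x * pr 1 x = pr 1 x * pl n x at this
      rw [mul_assoc, this, ← mul_assoc, pr_mul]
      simp [pr_one]
    calc (kk x (n + 1))⁻¹ * pr (kk x (n + 1)) 1
        = pr ((kk x n)⁻¹ * pr (kk x n) x) x⁻¹ := by
          simp only [kk, pr_inv, pr_mul, mul_one]
      _ = pr (pl n x) x⁻¹ := by
          rw [h1, ← mul_assoc, ih, h2]
      _ = pr 1 x⁻¹ * pl (n + 1) x := by
          simp [pl, pr_mul]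

/-- the special commutator -/
noncomputable def xx : PT := pr vv 1

lemma xx_mem : xx ∈ HH := pr_left_mem vv_mem

lemma xx_ne : xx ≠ 1 := by
  intro h
  have h1 : vv = 1 := (pr_inj (h.trans pr_one.symm)).1
  have h2 : tt = 1 := (pr_inj (h1.trans pr_one.symm)).1
  rw [tt_eq] at h2
  have h3 : gc * ga = 1 := (pr_inj (h2.trans pr_one.symm)).1
  have h4 := congrArg (fun g : PT => g (fun _ => false) 0) h3
  have h5 : gc (ga fun _ => false) 0 = (ga fun _ => false) 0 := by
    by_contra hne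
    have := (fl_ne (fun k => k % 3 ≠ 1) (ga fun _ => false) 0).mp hne
    obtain ⟨k, hk, _⟩ := this
    omega
  simp only [Equiv.Perm.mul_apply] at h4
  rw [h5] at h4
  simp [ga_apply] at h4

theorem main (hyp : ∀ (n : ℕ) (A : Fin n → Subgroup GG), (∀ i, (A i).FG) →
          ∀ g : GG, (∀ f : Fin n → GG, (∀ i, f i ∈ A i) → (List.ofFn f).prod ≠ g) →
            ∃ N : Subgroup GG, N.FiniteIndex ∧
              ∀ f : Fin n → GG, (∀ i, f i ∈ A i) → ∀ m ∈ N, (List.ofFn f).prod * m ≠ g) :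
    False := by
  classical
  have hHfg : Group.FG HH := by
    rw [Group.fg_iff_subgroup_fg]
    unfold HH
    exact ⟨{tt, vv, ww}, by simp⟩
  -- the two homomorphisms
  let φ1 : HH →* GG :=
    { toFun := fun h => ⟨pr h.1 h.1, HH_le_GG (pr_mem h.2 h.2)⟩
      map_one' := by apply Subtype.ext; simp [pr_one]
      map_mul' := by intro g h; apply Subtype.ext; simp [pr_mul] }
  let φ2 : HH →* GG :=
    { toFun := fun h => ⟨pr h.1 (pr h.1 1), HH_le_GG (pr_mem h.2 (pr_left_mem h.2))⟩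
      map_one' := by apply Subtype.ext; simp [pr_one]
      map_mul' := by intro g h; apply Subtype.ext; simp [pr_mul] }
  have hφ1 : ∀ h : HH, (φ1 h : PT) = pr h.1 h.1 := fun _ => rfl
  have hφ2 : ∀ h : HH, (φ2 h : PT) = pr h.1 (pr h.1 1) := fun _ => rfl
  let A : Fin 2 → Subgroup GG := ![φ1.range, φ2.range]
  have hA : ∀ i, (A i).FG := by
    intro i
    fin_cases i
    · change φ1.range.FG
      rw [← Group.fg_iff_subgroup_fg]; infer_instance
    · change φ2.range.FG
      rw [← Group.fg_iff_subgroup_fg]; infer_instance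
  let g : GG := ⟨pr 1 (pr 1 xx⁻¹), HH_le_GG (pr_right_mem (pr_right_mem (HH.inv_mem xx_mem)))⟩
  have hg : ∀ f : Fin 2 → GG, (∀ i, f i ∈ A i) → (List.ofFn f).prod ≠ g := by
    intro f hf heq
    obtain ⟨h, hh⟩ : ∃ h, φ1 h = f 0 := hf 0
    obtain ⟨k, hk⟩ : ∃ k, φ2 k = f 1 := hf 1
    have h1 : (List.ofFn f).prod = f 0 * f 1 := by simp [List.ofFn_succ]
    rw [h1, ← hh, ← hk] at heq
    have h2 := congrArg (fun z : GG => (z : PT)) heq
    simp only [Subgroup.coe_mul, hφ1, hφ2, pr_mul] at h2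
    change pr _ _ = pr 1 (pr 1 xx⁻¹) at h2
    obtain ⟨h3, h4⟩ := pr_inj h2
    have h5 : (h : PT) = (k : PT)⁻¹ := by rw [eq_inv_iff_mul_eq_one]; exact h3
    have h6 : (k : PT) = pr (k : PT) xx := by
      have : pr (k : PT) 1 = (k : PT) * pr 1 xx⁻¹ := by
        rw [← h4, h5]; group
      calc (k : PT) = (k : PT) * pr 1 xx⁻¹ * pr 1 xx := by
            rw [mul_assoc, pr_mul]; simp [pr_one]
        _ = pr (k : PT) 1 * pr 1 xx := by rw [← this]
        _ = pr (k : PT) xx := by simp [pr_mul]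
    exact xx_ne (no_fix (HH_le_GG k.2) h6)
  obtain ⟨N, hN, hN'⟩ := hyp 2 A hA g hg
  -- a finite-index normal subgroup
  let M : Subgroup GG := N.normalCore
  have : M.FiniteIndex := by
    change N.normalCore.FiniteIndex
    infer_instance
  have : M.Normal := N.normalCore_normal
  have hMN : M ≤ N := N.normalCore_le
  -- the elements Y_n
  let Y : PT → HH → ℕ → GG := fun _ y n =>
    ⟨pr 1 (pl n y.1), HH_le_GG (pr_right_mem (pl_mem y.2 n))⟩
  let y : HH := ⟨vv⁻¹, HH.inv_mem vv_mem⟩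
  let z : HH := ⟨tt, tt_mem⟩
  let x : HH := ⟨xx, xx_mem⟩
  obtain ⟨n, m, hnm, hq⟩ := Finite.exists_ne_map_eq_of_infinite
    (fun n : ℕ => (QuotientGroup.mk (Y 1 y n) : GG ⧸ M))
  rw [QuotientGroup.eq] at hq
  have hcomm : (Y 1 y n)⁻¹ * Y 1 y m ∈ M := hq
  have hM2 : ((Y 1 y n)⁻¹ * Y 1 y m)⁻¹ * ((Y 1 z n)⁻¹ * ((Y 1 y n)⁻¹ * Y 1 y m) *
      ((Y 1 z n)⁻¹)⁻¹) ∈ M :=
    M.mul_mem (M.inv_mem hcomm) (‹M.Normal›.conj_mem _ hcomm _)
  have hX : ((Y 1 y n)⁻¹ * Y 1 y m)⁻¹ * ((Y 1 z n)⁻¹ * ((Y 1 y n)⁻¹ * Y 1 y m) *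
      ((Y 1 z n)⁻¹)⁻¹) = Y 1 x n := by
    apply Subtype.ext
    simp only [Subgroup.coe_mul, Subgroup.coe_inv]
    change ((pr 1 (pl n vv⁻¹))⁻¹ * pr 1 (pl m vv⁻¹))⁻¹ * ((pr 1 (pl n tt))⁻¹ *
      ((pr 1 (pl n vv⁻¹))⁻¹ * pr 1 (pl m vv⁻¹)) * ((pr 1 (pl n tt))⁻¹)⁻¹) = pr 1 (pl n xx)
    simp only [pr_inv, pr_mul]
    have hx : xx = vv⁻¹ * tt⁻¹ * vv * tt := pr_vv.symm
    have hQP : Commute (pl m vv) (pl n vv) := pl_comm (Ne.symm hnm) vv vv
    have hQR : Commute (pl m vv) (pl n tt) := pl_comm (Ne.symm hnm) vv tt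
    rw [hx]
    simp only [pl_mul, pl_inv]
    generalize pl n vv = P at *
    generalize pl m vv = Q at *
    generalize pl n tt = R at *
    have e1 : Commute Q (P⁻¹ * R⁻¹ * P * R) :=
      ((hQP.inv_right.mul_right hQR.inv_right).mul_right hQP).mul_right hQR
    have e2 : Q⁻¹ * R = R * Q⁻¹ := (hQR.inv_left).eq
    have e3 : ((P⁻¹)⁻¹ * Q⁻¹)⁻¹ * (R⁻¹ * ((P⁻¹)⁻¹ * Q⁻¹) * (R⁻¹)⁻¹) = P⁻¹ * R⁻¹ * P * R := by
      calc ((P⁻¹)⁻¹ * Q⁻¹)⁻¹ * (R⁻¹ * ((P⁻¹)⁻¹ * Q⁻¹) * (R⁻¹)⁻¹)
          = Q * (P⁻¹ * R⁻¹ * P) * (Q⁻¹ * R) := by group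
        _ = Q * (P⁻¹ * R⁻¹ * P * R) * Q⁻¹ := by rw [e2]; group
        _ = P⁻¹ * R⁻¹ * P * R := by rw [e1.eq]; group
    rw [e3]
    simp
  have hXN : Y 1 x n ∈ N := hMN (hX ▸ hM2)
  let k : HH := ⟨kk xx n, kk_mem xx_mem n⟩
  let f : Fin 2 → GG := ![φ1 k⁻¹, φ2 k]
  have hf : ∀ i, f i ∈ A i := by
    intro i
    fin_cases i
    · exact ⟨k⁻¹, rfl⟩
    · exact ⟨k, rfl⟩
  refine hN' f hf (Y 1 x n)⁻¹ (N.inv_mem hXN) ?_
  rw [mul_inv_eq_iff_eq_mul]
  apply Subtype.ext
  have h1 : (List.ofFn f).prod = f 0 * f 1 := by simp [List.ofFn_succ]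
  rw [h1]
  change pr (kk xx n)⁻¹ (kk xx n)⁻¹ * pr (kk xx n) (pr (kk xx n) 1) =
    pr 1 (pr 1 xx⁻¹) * pr 1 (pl n xx)
  simp only [pr_mul, kk_eq]
  simp

/-- The negation of the preceding statement: In the Grigorchuk group (generated by a, b=(a,c), c=(a,d), d=(1,b) acting on binary sequences), every product set A1...An of finitely generated subgroups is closed in the profinite topology. -/
theorem result :
    ¬ (∀ a b c d : Equiv.Perm (ℕ → Bool),
      (∀ x j, a x j ≠ x j ↔ j = 0) →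
      (∀ x j, b x j ≠ x j ↔ ∃ k, j = k + 1 ∧ x k = false ∧ (∀ i < k, x i = true) ∧ k % 3 ≠ 2) →
      (∀ x j, c x j ≠ x j ↔ ∃ k, j = k + 1 ∧ x k = false ∧ (∀ i < k, x i = true) ∧ k % 3 ≠ 1) →
      (∀ x j, d x j ≠ x j ↔ ∃ k, j = k + 1 ∧ x k = false ∧ (∀ i < k, x i = true) ∧ k % 3 ≠ 0) →
      ∀ G : Subgroup (Equiv.Perm (ℕ → Bool)),
        G = Subgroup.closure ({a, b, c, d} : Set (Equiv.Perm (ℕ → Bool))) →
        ∀ (n : ℕ) (A : Fin n → Subgroup G), (∀ i, (A i).FG) →
          ∀ g : G, (∀ f : Fin n → G, (∀ i, f i ∈ A i) → (List.ofFn f).prod ≠ g) →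
            ∃ N : Subgroup G, N.FiniteIndex ∧
              ∀ f : Fin n → G, (∀ i, f i ∈ A i) → ∀ m ∈ N, (List.ofFn f).prod * m ≠ g) := by
  intro h
  refine main (h ga gb gc gd ?_ (fun x j => fl_ne _ x j) (fun x j => fl_ne _ x j)
    (fun x j => fl_ne _ x j) GG rfl)
  intro x j
  rw [ga_apply]
  rcases j with _ | j
  · simp
  · simp [tl_apply]

end Pool.Agent.S02978
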