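import Pool.Statements.S03071
-- import your own Pool.Agent.* helpers here
import Pool.Agent.H24.KMM.Main

set_option autoImplicit false
open Pool Pool.MP_cc4cfd_al

namespace Pool.Agent.S03071

/-- For every finite oriented tree, there are ternary edge-preserving maps p, q with p(x,y,y)=q(y,x,x)=q(x,x,y) and p(x,y,x)=q(x,y,x) iff there is a ternary edge-preserving w with w(x,x,y)=w(x,y,x)=w(y,x,x). -/
theorem result :
    ∀ (V : Type) [Fintype V] (E : V → V → Prop),
      (∀ a, ¬ E a a) →
      (∀ a b, E a b → ¬ E b a) →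
      (SimpleGraph.fromRel E).IsTree →
      ((∃ p q : V → V → V → V,
          (∀ x1 x2 x3 y1 y2 y3 : V, E x1 y1 → E x2 y2 → E x3 y3 →
              E (p x1 x2 x3) (p y1 y2 y3)) ∧
          (∀ x1 x2 x3 y1 y2 y3 : V, E x1 y1 → E x2 y2 → E x3 y3 →
              E (q x1 x2 x3) (q y1 y2 y3)) ∧
          (∀ x y : V, p x y y = q y x x ∧ q y x x = q x x y ∧ p x y x = q x y x)) ↔
        (∃ w : V → V → V → V,
          (∀ x1 x2 x3 y1 y2 y3 : V, E x1 y1 → E x2 y2 → E x3 y3 →
              E (w x1 x2 x3) (w y1 y2 y3)) ∧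
          (∀ x y : V, w x x y = w x y x ∧ w x y x = w y x x))) := by
  intro V _ E h1 h2 h3
  exact KMMTree.main V E h1 h2 h3

end Pool.Agent.S03071
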