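import Pool.Statements.S03315
import Pool.Agent.HuaFd13.Fin

set_option autoImplicit false
open scoped TensorProduct
open Pool Pool.MP_e10bb1_al

namespace Pool.Agent.S03315

/-- Every Hua system on a nonzero abelian group A admits a quadratic Jordan division ring structure (unit, quadratic U, identities holding after every scalar extension, all nonzero U_a bijective) on (A,+) with j_a(b) = U_a(b inverse). -/
theorem result :
  ∀ (A : Type) [AddCommGroup A], Nontrivial A →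
  ∀ j : A → Option A → Option A,
   (∀ a : A, a ≠ 0 → (∀ x : Option A, j a (j a x) = x) ∧ j a (some a) = some a ∧
      j a (some (-a)) = some (-a) ∧ j a (some 0) = none) →
   (∀ a : A, a ≠ 0 → ∀ x : Option A,
      Option.map (fun b => a - b) (j a (Option.map (fun b => a - b)
        (j a (Option.map (fun b => a - b) (j a x))))) = x) →
   (∀ a b : A, a ≠ 0 → b ≠ 0 → ∃ f : A →+ A, ∀ x : A, j a (j b (some x)) = some (f x)) →
   ∃ (one : A) (U : QuadraticMap ℤ A (Module.End ℤ A)),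
     U one = 1 ∧
     (∀ a b c : A, U a ((QuadraticMap.polar (⇑U) b c) a) = (QuadraticMap.polar (⇑U) a (U a c)) b) ∧
     (∀ a b : A, U (U a b) = U a * U b * U a) ∧
     (∀ (Ω : Type) [CommRing Ω] (U' : QuadraticMap Ω (Ω ⊗[ℤ] A) (Module.End Ω (Ω ⊗[ℤ] A))),
        (∀ (a c : A) (ω : Ω), U' ((1 : Ω) ⊗ₜ[ℤ] a) (ω ⊗ₜ[ℤ] c) = ω ⊗ₜ[ℤ] (U a c)) →
        (U' ((1 : Ω) ⊗ₜ[ℤ] one) = 1 ∧
         (∀ x y z : Ω ⊗[ℤ] A,
            U' x ((QuadraticMap.polar (⇑U') y z) x) = (QuadraticMap.polar (⇑U') x (U' x z)) y) ∧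
         (∀ x y : Ω ⊗[ℤ] A, U' (U' x y) = U' x * U' y * U' x))) ∧
     (∀ a : A, a ≠ 0 → Function.Bijective (U a)) ∧
     (∀ a b c : A, a ≠ 0 → b ≠ 0 → U b c = b → j a (some b) = some (U a c)) := by
  exact Pool.Agent.HuaFin91.frozen_of_exponent
    (fun p hp A _ hA J hJ => Pool.Agent.HuaFd13.T3_prime hp hA hJ)

end Pool.Agent.S03315
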