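import Pool.Statements.S03416
import Pool.Agent.H93.Reid.NotGood

set_option autoImplicit false
open Pool Pool.MP_e8be57_al

namespace Pool.Agent.S03416

open Pool.Agent.H93.Reid

/-- The complement of `A` in `D`. -/
noncomputable def splitD : A × ret.ker ≃+ D where
  toFun x := sec x.1 + x.2
  invFun d := ⟨ret d, ⟨d - sec (ret d), by
    rw [AddMonoidHom.mem_ker, map_sub, ret_sec, sub_self]⟩⟩
  left_inv := by
    rintro ⟨a, b, hb⟩
    rw [AddMonoidHom.mem_ker] at hb
    apply Prod.ext
    · show ret (sec a + b) = a
      rw [map_add, ret_sec, hb, add_zero]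
    · apply Subtype.ext
      show (sec a + b) - sec (ret (sec a + b)) = b
      rw [map_add, ret_sec, hb, add_zero]
      abel
  right_inv := by
    intro d
    show sec (ret d) + (d - sec (ret d)) = d
    abel
  map_add' := by
    rintro ⟨a, b⟩ ⟨a', b'⟩
    show sec (a + a') + ((b + b' : ret.ker) : D) = (sec a + b) + (sec a' + b')
    rw [map_add, AddSubgroup.coe_add]
    abel

/-- The negation of the preceding statement: Take the smallest isomorphism-closed class of abelian groups that contains ℤ and is closed under arbitrary direct sums and direct products. If A × B lies in this class, then A lies in it too. -/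
theorem result :
    ¬ (∀ (A B : AddCommGrpCat.{0}),
      (∀ C : AddCommGrpCat.{0} → Prop,
        C (AddCommGrpCat.of ℤ) →
        (∀ G H : AddCommGrpCat.{0}, Nonempty (G ≃+ H) → C G → C H) →
        (∀ (ι : Type) (G : ι → AddCommGrpCat.{0}), (∀ i, C (G i)) →
          C (AddCommGrpCat.of (DirectSum ι (fun i => G i)))) →
        (∀ (ι : Type) (G : ι → AddCommGrpCat.{0}), (∀ i, C (G i)) →
          C (AddCommGrpCat.of ((i : ι) → G i))) →
        C (AddCommGrpCat.of (A × B))) →
      (∀ C : AddCommGrpCat.{0} → Prop,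
        C (AddCommGrpCat.of ℤ) →
        (∀ G H : AddCommGrpCat.{0}, Nonempty (G ≃+ H) → C G → C H) →
        (∀ (ι : Type) (G : ι → AddCommGrpCat.{0}), (∀ i, C (G i)) →
          C (AddCommGrpCat.of (DirectSum ι (fun i => G i)))) →
        (∀ (ι : Type) (G : ι → AddCommGrpCat.{0}), (∀ i, C (G i)) →
          C (AddCommGrpCat.of ((i : ι) → G i))) →
        C A)) := by
  classical
  intro hmain
  have h := hmain (AddCommGrpCat.of A) (AddCommGrpCat.of ret.ker) ?_
    (fun G => Retr G → Good G) ?_ ?_ ?_ ?_
  · exact not_good_A (h retrA)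
  · intro C hZ hiso hsum hprod
    have hF : C (AddCommGrpCat.of F) := by
      have h1 := hsum ℕ (fun _ => AddCommGrpCat.of ℤ) (fun _ => hZ)
      exact hiso _ _ ⟨(finsuppAddEquivDFinsupp (ι := ℕ) (M := ℤ)).symm⟩ h1
    have hP : C (AddCommGrpCat.of P) := hprod ℕ (fun _ => AddCommGrpCat.of F) (fun _ => hF)
    have hD : C (AddCommGrpCat.of D) := hsum ℕ (fun _ => AddCommGrpCat.of P) (fun _ => hP)
    exact hiso _ _ ⟨splitD.symm⟩ hD
  · intro _
    exact good_of_countable (X := ℤ) sepZ
  · rintro G H ⟨E⟩ hG hH
    exact (hG (hH.trans E.toAddMonoidHom E.symm.toAddMonoidHom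
      (fun y => E.symm_apply_apply y))).of_equiv E
  · intro ι G hG hR
    have hR' : Retr (DirectSum ι (fun i => G i)) := hR
    have hRi : ∀ i, Retr (G i) := fun i => hR'.trans (DirectSum.of (fun i => G i) i) (ev i)
      (fun y => DirectSum.of_eq_same (β := fun i => G i) i y)
    exact good_directSum (X := fun i => G i) (fun i => (hRi i).sep) (fun i => hG i (hRi i))
  · intro ι G hG hR
    have hR' : Retr ((i : ι) → G i) := hR
    have hRi : ∀ i, Retr (G i) := fun i => hR'.trans (AddMonoidHom.single (fun i => G i) i)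
      (Pi.evalAddMonoidHom (fun i => G i) i) (fun y => Pi.single_eq_same (M := fun i => G i) i y)
    exact good_pi (X := fun i => G i) hR' (fun i => hG i (hRi i))

end Pool.Agent.S03416
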