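import Pool.Statements.S03829
import Pool.Agent.ExtStar.Reduce
import Pool.Agent.ExtStar.Exist3

set_option autoImplicit false
open Pool Pool.MP_0f8a1e_an

namespace Pool.Agent.S03829

/-- For every dimension, γ in (0,1], positive reaction f and open connected uniformly C^{2,γ} domain with star-shaped complement, −Δu=f(u), u=0 on the boundary has a bounded positive C² solution, and any two agree on the closure. -/
theorem result :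
    ∀ (n : ℕ) (γ : ℝ), 0 < γ → γ ≤ 1 →
    ∀ (f : ℝ → ℝ), ContDiff ℝ 1 f →
      (∀ K : ℝ, ∃ C : ℝ, ∀ s ∈ Set.Icc (-K) K, ∀ t ∈ Set.Icc (-K) K,
        |deriv f s - deriv f t| ≤ C * |s - t| ^ γ) →
      f 0 = 0 → f 1 = 0 → (∀ t : ℝ, 1 < t → f t < 0) → deriv f 1 < 0 →
      (∀ t : ℝ, 0 < t → t < 1 → 0 < f t) → 0 < deriv f 0 →
    ∀ Ω : Set (EuclideanSpace ℝ (Fin (n + 1))), IsOpen Ω → IsConnected Ω →
      (∃ r : ℝ, 0 < r ∧ ∃ M : ℝ, ∀ x ∈ frontier Ω,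
        ∃ R : EuclideanSpace ℝ (Fin (n + 1)) ≃ₗᵢ[ℝ] EuclideanSpace ℝ (Fin (n + 1)),
        ∃ φ : (Fin n → ℝ) → ℝ, ContDiff ℝ 2 φ ∧
          (∀ y, |φ y| ≤ M) ∧
          (∀ y, ‖fderiv ℝ φ y‖ ≤ M) ∧
          (∀ y, ‖fderiv ℝ (fderiv ℝ φ) y‖ ≤ M) ∧
          (∀ y z, ‖fderiv ℝ (fderiv ℝ φ) y - fderiv ℝ (fderiv ℝ φ) z‖ ≤ M * ‖y - z‖ ^ γ) ∧
          ∀ z ∈ Metric.ball x r,
            (z ∈ Ω ↔ φ (fun i : Fin n => R (z - x) (Fin.castSucc i)) < R (z - x) (Fin.last n))) →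
      (∃ x₀ : EuclideanSpace ℝ (Fin (n + 1)), StarConvex ℝ x₀ Ωᶜ) →
      (∃ u : EuclideanSpace ℝ (Fin (n + 1)) → ℝ,
          ContDiffOn ℝ 2 u Ω ∧ ContinuousOn u (closure Ω) ∧
          (∃ C : ℝ, ∀ x ∈ Ω, |u x| ≤ C) ∧
          (∀ x ∈ Ω, -(∑ i : Fin (n + 1),
              iteratedFDeriv ℝ 2 u x (fun _ => EuclideanSpace.single i (1 : ℝ))) = f (u x)) ∧
          (∀ x ∈ frontier Ω, u x = 0) ∧ (∀ x ∈ Ω, 0 < u x)) ∧
      ∀ u v : EuclideanSpace ℝ (Fin (n + 1)) → ℝ,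
        (ContDiffOn ℝ 2 u Ω ∧ ContinuousOn u (closure Ω) ∧
          (∃ C : ℝ, ∀ x ∈ Ω, |u x| ≤ C) ∧
          (∀ x ∈ Ω, -(∑ i : Fin (n + 1),
              iteratedFDeriv ℝ 2 u x (fun _ => EuclideanSpace.single i (1 : ℝ))) = f (u x)) ∧
          (∀ x ∈ frontier Ω, u x = 0) ∧ (∀ x ∈ Ω, 0 < u x)) →
        (ContDiffOn ℝ 2 v Ω ∧ ContinuousOn v (closure Ω) ∧
          (∃ C : ℝ, ∀ x ∈ Ω, |v x| ≤ C) ∧
          (∀ x ∈ Ω, -(∑ i : Fin (n + 1),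
              iteratedFDeriv ℝ 2 v x (fun _ => EuclideanSpace.single i (1 : ℝ))) = f (v x)) ∧
          (∀ x ∈ frontier Ω, v x = 0) ∧ (∀ x ∈ Ω, 0 < v x)) →
        ∀ x ∈ closure Ω, u x = v x := by
  intro n γ hγ hγ1 f hf hfγ hf0 hf1 hfneg hfd1 hfpos hfd0 Ω hΩ hconn hcharts hstar
  obtain ⟨R, hR⟩ := ExtStar.exists_RD f hf hf0 hf1 hfd1 hfpos hfd0
  obtain ⟨r, hr, M, hM⟩ := hcharts
  obtain ⟨x₀, hx₀⟩ := hstar
  have hLD : ExtStar.LipDom Ω r (1 + |M|) := by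
    refine ExtStar.lipDom_of_charts hΩ hr (fun x hx => ?_)
    obtain ⟨T, φ, h1, h2, h3, h4, h5, h6⟩ := hM x hx
    exact ⟨T, φ, h1, h2, h3, h6⟩
  have hs : ExtStar.Star x₀ Ω := ExtStar.star_of_starConvex hx₀
  subst hR
  have huniq : ∀ u v : EuclideanSpace ℝ (Fin (n + 1)) → ℝ, ExtStar.ClassSol R.f Ω u →
      ExtStar.ClassSol R.f Ω v → ∀ x ∈ Ω, u x ≤ v x := by
    intro u v hu hv x hx
    have h := ExtStar.uniqueness R hLD hs (hu.toSol R hfneg hΩ) (hv.toSol R hfneg hΩ) x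
    rwa [Set.indicator_of_mem hx, Set.indicator_of_mem hx] at h
  refine ⟨?_, ?_⟩
  · obtain ⟨u, hu⟩ := ExtStar.exists_sol R hf hLD hs hconn.nonempty hconn.isPreconnected
    exact ⟨u, hu.toClassSol hΩ⟩
  · intro u v hu hv x hx
    by_cases hxΩ : x ∈ Ω
    · exact le_antisymm (huniq u v hu hv x hxΩ) (huniq v u hv hu x hxΩ)
    · have hxf : x ∈ frontier Ω := by rw [hΩ.frontier_eq]; exact ⟨hx, hxΩ⟩
      rw [hu.2.2.2.2.1 x hxf, hv.2.2.2.2.1 x hxf]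

end Pool.Agent.S03829
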