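import Pool.Statements.S03845

set_option autoImplicit false
open Filter Topology
open Pool Pool.MP_10e324_an

namespace Pool.Agent.S03845

open Metric Set

lemma step (β : ℂ → ℂ) (hβ : AnalyticOnNhd ℂ β (ball (0:ℂ) 1))
    (unb : ∀ R : ℝ, ∃ z ∈ ball (0:ℂ) 1, R < ‖β z‖)
    (S : ℂ → ℂ) (hS : Differentiable ℂ S) (ρ : ℝ) (hρ : 0 < ρ) (N ε : ℝ) (hε : 0 < ε) :
    ∃ S' : ℂ → ℂ, Differentiable ℂ S' ∧ ∃ ρ' : ℝ, ρ + 1 ≤ ρ' ∧ 
      (∀ w, ‖w‖ ≤ ρ → ‖S' w - S w‖ ≤ ε) ∧
      ∃ z r, 0 < r ∧ closedBall z r ⊆ ball (0:ℂ) 1 ∧ (∀ x ∈ closedBall z r, ‖β x‖ ≤ ρ') ∧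
        (∀ x ∈ sphere z r, 2 * (N + ‖S' (β z)‖) + 8 ≤ ‖S' (β x) - S' (β z)‖) := by
  obtain ⟨z, hzD, hz⟩ := unb (ρ + 2)
  set R : ℝ := ρ + 1 with hR
  have hRpos : 0 < R := by linarith
  set c := β z with hc
  have hne : ∀ᶠ x in 𝓝[≠] z, β x ≠ c := by
    rcases (hβ z hzD).eventually_eq_or_eventually_ne (analyticAt_const (v := c)) with h | h
    · exfalso
      have := hβ.eqOn_of_preconnected_of_eventuallyEq (analyticOnNhd_const (v := c))
        (convex_ball (0:ℂ) 1).isPreconnected hzD h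
      obtain ⟨y, hyD, hy⟩ := unb ‖c‖
      have h2 := this hyD
      simp only at h2
      rw [h2] at hy
      exact lt_irrefl _ hy
    · exact h
  have hne' : ∀ᶠ x in 𝓝 z, x ≠ z → β x ≠ c := by
    rw [eventually_nhdsWithin_iff] at hne
    filter_upwards [hne] with x hx hxz using hx hxz
  have hcont : ContinuousAt β z := (hβ z hzD).continuousAt
  have hbig : ∀ᶠ x in 𝓝 z, R + 1 < ‖β x‖ := by
    have : R + 1 < ‖β z‖ := by rw [hR]; linarith
    exact (hcont.norm).eventually_const_lt this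
  have hD : ∀ᶠ x in 𝓝 z, x ∈ ball (0:ℂ) 1 := isOpen_ball.mem_nhds hzD
  obtain ⟨r, hr, hball⟩ := Metric.nhds_basis_closedBall.mem_iff.mp ((hne'.and hbig).and hD)
  have hβc : ContinuousOn β (closedBall z r) := fun x hx =>
    ((hβ x (hball hx).2).continuousAt).continuousWithinAt
  have hcomp : IsCompact (closedBall z r) := isCompact_closedBall z r
  obtain ⟨B, hB⟩ := hcomp.exists_bound_of_continuousOn hβc
  have hSβ : ContinuousOn (fun x => S (β x)) (closedBall z r) :=
    hS.continuous.comp_continuousOn hβc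
  obtain ⟨M, hM⟩ := hcomp.exists_bound_of_continuousOn hSβ
  have hsph : (sphere z r).Nonempty := (NormedSpace.sphere_nonempty).mpr hr.le
  have hsub : sphere z r ⊆ closedBall z r := sphere_subset_closedBall
  obtain ⟨x₀, hx₀, hmin⟩ := (isCompact_sphere z r).exists_isMinOn hsph
    ((hβc.mono hsub).sub (continuousOn_const (c := c))).norm
  set δ := ‖β x₀ - c‖ with hδ
  have hδpos : 0 < δ := by
    have : β x₀ ≠ c := (hball (hsub hx₀)).1.1 (by
      intro h
      rw [h] at hx₀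
      simp at hx₀
      exact hr.ne' hx₀.symm)
    exact norm_pos_iff.mpr (sub_ne_zero.mpr this)
  -- choose n
  have h1 : Tendsto (fun n : ℕ => (ρ / R) ^ n * (ρ + ‖c‖)) atTop (𝓝 0) := by
    have : Tendsto (fun n : ℕ => (ρ / R) ^ n) atTop (𝓝 0) :=
      tendsto_pow_atTop_nhds_zero_of_lt_one (by positivity) (by rw [div_lt_one hRpos]; linarith)
    simpa using this.mul_const (ρ + ‖c‖)
  have h2 : Tendsto (fun n : ℕ => ((R + 1) / R) ^ n * δ) atTop atTop := by
    refine Tendsto.atTop_mul_const hδpos ?_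
    exact tendsto_pow_atTop_atTop_of_one_lt (by rw [one_lt_div hRpos]; linarith)
  obtain ⟨n, hn1, hn2⟩ := ((h1.eventually_le_const hε).and
    (h2.eventually_ge_atTop (2 * (N + ‖S c‖) + 8 + M + ‖S c‖))).exists
  refine ⟨fun w => S w + (w / R) ^ n * (w - c), ?_, max (ρ + 1) B, le_max_left _ _, ?_, z, r, hr,
    fun x hx => (hball hx).2, fun x hx => (hB x hx).trans (le_max_right _ _), ?_⟩
  · exact hS.add (((differentiable_id.div_const _).pow n).mul (differentiable_id.sub_const c))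
  · intro w hw
    have : S w + (w / R) ^ n * (w - c) - S w = (w / R) ^ n * (w - c) := by ring
    simp only [this]
    rw [norm_mul, norm_pow, norm_div]
    have hRn : ‖(R : ℂ)‖ = R := by
      rw [Complex.norm_real]; exact abs_of_pos hRpos
    rw [hRn]
    refine le_trans ?_ hn1
    gcongr
    exact (norm_sub_le _ _).trans (by linarith)
  · intro x hx
    have hRn : ‖(R : ℂ)‖ = R := by
      rw [Complex.norm_real]; exact abs_of_pos hRpos
    have e1 : S (β z) + (β z / R) ^ n * (β z - c) = S c := by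
      rw [← hc]; ring
    simp only
    rw [e1]
    have hp : ((R + 1) / R) ^ n * δ ≤ ‖(β x / R) ^ n * (β x - c)‖ := by
      rw [norm_mul, norm_pow, norm_div, hRn]
      have hb : R + 1 < ‖β x‖ := (hball (hsub hx)).1.2
      have hd : δ ≤ ‖β x - c‖ := hmin hx
      gcongr
    have hM' : ‖S (β x)‖ ≤ M := hM x (hsub hx)
    have e2 : (β x / R) ^ n * (β x - c) = (S (β x) + (β x / R) ^ n * (β x - c) - S c) - (S (β x)) + S c := by
      ring
    have h3 : ‖(β x / R) ^ n * (β x - c)‖ ≤ ‖(S (β x) + (β x / R) ^ n * (β x - c) - S c)‖ + ‖S (β x)‖ + ‖S c‖ := by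
      calc ‖(β x / R) ^ n * (β x - c)‖ = ‖(S (β x) + (β x / R) ^ n * (β x - c) - S c) - (S (β x)) + S c‖ := by
            rw [← e2]
        _ ≤ ‖(S (β x) + (β x / R) ^ n * (β x - c) - S c) - (S (β x))‖ + ‖S c‖ := norm_add_le _ _
        _ ≤ _ := by gcongr; exact norm_sub_le _ _
    linarith

structure St where
  S : ℂ → ℂ
  hS : Differentiable ℂ S
  ρ : ℝ
  hρ : 0 < ρ

lemma surj (β : ℂ → ℂ) (hβ : AnalyticOnNhd ℂ β (ball (0:ℂ) 1))
    (unb : ∀ R : ℝ, ∃ z ∈ ball (0:ℂ) 1, R < ‖β z‖) :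
    ∃ φ : ℂ → ℂ, Differentiable ℂ φ ∧ ∀ v : ℂ, ∃ x ∈ ball (0:ℂ) 1, φ (β x) + x = v := by
  classical
  have hstep : ∀ (k : ℕ) (s : St), ∃ t : St, s.ρ + 1 ≤ t.ρ ∧
      (∀ w, ‖w‖ ≤ s.ρ → ‖t.S w - s.S w‖ ≤ (1/2 : ℝ) ^ (k + 1)) ∧
      ∃ z r, 0 < r ∧ closedBall z r ⊆ ball (0:ℂ) 1 ∧ (∀ x ∈ closedBall z r, ‖β x‖ ≤ t.ρ) ∧
        (∀ x ∈ sphere z r, 2 * ((k:ℝ) + ‖t.S (β z)‖) + 8 ≤ ‖t.S (β x) - t.S (β z)‖) := by
    intro k s
    obtain ⟨S', hS', ρ', hρ', h1, h2⟩ := step β hβ unb s.S s.hS s.ρ s.hρ k ((1/2 : ℝ) ^ (k + 1))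
      (by positivity)
    exact ⟨⟨S', hS', ρ', by linarith [s.hρ]⟩, hρ', h1, h2⟩
  choose nxt hn1 hn2 hn3 using hstep
  let sq : ℕ → St := fun n => Nat.rec ⟨fun _ => 0, differentiable_const _, 1, one_pos⟩
    (fun k s => nxt k s) n
  have sq_succ : ∀ k, sq (k + 1) = nxt k (sq k) := fun k => rfl
  have hρmono : ∀ k, (sq k).ρ + 1 ≤ (sq (k+1)).ρ := fun k => by
    rw [sq_succ]; exact hn1 k (sq k)
  have hρmono' : Monotone (fun k => (sq k).ρ) := monotone_nat_of_le_succ (fun k => by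
    have := hρmono k; linarith)
  have hρk : ∀ k : ℕ, (k : ℝ) ≤ (sq k).ρ := by
    intro k
    induction k with
    | zero => simpa using (sq 0).hρ.le
    | succ k ih => push_cast; linarith [hρmono k]
  have hdiff : ∀ k j w, k ≤ j → ‖w‖ ≤ (sq k).ρ → ‖(sq (j+1)).S w - (sq j).S w‖ ≤ (1/2:ℝ)^(j+1) := by
    intro k j w hkj hw
    rw [sq_succ]
    exact hn2 j (sq j) w (hw.trans (hρmono' hkj))
  have hlim : ∀ w, ∃ l, Tendsto (fun j => (sq j).S w) atTop (𝓝 l) := by
    intro w
    obtain ⟨k, hk⟩ := exists_nat_ge ‖w‖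
    have hw : ‖w‖ ≤ (sq k).ρ := hk.trans (hρk k)
    have hc : CauchySeq (fun i => (sq (i + k)).S w) := by
      refine cauchySeq_of_le_geometric (1/2) 1 (by norm_num) ?_
      intro i
      rw [dist_eq_norm, norm_sub_rev]
      have := hdiff k (i + k) w (by omega) hw
      have e : i + 1 + k = i + k + 1 := by omega
      rw [e]
      refine this.trans ?_
      rw [one_mul]
      apply pow_le_pow_of_le_one (by norm_num) (by norm_num)
      omega
    obtain ⟨l, hl⟩ := cauchySeq_tendsto_of_complete hc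
    exact ⟨l, (tendsto_add_atTop_iff_nat k).mp hl⟩
  choose φ hφ using hlim
  have hbound : ∀ k w, ‖w‖ ≤ (sq k).ρ → ‖(sq k).S w - φ w‖ ≤ (1/2:ℝ)^k := by
    intro k w hw
    have h1 : ∀ i, dist ((sq (i + k)).S w) ((sq (i + 1 + k)).S w) ≤ ((1/2:ℝ)^k) / 2 / 2 ^ i := by
      intro i
      rw [dist_eq_norm, norm_sub_rev]
      have := hdiff k (i + k) w (by omega) hw
      have e : i + 1 + k = i + k + 1 := by omega
      rw [e]
      refine this.trans (le_of_eq ?_)
      rw [pow_succ, pow_add]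
      have : (1 / 2 : ℝ) ^ i * 2 ^ i = 1 := by rw [← mul_pow]; norm_num
      field_simp
      exact this
    have h2 := dist_le_of_le_geometric_two_of_tendsto₀ h1
      ((tendsto_add_atTop_iff_nat k).mpr (hφ w))
    simpa [dist_eq_norm] using h2
  have hφd : Differentiable ℂ φ := by
    have hloc : TendstoLocallyUniformlyOn (fun j w => (sq j).S w) φ atTop univ := by
      rw [Metric.tendstoLocallyUniformlyOn_iff]
      intro ε hε w _
      obtain ⟨k, hk⟩ := exists_nat_gt ‖w‖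
      refine ⟨ball 0 k, ?_, ?_⟩
      · rw [nhdsWithin_univ]
        exact isOpen_ball.mem_nhds (by simpa using hk)
      · have h3 : Tendsto (fun j : ℕ => (1/2:ℝ)^j) atTop (𝓝 0) :=
          tendsto_pow_atTop_nhds_zero_of_lt_one (by norm_num) (by norm_num)
        filter_upwards [h3.eventually_lt_const hε, eventually_ge_atTop k] with j hj hkj y hy
        rw [dist_eq_norm, norm_sub_rev]
        refine (hbound j y ?_).trans_lt hj
        have : ‖y‖ < k := by simpa using hy
        exact this.le.trans ((hρk k).trans (hρmono' hkj))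
    have := hloc.differentiableOn (Filter.Eventually.of_forall fun j => (sq j).hS.differentiableOn) isOpen_univ
    exact differentiableOn_univ.mp this
  refine ⟨φ, hφd, ?_⟩
  intro v
  obtain ⟨k, hk⟩ := exists_nat_gt ‖v‖
  obtain ⟨z, r, hr, hsubD, hβρ, hsph⟩ := hn3 k (sq k)
  rw [← sq_succ] at hβρ hsph
  set S := (sq (k+1)).S with hSdef
  have hclose : ∀ x ∈ closedBall z r, ‖S (β x) - φ (β x)‖ ≤ 1 := by
    intro x hx
    refine (hbound (k+1) (β x) (hβρ x hx)).trans ?_
    apply pow_le_one₀ (by norm_num) (by norm_num)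
  let F : ℂ → ℂ := fun x => φ (β x) + x
  have hFan : AnalyticOnNhd ℂ F (ball (0:ℂ) 1) := by
    intro x hx
    exact ((hφd.analyticAt (β x)).comp (hβ x hx)).add analyticAt_id
  have hzmem : z ∈ closedBall z r := mem_closedBall_self hr.le
  have hnorm1 : ∀ x ∈ closedBall z r, ‖x‖ ≤ 1 := by
    intro x hx
    have := hsubD hx
    rw [mem_ball_zero_iff] at this
    exact this.le
  have hFz : ‖F z‖ ≤ ‖S (β z)‖ + 2 := by
    have e : F z = S (β z) - (S (β z) - φ (β z)) + z := by simp only [F]; ring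
    rw [e]
    calc _ ≤ ‖S (β z) - (S (β z) - φ (β z))‖ + ‖z‖ := norm_add_le _ _
      _ ≤ (‖S (β z)‖ + ‖(S (β z) - φ (β z))‖) + ‖z‖ := by gcongr; exact norm_sub_le _ _
      _ ≤ _ := by linarith [hclose z hzmem, hnorm1 z hzmem]
  have hFs : ∀ x ∈ sphere z r, 2 * ((k:ℝ) + ‖S (β z)‖ + 2) ≤ ‖F x - F z‖ := by
    intro x hx
    have hx' : x ∈ closedBall z r := sphere_subset_closedBall hx
    have h1 := hsph x hx
    have e : S (β x) - S (β z) = (F x - F z) + (S (β x) - φ (β x)) - (S (β z) - φ (β z)) + (z - x) := by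
      simp only [F]; ring
    have h2 : ‖S (β x) - S (β z)‖ ≤ ‖F x - F z‖ + 4 := by
      rw [e]
      calc _ ≤ ‖(F x - F z) + (S (β x) - φ (β x)) - (S (β z) - φ (β z))‖ + ‖z - x‖ := norm_add_le _ _
        _ ≤ (‖(F x - F z) + (S (β x) - φ (β x))‖ + ‖(S (β z) - φ (β z))‖) + (‖z‖ + ‖x‖) := by
            gcongr
            · exact norm_sub_le _ _
            · exact norm_sub_le _ _
        _ ≤ ((‖F x - F z‖ + ‖(S (β x) - φ (β x))‖) + ‖(S (β z) - φ (β z))‖) + (‖z‖ + ‖x‖) := by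
            gcongr
            exact norm_add_le _ _
        _ ≤ _ := by linarith [hclose z hzmem, hnorm1 z hzmem, hclose x hx', hnorm1 x hx']
    linarith
  have hdc : DiffContOnCl ℂ F (ball z r) := by
    apply DifferentiableOn.diffContOnCl
    rw [closure_ball z hr.ne']
    intro x hx
    exact (hFan x (hsubD hx)).differentiableAt.differentiableWithinAt
  have hfreq : ∃ᶠ y in 𝓝 z, F y ≠ F z := by
    intro hcon
    have hev : F =ᶠ[𝓝 z] (fun _ => F z) := by
      filter_upwards [hcon] with y hy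
      simpa using hy
    have heq := hFan.eqOn_of_preconnected_of_eventuallyEq (analyticOnNhd_const (v := F z))
      (convex_ball (0:ℂ) 1).isPreconnected (hsubD hzmem) hev
    obtain ⟨x, hx⟩ := (NormedSpace.sphere_nonempty (x := z)).mpr hr.le
    have h1 := hFs x hx
    have h2 : F x = F z := heq (hsubD (sphere_subset_closedBall hx))
    rw [h2, sub_self, norm_zero] at h1
    have : (0:ℝ) ≤ (k:ℝ) := Nat.cast_nonneg k
    have h3 := norm_nonneg (S (β z))
    linarith
  have hball := hdc.ball_subset_image_closedBall hr hFs hfreq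
  have hv : v ∈ ball (F z) (2 * ((k:ℝ) + ‖S (β z)‖ + 2) / 2) := by
    rw [mem_ball, dist_eq_norm]
    calc ‖v - F z‖ ≤ ‖v‖ + ‖F z‖ := norm_sub_le _ _
      _ < k + (‖S (β z)‖ + 2) := by linarith
      _ = _ := by ring
  obtain ⟨x, hx, hxv⟩ := hball hv
  exact ⟨x, hsubD hx, hxv⟩


lemma inv_part (α f : ℂ → ℂ) (hα : AnalyticOnNhd ℂ α (ball (0:ℂ) 1))
    (hnc : ∃ a ∈ ball (0:ℂ) 1, ∃ b ∈ ball (0:ℂ) 1, α a ≠ α b)
    (hinj : InjOn α (ball (0:ℂ) 1)) (hf : AnalyticOnNhd ℂ f (ball (0:ℂ) 1)) :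
    ∃ φ : ℂ → ℂ, AnalyticOnNhd ℂ φ (α '' ball (0:ℂ) 1) ∧
            ∀ w ∈ ball (0:ℂ) 1, f w = φ (α w) := by
  set D := ball (0:ℂ) 1 with hD
  set g := Function.invFunOn α D with hg
  have hgl : ∀ z ∈ D, g (α z) = z := fun z hz => hinj.leftInvOn_invFunOn hz
  have hDpre : IsPreconnected D := (convex_ball (0:ℂ) 1).isPreconnected
  have hncz : ∀ z ∈ D, ¬ ∀ᶠ x in 𝓝 z, α x = α z := by
    intro z hz hcon
    have heq := hα.eqOn_of_preconnected_of_eventuallyEq (analyticOnNhd_const (v := α z))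
      hDpre hz hcon
    obtain ⟨a, ha, b, hb, hab⟩ := hnc
    exact hab ((heq ha).trans (heq hb).symm)
  have hopen : ∀ z ∈ D, 𝓝 (α z) ≤ map α (𝓝 z) := fun z hz =>
    ((hα z hz).eventually_constant_or_nhds_le_map_nhds).resolve_left (hncz z hz)
  have hGopen : IsOpen (α '' D) := by
    rcases hα.is_constant_or_isOpen hDpre with h | h
    · obtain ⟨w, hw⟩ := h
      obtain ⟨a, ha, b, hb, hab⟩ := hnc
      exact absurd ((hw a ha).trans (hw b hb).symm) hab
    · exact h D subset_rfl isOpen_ball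
  have hgcont : ∀ z ∈ D, ContinuousAt g (α z) := by
    intro z hz
    rw [ContinuousAt, hgl z hz]
    intro U hU
    have hU' : U ∩ D ∈ 𝓝 z := inter_mem hU (isOpen_ball.mem_nhds hz)
    have h1 : α '' (U ∩ D) ∈ 𝓝 (α z) := hopen z hz (image_mem_map hU')
    rw [mem_map]
    filter_upwards [h1] with y hy
    obtain ⟨x, hx, rfl⟩ := hy
    rw [mem_preimage, hgl x hx.2]
    exact hx.1
  have hright : ∀ y ∈ α '' D, α (g y) = y := by
    rintro y ⟨x, hx, rfl⟩
    rw [hgl x hx]
  have hdiff : ∀ z ∈ D, deriv α z ≠ 0 → DifferentiableAt ℂ (f ∘ g) (α z) := by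
    intro z hz hd
    have h1 : HasDerivAt α (deriv α z) (g (α z)) := by
      rw [hgl z hz]
      exact (hα z hz).differentiableAt.hasDerivAt
    have h2 : HasDerivAt g (deriv α z)⁻¹ (α z) :=
      HasDerivAt.of_local_left_inverse (hgcont z hz) h1 hd
        (by filter_upwards [hGopen.mem_nhds (mem_image_of_mem α hz)] with y hy using hright y hy)
    refine DifferentiableAt.comp _ ?_ h2.differentiableAt
    rw [hgl z hz]
    exact (hf z hz).differentiableAt
  refine ⟨f ∘ g, ?_, fun w hw => by rw [Function.comp, hgl w hw]⟩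
  rintro w ⟨z, hz, rfl⟩
  apply Complex.analyticAt_of_differentiable_on_punctured_nhds_of_continuousAt
  · -- differentiable on punctured nhd
    have hderiv : ∀ᶠ x in 𝓝[≠] z, deriv α x ≠ 0 := by
      rcases (hα z hz).deriv.eventually_eq_zero_or_eventually_ne_zero with h | h
      · exfalso
        apply hncz z hz
        have heq := (hα.deriv).eqOn_zero_of_preconnected_of_eventuallyEq_zero hDpre hz h
        filter_upwards [isOpen_ball.mem_nhds hz] with x hx
        exact (convex_ball (0:ℂ) 1).is_const_of_fderivWithin_eq_zero (𝕜 := ℂ)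
          (fun y hy => (hα y hy).differentiableAt.differentiableWithinAt) (by
            intro y hy
            rw [fderivWithin_of_isOpen isOpen_ball hy]
            ext
            simpa using heq hy) hx hz
      · exact h
    have hev : ∀ᶠ x in 𝓝 z, x ∈ D ∧ (x ≠ z → deriv α x ≠ 0) := by
      rw [eventually_nhdsWithin_iff] at hderiv
      filter_upwards [hderiv, isOpen_ball.mem_nhds hz] with x hx hxD using ⟨hxD, hx⟩
    rw [eventually_nhdsWithin_iff]
    have := hopen z hz (image_mem_map hev)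
    filter_upwards [this] with y hy hyne
    obtain ⟨x, ⟨hxD, hx⟩, rfl⟩ := hy
    apply hdiff x hxD
    apply hx
    rintro rfl
    exact hyne rfl
  · have : ContinuousAt f (g (α z)) := by
      rw [hgl z hz]; exact (hf z hz).continuousAt
    exact this.comp (hgcont z hz)

lemma exists_unb (α : ℂ → ℂ) (hα : AnalyticOnNhd ℂ α (ball (0:ℂ) 1))
    (hnc : ∃ a ∈ ball (0:ℂ) 1, ∃ b ∈ ball (0:ℂ) 1, α a ≠ α b) :
    ∃ m : ℂ → ℂ, AnalyticOnNhd ℂ m (α '' ball (0:ℂ) 1) ∧
      ∀ R : ℝ, ∃ z ∈ ball (0:ℂ) 1, R < ‖m (α z)‖ := by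
  set D := ball (0:ℂ) 1 with hD
  have hDpre : IsPreconnected D := (convex_ball (0:ℂ) 1).isPreconnected
  have hGopen : IsOpen (α '' D) := by
    rcases hα.is_constant_or_isOpen hDpre with h | h
    · obtain ⟨w, hw⟩ := h
      obtain ⟨a, ha, b, hb, hab⟩ := hnc
      exact absurd ((hw a ha).trans (hw b hb).symm) hab
    · exact h D subset_rfl isOpen_ball
  have hGne : (α '' D).Nonempty := by
    obtain ⟨a, ha, _⟩ := hnc
    exact ⟨α a, mem_image_of_mem α ha⟩
  by_cases hb : ∀ R : ℝ, ∃ z ∈ D, R < ‖α z‖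
  · exact ⟨id, analyticOnNhd_id, hb⟩
  · push Not at hb
    obtain ⟨R, hR⟩ := hb
    have hGuniv : α '' D ≠ univ := by
      intro h
      have : ((|R| + 1 : ℝ) : ℂ) ∈ α '' D := by rw [h]; trivial
      obtain ⟨z, hz, hzz⟩ := this
      have := hR z hz
      rw [hzz, Complex.norm_real, Real.norm_eq_abs] at this
      have h2 : |(|R| + 1)| = |R| + 1 := abs_of_pos (by positivity)
      rw [h2] at this
      linarith [le_abs_self R]
    have hfr : (frontier (α '' D)).Nonempty := by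
      rw [nonempty_iff_ne_empty]
      intro h
      have hclopen : IsClopen (α '' D) := isClopen_iff_frontier_eq_empty.mpr h
      rcases isClopen_iff.mp hclopen with h' | h'
      · exact hGne.ne_empty h'
      · exact hGuniv h'
    obtain ⟨w₀, hw₀⟩ := hfr
    have hw₀not : w₀ ∉ α '' D := by
      rw [hGopen.frontier_eq] at hw₀
      exact hw₀.2
    have hw₀cl : w₀ ∈ closure (α '' D) := frontier_subset_closure hw₀
    refine ⟨fun w => (w - w₀)⁻¹, ?_, ?_⟩
    · intro w hw
      refine AnalyticAt.inv (analyticAt_id.sub analyticAt_const) ?_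
      intro h
      have h' : w = w₀ := sub_eq_zero.mp h
      exact hw₀not (by rwa [h'] at hw)
    · intro R'
      rw [Metric.mem_closure_iff] at hw₀cl
      obtain ⟨y, ⟨z, hz, rfl⟩, hy⟩ := hw₀cl (|R'| + 1)⁻¹ (by positivity)
      refine ⟨z, hz, ?_⟩
      rw [norm_inv]
      have hpos : 0 < ‖α z - w₀‖ := by
        rw [norm_pos_iff, sub_ne_zero]
        rintro h
        exact hw₀not (by rw [← h]; exact mem_image_of_mem α hz)
      rw [dist_comm, dist_eq_norm] at hy
      have : |R'| + 1 < ‖α z - w₀‖⁻¹ := by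
        rw [lt_inv_comm₀ (by positivity) hpos]
        exact hy
      linarith [le_abs_self R']

/-- A non-constant analytic map α on the unit disk has the property that every analytic f such that α has the L-property on each sequence tending to the boundary where f has it factors as φ∘α with φ analytic on α(disk) exactly when α is injective on the disk. -/
theorem result :
    ∀ α : ℂ → ℂ, AnalyticOnNhd ℂ α (Metric.ball (0:ℂ) 1) →
      (∃ a ∈ Metric.ball (0:ℂ) 1, ∃ b ∈ Metric.ball (0:ℂ) 1, α a ≠ α b) →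
      ((∀ f : ℂ → ℂ, AnalyticOnNhd ℂ f (Metric.ball (0:ℂ) 1) →
          (∀ z : ℕ → ℂ, (∀ n, z n ∈ Metric.ball (0:ℂ) 1) →
            Tendsto (fun n => ‖z n‖) atTop (𝓝 1) →
            (∀ K : Set ℂ, K ⊆ f '' Metric.ball (0:ℂ) 1 → IsCompact K →
              {n : ℕ | f (z n) ∈ K}.Finite) →
            (∀ K : Set ℂ, K ⊆ α '' Metric.ball (0:ℂ) 1 → IsCompact K →
              {n : ℕ | α (z n) ∈ K}.Finite)) →
          ∃ φ : ℂ → ℂ, AnalyticOnNhd ℂ φ (α '' Metric.ball (0:ℂ) 1) ∧
            ∀ w ∈ Metric.ball (0:ℂ) 1, f w = φ (α w))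
        ↔ Set.InjOn α (Metric.ball (0:ℂ) 1)) := by
  intro α hα hnc
  constructor
  · intro hL
    obtain ⟨m, hm, hmunb⟩ := exists_unb α hα hnc
    have hβ : AnalyticOnNhd ℂ (m ∘ α) (ball (0:ℂ) 1) := fun x hx =>
      (hm (α x) (mem_image_of_mem α hx)).comp (hα x hx)
    obtain ⟨φ, hφ, hsurj⟩ := surj (m ∘ α) hβ hmunb
    have hfan : AnalyticOnNhd ℂ (fun x => φ (m (α x)) + x) (ball (0:ℂ) 1) := by
      intro x hx
      exact ((hφ.analyticAt _).comp (hβ x hx)).add analyticAt_id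
    obtain ⟨ψ, _, hψ⟩ := hL (fun x => φ (m (α x)) + x) hfan (by
      intro z hz _ hfL K hK hKc
      have hcont : ContinuousOn (fun w => φ (m w)) K := by
        intro w hw
        exact (hφ.continuous.continuousAt.comp (hm w (hK hw)).continuousAt).continuousWithinAt
      obtain ⟨B, hB⟩ := hKc.exists_bound_of_continuousOn hcont
      have hfin := hfL (closedBall 0 (B + 1)) (by
        intro v _
        obtain ⟨x, hx, hxv⟩ := hsurj v
        exact ⟨x, hx, hxv⟩) (isCompact_closedBall _ _)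
      refine hfin.subset ?_
      intro n hn
      simp only [mem_ofPred_eq, mem_closedBall_zero_iff] at hn ⊢
      calc _ ≤ ‖φ (m (α (z n)))‖ + ‖z n‖ := norm_add_le _ _
        _ ≤ B + 1 := by
          have h1 := hB (α (z n)) hn
          have h2 := hz n
          rw [mem_ball_zero_iff] at h2
          linarith)
    intro a ha b hb hab
    have h1 := hψ a ha
    have h2 := hψ b hb
    rw [hab] at h1
    have h3 := h1.trans h2.symm
    exact add_left_cancel h3
  · intro hinj f hf _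
    exact inv_part α f hα hnc hinj hf

end Pool.Agent.S03845
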