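import Pool.Statements.S03926
import Pool.Agent.H51.Cantorval

set_option autoImplicit false
open Pool Pool.MP_171342_an

namespace Pool.Agent.S03926

/-- The negation of the preceding statement: For a positive summable sequence whose set of subsums E is a Cantorval, and distinct left endpoints a, b of interval components of E, there is ε>0 such that E∩[a−ε,a] is a translate of E∩[b−ε,b]. -/
theorem result :
    ¬ (∀ x : ℕ → ℝ, (∀ n, 0 < x n) → Summable x →
    ∀ E : Set ℝ, E = {s | ∃ A : Set ℕ, s = ∑' n, A.indicator x n} →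
    (E.Nonempty ∧ IsCompact E ∧ closure (interior E) = E ∧
      ∀ p ∈ E, (connectedComponentIn E p).Nontrivial →
        sInf (connectedComponentIn E p) ∈ closure {y ∈ E | connectedComponentIn E y = {y}} ∧
        sSup (connectedComponentIn E p) ∈ closure {y ∈ E | connectedComponentIn E y = {y}}) →
    ∀ a b : ℝ, a ≠ b →
      (∃ c, a < c ∧ Set.Icc a c ⊆ E) → (∀ y, y < a → ¬ Set.Icc y a ⊆ E) →
      (∃ c, b < c ∧ Set.Icc b c ⊆ E) → (∀ y, y < b → ¬ Set.Icc y b ⊆ E) →
      ∃ ε : ℝ, ε > 0 ∧ ∃ t : ℝ,
        E ∩ Set.Icc (a - ε) a = (fun z => z + t) '' (E ∩ Set.Icc (b - ε) b)) := by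
  exact Pool.Agent.H51.Cantorval.main

end Pool.Agent.S03926
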