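import Pool.Statements.S04064
import Pool.Agent.CR.Final
import Pool.Agent.CR.Coc12
import Pool.Agent.CR.Sp

set_option autoImplicit false
open Pool Pool.MP_2377fe_an

namespace Pool.Agent.S04064

/-- The negation of the preceding statement: For a compact Hausdorff space X with a continuous transitive action of a connected Lie group, if every nowhere-zero continuous complex function on X has a continuous logarithm, then every monic separable polynomial over C(X) is a product of linear factors z − f. -/
theorem result :
    ¬ (∀ (n : ℕ) (G : Type) [Group G] [TopologicalSpace G] [T2Space G] [ConnectedSpace G]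
      [ChartedSpace (EuclideanSpace ℝ (Fin n)) G]
      [LieGroup (modelWithCornersSelf ℝ (EuclideanSpace ℝ (Fin n))) ((⊤ : ℕ∞) : WithTop ℕ∞) G]
      (X : Type) [TopologicalSpace X] [CompactSpace X] [T2Space X]
      [MulAction G X] [ContinuousSMul G X] [MulAction.IsPretransitive G X],
      (∀ f : C(X, ℂ), (∀ x, f x ≠ 0) → ∃ g : C(X, ℂ), ∀ x, f x = Complex.exp (g x)) →
      ∀ p : Polynomial C(X, ℂ), p.Monic → p.Separable →
        ∃ s : Multiset C(X, ℂ),
          p = (s.map (fun a => Polynomial.X - Polynomial.C a)).prod) := by
  intro H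
  obtain ⟨hlog, p, hp1, hp2, hp3⟩ := Pool.Agent.CR.final_aux Pool.Agent.CR.Data.coc
  exact hp3 (H 10 Pool.Agent.CR.Sp Pool.Agent.CR.XX hlog p hp1 hp2)

end Pool.Agent.S04064
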