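import Pool.Statements.S04305
import Pool.Agent.H51.L1Final

set_option autoImplicit false
open Pool Pool.MP_349fe0_an

namespace Pool.Agent.S04305

/-- For every ε>0 there is a map f from real ℓ₁ into the sup-normed continuous functions on the ordinal interval [0, ω^ω] and r>0 with r·d(x,y) ≤ d(f x,f y) ≤ (1+ε)·r·d(x,y) for all x, y. -/
theorem result :
    ∀ ε : ℝ, 0 < ε →
      ∃ f : lp (fun _ : ℕ => ℝ) 1 →
          BoundedContinuousFunction (Set.Iic (Ordinal.omega0 ^ Ordinal.omega0 : Ordinal.{0})) ℝ,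
        ∃ r : ℝ, 0 < r ∧
          ∀ x y : lp (fun _ : ℕ => ℝ) 1,
            r * dist x y ≤ dist (f x) (f y) ∧
              dist (f x) (f y) ≤ (1 + ε) * r * dist x y := by
  exact Pool.Agent.H51.L1Final.main

end Pool.Agent.S04305
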