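import Pool.Statements.S05363
import Pool.Agent.WBD.Vanish
import Pool.Agent.WBD.NonAm

set_option autoImplicit false
open Pool Pool.MP_8e34e8_an

namespace Pool.Agent.S05363

/-- There is a complete normed algebra of continuous functions on a compact Hausdorff space, separating points, that is not amenable, yet every bounded 2-cocycle into every dual Banach bimodule is a coboundary. -/
theorem result :
  ∃ (K : Type) (hK : TopologicalSpace K) (hKc : CompactSpace K) (hKt : T2Space K)
    (A : Type) (hA : NormedCommRing A) (hAa : NormedAlgebra ℂ A) (hAc : CompleteSpace A)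
    (φ : A →ₐ[ℂ] C(K, ℂ)),
    Function.Injective φ ∧
    (∀ x y : K, x ≠ y → ∃ a : A, φ a x ≠ φ a y) ∧
    (∃ (E : Type) (hE : NormedAddCommGroup E) (hEs : NormedSpace ℂ E) (hEc : CompleteSpace E)
       (L R : A →L[ℂ] E →L[ℂ] E),
       (∀ a b : A, L (a * b) = (L a).comp (L b)) ∧
       (∀ a b : A, R (a * b) = (R b).comp (R a)) ∧
       (∀ a b : A, (L a).comp (R b) = (R b).comp (L a)) ∧
       ∃ D : A →L[ℂ] (E →L[ℂ] ℂ),
         (∀ (a b : A) (x : E), D (a * b) x = D b (R a x) + D a (L b x)) ∧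
         ¬ ∃ f : E →L[ℂ] ℂ, ∀ (a : A) (x : E), D a x = f (R a x) - f (L a x)) ∧
    (∀ (E : Type) [NormedAddCommGroup E] [NormedSpace ℂ E] [CompleteSpace E]
       (L R : A →L[ℂ] E →L[ℂ] E),
       (∀ a b : A, L (a * b) = (L a).comp (L b)) →
       (∀ a b : A, R (a * b) = (R b).comp (R a)) →
       (∀ a b : A, (L a).comp (R b) = (R b).comp (L a)) →
       ∀ T : A →L[ℂ] A →L[ℂ] (E →L[ℂ] ℂ),
         (∀ (a b c : A) (x : E),
            T b c (R a x) - T (a * b) c x + T a (b * c) x - T a b (L c x) = 0) →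
         ∃ S : A →L[ℂ] (E →L[ℂ] ℂ), ∀ (a b : A) (x : E),
            T a b x = S b (R a x) - S (a * b) x + S a (L b x)) := by
  refine ⟨OnePoint ℕ, inferInstance, inferInstance, inferInstance, Pool.Agent.WBD.AA,
    inferInstance, inferInstance, inferInstance, Pool.Agent.WBD.phi, Pool.Agent.WBD.phi_inj,
    Pool.Agent.WBD.phi_sep, ?_, ?_⟩
  · refine ⟨Pool.Agent.WBD.CC, inferInstance, inferInstance, inferInstance,
      (ContinuousLinearMap.mul ℂ Pool.Agent.WBD.CC).comp Pool.Agent.WBD.pi1,
      (ContinuousLinearMap.mul ℂ Pool.Agent.WBD.CC).comp Pool.Agent.WBD.pi0, ?_, ?_, ?_,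
      Pool.Agent.WBD.der, ?_, ?_⟩
    · intro a b
      ext x : 1
      simp only [ContinuousLinearMap.comp_apply, ContinuousLinearMap.mul_apply',
        Pool.Agent.WBD.pi1_mul]
      ring
    · intro a b
      ext x : 1
      simp only [ContinuousLinearMap.comp_apply, ContinuousLinearMap.mul_apply',
        Pool.Agent.WBD.pi0_mul]
      ring
    · intro a b
      ext x : 1
      simp only [ContinuousLinearMap.comp_apply, ContinuousLinearMap.mul_apply']
      ring
    · intro a b x
      exact Pool.Agent.WBD.der_rule a b x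
    · rintro ⟨f, hf⟩
      exact Pool.Agent.WBD.not_inner ⟨f, hf⟩
  · intro E _ _ _ L R hL hR hLR T hT
    refine Pool.Agent.WBD.vanish Pool.Agent.WBD.trunc Pool.Agent.WBD.trunc_tendsto ?_
      L R hL hR hLR T hT
    intro N
    exact ⟨Fin (N + 1), inferInstance, inferInstance, Pool.Agent.WBD.eN N, Pool.Agent.WBD.jN N,
      Pool.Agent.WBD.uN N, Pool.Agent.WBD.isRes N, Pool.Agent.WBD.isBlk N,
      Pool.Agent.WBD.trunc_mem N⟩

end Pool.Agent.S05363
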