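import Pool.Statements.S05519
import Pool.Agent.Blowup.Reduce

set_option autoImplicit false
open Filter Topology
open Pool Pool.MP_9a8732_an

namespace Pool.Agent.S05519

/-- For a planar Lipschitz domain D with 0 on its boundary and u in C^{1,1}_loc(B_2) solving Δu = x1·1_D weakly and vanishing off the closure of D, any two locally uniform limits of u(rx)/r^3 along sequences r→0 coincide. -/
theorem result :
  ∀ (D : Set (EuclideanSpace ℝ (Fin 2))) (u : EuclideanSpace ℝ (Fin 2) → ℝ),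
    IsOpen D → IsConnected D →
    (∀ p ∈ frontier D, ∃ ρ : ℝ, 0 < ρ ∧
      ∃ R : EuclideanSpace ℝ (Fin 2) ≃ₗᵢ[ℝ] EuclideanSpace ℝ (Fin 2),
      ∃ g : ℝ → ℝ, ∃ L : NNReal, LipschitzWith L g ∧
        ∀ x ∈ Metric.ball p ρ,
          (x ∈ D ↔ g (EuclideanSpace.proj (0 : Fin 2) (R (x - p)))
                      < EuclideanSpace.proj (1 : Fin 2) (R (x - p)))) →
    (0 : EuclideanSpace ℝ (Fin 2)) ∈ frontier D →
    ContDiffOn ℝ 1 u (Metric.ball 0 2) →
    (∀ ρ : ℝ, ρ < 2 → ∃ L : NNReal,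
      LipschitzOnWith L (fderiv ℝ u) (Metric.closedBall 0 ρ)) →
    (∀ φ : EuclideanSpace ℝ (Fin 2) → ℝ, ContDiff ℝ 1 φ → HasCompactSupport φ →
      tsupport φ ⊆ Metric.ball 0 2 →
      ∫ x, (∑ i : Fin 2, fderiv ℝ u x (EuclideanSpace.single i (1 : ℝ))
              * fderiv ℝ φ x (EuclideanSpace.single i (1 : ℝ)))
        = - ∫ x, EuclideanSpace.proj (0 : Fin 2) x
              * D.indicator (fun _ => (1 : ℝ)) x * φ x) →
    (∀ x ∈ Metric.ball (0 : EuclideanSpace ℝ (Fin 2)) 2, x ∉ closure D → u x = 0) →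
    ∀ (r s : ℕ → ℝ) (v w : EuclideanSpace ℝ (Fin 2) → ℝ),
      (∀ n, 0 < r n) → (∀ n, 0 < s n) →
      Tendsto r atTop (𝓝 0) → Tendsto s atTop (𝓝 0) →
      TendstoLocallyUniformly (fun n x => u (r n • x) / r n ^ 3) v atTop →
      TendstoLocallyUniformly (fun n x => u (s n • x) / s n ^ 3) w atTop →
      v = w := by
  intro D u hDo _hDc hfr h0 hu _hu2 hweak hzero r s v w hr hs hr0 hs0 hv hw
  obtain ⟨T, g, L, δ, ω, H, hd, hu0⟩ :=
    Pool.Agent.Blowup.reduce D u hDo (hfr 0 h0) h0 hu hweak hzero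
  funext x
  have hv' : Tendsto (fun n => u (r n • x) / r n ^ 3) atTop (𝓝 (v x)) :=
    (tendstoLocallyUniformlyOn_univ.mpr hv).tendsto_at (Set.mem_univ x)
  have hw' : Tendsto (fun n => u (s n • x) / s n ^ 3) atTop (𝓝 (w x)) :=
    (tendstoLocallyUniformlyOn_univ.mpr hw).tendsto_at (Set.mem_univ x)
  have hvw := (hv'.sub hw').abs
  by_contra hne
  have hpos : 0 < |v x - w x| := abs_pos.mpr (sub_ne_zero.mpr hne)
  obtain ⟨r0, hr0pos, hclose⟩ :=
    Pool.Agent.Blowup.blow_unif (R := ‖x‖ + 1) (ε := |v x - w x| / 2) H hd (by simpa using hu0)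
      (by positivity) (by positivity)
  have hle : |v x - w x| ≤ |v x - w x| / 2 := by
    apply le_of_tendsto hvw
    filter_upwards [hr0.eventually_lt_const hr0pos, hs0.eventually_lt_const hr0pos] with n h1 h2
    have h3 := hclose (r n) (s n) (hr n) h1 (hs n) h2 (T x) (by rw [T.norm_map]; linarith)
    have h4 : ∀ t : ℝ, T.symm ((t : ℂ) * T x) = t • x := by
      intro t
      have : ((t : ℂ) * T x) = T (t • x) := by
        rw [map_smul]; simp
      rw [this, LinearIsometryEquiv.symm_apply_apply]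
    simpa only [h4] using h3
  linarith

end Pool.Agent.S05519
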