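import Pool.Statements.S07822
import Pool.Agent.H41.LTW.Colour

set_option autoImplicit false
open Pool Pool.MP_2b2760_co

namespace Pool.Agent.S07822

/-- The negation of the preceding statement: There is f such that every finite graph of layered treewidth at most k with no K_{2,t} subgraph has a 3-colouring in which every monochromatic connected vertex set has at most f(k,t) vertices. -/
theorem result :
    ¬ (∃ f : ℕ → ℕ → ℕ, ∀ (k t : ℕ) (V : Type) [Fintype V] (G : SimpleGraph V),
    (∃ (T : Type) (_ : Fintype T) (TT : SimpleGraph T) (B : T → Finset V) (ℓ : V → ℕ),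
      TT.IsTree ∧
      (∀ v : V, (TT.induce {x | v ∈ B x}).Connected) ∧
      (∀ u v : V, G.Adj u v → ∃ x, u ∈ B x ∧ v ∈ B x) ∧
      (∀ u v : V, G.Adj u v → ℓ u ≤ ℓ v + 1 ∧ ℓ v ≤ ℓ u + 1) ∧
      (∀ x i, ((B x).filter (fun v => ℓ v = i)).card ≤ k)) →
    ¬ (completeBipartiteGraph (Fin 2) (Fin t)).IsContained G →
    ∃ c : V → Fin 3, ∀ S : Finset V, (∀ u ∈ S, ∀ w ∈ S, c u = c w) →
      (G.induce (S : Set V)).Connected → S.card ≤ f k t) := by
  classical
  rintro ⟨f, hf⟩
  set C := f 3 8 with hC
  let N := (C + 1) * (C + 1)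
  let m := C + 1
  let R := m * C + 1
  let _ : Fintype (H41.LTW.V N m R) := Fintype.ofFinite _
  let _ : Fintype (H41.LTW.Nd N m R) := Fintype.ofFinite _
  have key := hf 3 8 (H41.LTW.V N m R) (H41.LTW.G N m R)
    ⟨H41.LTW.Nd N m R, inferInstance, H41.LTW.pGraph H41.LTW.root H41.LTW.par,
      fun x => Finset.univ.filter (fun v => H41.LTW.inB x v), H41.LTW.lay, H41.LTW.tree,
      by
        intro v
        have h := H41.LTW.bag_connected v
        have e : {x : H41.LTW.Nd N m R | v ∈ Finset.univ.filter (fun v => H41.LTW.inB x v)} =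
            {x | H41.LTW.inB x v} := by
          ext x; simp
        rw [e]
        exact h,
      by
        intro u v huv
        obtain ⟨x, h1, h2⟩ := H41.LTW.adj_bag huv
        exact ⟨x, by simpa using h1, by simpa using h2⟩,
      fun u v huv => H41.LTW.adj_lay huv,
      by
        intro x i
        apply H41.LTW.width x i
        intro v hv
        rw [Finset.mem_filter, Finset.mem_filter] at hv
        exact ⟨hv.1.2, hv.2⟩⟩
    (by
      rintro ⟨φ⟩
      have hne : φ (Sum.inl 0) ≠ φ (Sum.inl 1) := fun h => by
        have := φ.injective h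
        simp at this
      have hc := H41.LTW.codeg (φ (Sum.inl 0)) (φ (Sum.inl 1)) hne
        (Finset.univ.image (fun j : Fin 8 => φ (Sum.inr j))) (by
          intro w hw
          rw [Finset.mem_image] at hw
          obtain ⟨j, _, rfl⟩ := hw
          exact ⟨φ.toHom.map_adj (by simp), φ.toHom.map_adj (by simp)⟩)
      rw [Finset.card_image_of_injective] at hc
      · simp at hc
      · intro j j' hjj
        have := φ.injective hjj
        simpa using this)
  obtain ⟨c, hc⟩ := key
  exact H41.LTW.main C rfl rfl rfl c (fun S h1 h2 => hc S h1 h2)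

end Pool.Agent.S07822
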