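import Pool.Statements.S08046
import Pool.Agent.H71.LargeDist

set_option autoImplicit false
open Classical
open Pool Pool.MP_34e2ea_co

namespace Pool.Agent.S08046

open Pool.Agent.H71

/-- points on the unit circle in the plane of the first two coordinates -/
noncomputable def P (t : ℝ) : EuclideanSpace ℝ (Fin 4) := !₂[Real.cos t, Real.sin t, 0, 0]

/-- points on the unit circle in the plane of the last two coordinates -/
noncomputable def Q (t : ℝ) : EuclideanSpace ℝ (Fin 4) := !₂[0, 0, Real.cos t, Real.sin t]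

lemma norm_P (t : ℝ) : ‖P t‖ = 1 := by
  rw [EuclideanSpace.norm_eq]
  simp [P, Fin.sum_univ_four]

lemma norm_Q (t : ℝ) : ‖Q t‖ = 1 := by
  rw [EuclideanSpace.norm_eq]
  simp [Q, Fin.sum_univ_four]

lemma dist_P_Q (s t : ℝ) : dist (P s) (Q t) = Real.sqrt 2 := by
  rw [EuclideanSpace.dist_eq]
  congr 1
  simp [P, Q, Fin.sum_univ_four, Real.dist_eq]
  nlinarith [Real.cos_sq_add_sin_sq s, Real.cos_sq_add_sin_sq t]

lemma P_inj {s t : ℝ} (hs : s ∈ Set.Icc (-(Real.pi / 2)) (Real.pi / 2))
    (ht : t ∈ Set.Icc (-(Real.pi / 2)) (Real.pi / 2)) (h : P s = P t) : s = t := by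
  have h1 : (P s) 1 = (P t) 1 := by rw [h]
  simp [P] at h1
  exact Real.injOn_sin hs ht h1

lemma Q_inj {s t : ℝ} (hs : s ∈ Set.Icc (-(Real.pi / 2)) (Real.pi / 2))
    (ht : t ∈ Set.Icc (-(Real.pi / 2)) (Real.pi / 2)) (h : Q s = Q t) : s = t := by
  have h1 : (Q s) 3 = (Q t) 3 := by rw [h]
  simp [Q] at h1
  exact Real.injOn_sin hs ht h1

lemma continuous_Q : Continuous Q := by
  unfold Q
  fun_prop

lemma P_ne_Q (s t : ℝ) : P s ≠ Q t := by
  intro h
  have := dist_P_Q s t
  rw [h, dist_self] at this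
  have h2 : (0:ℝ) < Real.sqrt 2 := Real.sqrt_pos.2 (by norm_num)
  linarith

/-- arbitrarily many points on an arc of the second circle of diameter less than `δ` -/
lemma exists_cluster (δ : ℝ) (hδ : 0 < δ) (n : ℕ) :
    ∃ Y : Finset (EuclideanSpace ℝ (Fin 4)), Y.card = n ∧ (∀ y ∈ Y, ∃ t, y = Q t) ∧
      ∀ x ∈ Y, ∀ y ∈ Y, dist x y < δ := by
  have hc : ContinuousAt Q 0 := continuous_Q.continuousAt
  obtain ⟨η, hη, hηQ⟩ := Metric.continuousAt_iff.1 hc (δ/2) (by linarith)
  set ρ := min (η/2) 1 with hρ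
  have hρpos : 0 < ρ := lt_min (by linarith) one_pos
  have hρη : ρ < η := lt_of_le_of_lt (min_le_left _ _) (by linarith)
  have hρ1 : ρ ≤ 1 := min_le_right _ _
  have hpi : (1:ℝ) < Real.pi / 2 := by linarith [Real.pi_gt_three]
  let a : ℕ → ℝ := fun j => ρ / (j + 1)
  have ha0 : ∀ j, 0 < a j := fun j => by positivity
  have ha1 : ∀ j, a j ≤ ρ := fun j => by
    apply div_le_self hρpos.le
    have : (0:ℝ) ≤ j := Nat.cast_nonneg j
    linarith
  have hainj : Function.Injective a := by
    intro i j hij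
    have h1 : (i:ℝ) + 1 ≠ 0 := by positivity
    have h2 : (j:ℝ) + 1 ≠ 0 := by positivity
    simp only [a] at hij
    field_simp at hij
    have : (j:ℝ) = i := by linarith
    exact_mod_cast this.symm
  have hamem : ∀ j, a j ∈ Set.Icc (-(Real.pi / 2)) (Real.pi / 2) := fun j =>
    ⟨by linarith [ha0 j], by linarith [ha1 j]⟩
  have hQinj : Function.Injective (fun j => Q (a j)) := by
    intro i j hij
    exact hainj (Q_inj (hamem i) (hamem j) hij)
  refine ⟨(Finset.range n).image (fun j => Q (a j)), ?_, ?_, ?_⟩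
  · rw [Finset.card_image_of_injective _ hQinj, Finset.card_range]
  · intro y hy
    obtain ⟨j, -, rfl⟩ := Finset.mem_image.1 hy
    exact ⟨_, rfl⟩
  · intro x hx y hy
    obtain ⟨i, -, rfl⟩ := Finset.mem_image.1 hx
    obtain ⟨j, -, rfl⟩ := Finset.mem_image.1 hy
    have hnear : ∀ j, dist (Q (a j)) (Q 0) < δ/2 := by
      intro j
      apply hηQ
      rw [Real.dist_eq, sub_zero, abs_of_pos (ha0 j)]
      exact lt_of_le_of_lt (ha1 j) hρη
    calc dist (Q (a i)) (Q (a j)) ≤ dist (Q (a i)) (Q 0) + dist (Q 0) (Q (a j)) := dist_triangle _ _ _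
      _ < δ/2 + δ/2 := by
          refine add_lt_add (hnear i) ?_
          rw [dist_comm]; exact hnear j
      _ = δ := by ring

/-- `M` distinct points on the first circle -/
lemma exists_clique (M : ℕ) :
    ∃ X : Finset (EuclideanSpace ℝ (Fin 4)), X.card = M ∧ (∀ x ∈ X, ∃ t, x = P t) := by
  let a : ℕ → ℝ := fun j => 1 / (j + 1)
  have hpi : (1:ℝ) < Real.pi / 2 := by linarith [Real.pi_gt_three]
  have ha0 : ∀ j, 0 < a j := fun j => by positivity
  have ha1 : ∀ j, a j ≤ 1 := fun j => by
    apply div_le_self one_pos.le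
    have : (0:ℝ) ≤ j := Nat.cast_nonneg j
    linarith
  have hainj : Function.Injective a := by
    intro i j hij
    have h1 : (i:ℝ) + 1 ≠ 0 := by positivity
    have h2 : (j:ℝ) + 1 ≠ 0 := by positivity
    simp only [a] at hij
    field_simp at hij
    have : (j:ℝ) = i := by linarith
    exact_mod_cast this.symm
  have hamem : ∀ j, a j ∈ Set.Icc (-(Real.pi / 2)) (Real.pi / 2) := fun j =>
    ⟨by linarith [ha0 j], by linarith [ha1 j]⟩
  have hPinj : Function.Injective (fun j => P (a j)) := by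
    intro i j hij
    exact hainj (P_inj (hamem i) (hamem j) hij)
  refine ⟨(Finset.range M).image (fun j => P (a j)), ?_, ?_⟩
  · rw [Finset.card_image_of_injective _ hPinj, Finset.card_range]
  · intro y hy
    obtain ⟨j, -, rfl⟩ := Finset.mem_image.1 hy
    exact ⟨_, rfl⟩

/-- The negation of the preceding statement: For all d, k there is N such that any set S of at least N points in convex position in R^d has its k-largest-distances graph colorable with m colors, for every m such that every compact diameter-1 set splits into m parts of diameter < 1. -/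
theorem result :
    ¬ (∀ d k : ℕ, ∃ N : ℕ, ∀ S : Finset (EuclideanSpace ℝ (Fin d)),
      N ≤ S.card →
      (∀ x ∈ S, x ∉ convexHull ℝ ((↑S : Set (EuclideanSpace ℝ (Fin d))) \ {x})) →
      ∀ m : ℕ,
        (∀ K : Set (EuclideanSpace ℝ (Fin d)), IsCompact K → Metric.diam K = 1 →
          ∃ f : EuclideanSpace ℝ (Fin d) → Fin m,
            ∀ i : Fin m, Metric.diam (K ∩ f ⁻¹' {i}) < 1) →
        (SimpleGraph.fromRel (fun x y : S =>
          ((S.offDiag.image (fun p => dist p.1 p.2)).filter
            (fun r => dist (x : EuclideanSpace ℝ (Fin d)) (y : EuclideanSpace ℝ (Fin d)) < r)).card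
              < k)).Colorable m) := by
  intro H
  obtain ⟨m, hm⟩ := exists_partition 4
  obtain ⟨X, hXcard, hXP⟩ := exists_clique (m + 1)
  obtain ⟨δ, hδ, hsep⟩ := exists_sep X
  obtain ⟨N, hN⟩ := H 4 (X.offDiag.card + 2)
  obtain ⟨Y, hYcard, hYQ, hYδ⟩ := exists_cluster δ hδ N
  set S : Finset (EuclideanSpace ℝ (Fin 4)) := X ∪ Y with hS
  have hScard : N ≤ S.card := by
    rw [← hYcard]; exact Finset.card_le_card Finset.subset_union_right
  have hSnorm : ∀ x ∈ (↑S : Set (EuclideanSpace ℝ (Fin 4))), ‖x‖ = 1 := by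
    intro x hx
    rw [Finset.mem_coe, hS, Finset.mem_union] at hx
    rcases hx with hx | hx
    · obtain ⟨t, rfl⟩ := hXP x hx; exact norm_P t
    · obtain ⟨t, rfl⟩ := hYQ x hx; exact norm_Q t
  have hcol := hN S hScard (fun x hx => not_mem_convexHull_of_sphere _ hSnorm x hx) m hm
  obtain ⟨C⟩ := hcol
  -- the points of X are pairwise adjacent
  have hadj : ∀ x y : S, (x : EuclideanSpace ℝ (Fin 4)) ∈ X → (y : EuclideanSpace ℝ (Fin 4)) ∈ X →
      x ≠ y → C x ≠ C y := by
    intro x y hx hy hxy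
    apply C.valid
    rw [SimpleGraph.fromRel_adj]
    refine ⟨hxy, Or.inl ?_⟩
    have hxy' : (x : EuclideanSpace ℝ (Fin 4)) ≠ y := fun h => hxy (Subtype.ext h)
    have hd : δ ≤ dist (x : EuclideanSpace ℝ (Fin 4)) y := hsep _ hx _ hy hxy'
    have hsub : (S.offDiag.image (fun p => dist p.1 p.2)).filter
        (fun r => dist (x : EuclideanSpace ℝ (Fin 4)) (y : EuclideanSpace ℝ (Fin 4)) < r) ⊆
        insert (Real.sqrt 2) (X.offDiag.image (fun p => dist p.1 p.2)) := by
      intro r hr
      rw [Finset.mem_filter, Finset.mem_image] at hr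
      obtain ⟨⟨⟨p, q⟩, hpq, rfl⟩, hlt⟩ := hr
      rw [Finset.mem_offDiag] at hpq
      obtain ⟨hp, hq, hne⟩ := hpq
      simp only at hp hq hne hlt
      rw [hS, Finset.mem_union] at hp hq
      rw [Finset.mem_insert]
      rcases hp with hp | hp <;> rcases hq with hq | hq
      · right
        exact Finset.mem_image.2 ⟨(p, q), Finset.mem_offDiag.2 ⟨hp, hq, hne⟩, rfl⟩
      · left
        obtain ⟨s, rfl⟩ := hXP p hp
        obtain ⟨t, rfl⟩ := hYQ q hq
        exact dist_P_Q s t
      · left
        obtain ⟨s, rfl⟩ := hXP q hq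
        obtain ⟨t, rfl⟩ := hYQ p hp
        show dist (Q t) (P s) = _
        rw [dist_comm]; exact dist_P_Q s t
      · exfalso
        have := hYδ p hp q hq
        linarith
    calc _ ≤ (insert (Real.sqrt 2) (X.offDiag.image (fun p => dist p.1 p.2))).card :=
          Finset.card_le_card hsub
      _ ≤ (X.offDiag.image (fun p => dist p.1 p.2)).card + 1 := Finset.card_insert_le _ _
      _ ≤ X.offDiag.card + 1 := by
          have := Finset.card_image_le (s := X.offDiag) (f := fun p : EuclideanSpace ℝ (Fin 4) × EuclideanSpace ℝ (Fin 4) => dist p.1 p.2)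
          omega
      _ < X.offDiag.card + 2 := by omega
  -- pigeonhole
  have hXS : ∀ x ∈ X, x ∈ S := fun x hx => Finset.mem_union_left _ hx
  have hinj : Function.Injective (fun x : X => C ⟨x.1, hXS x.1 x.2⟩) := by
    intro x y hxy
    by_contra hne
    refine hadj ⟨x.1, hXS x.1 x.2⟩ ⟨y.1, hXS y.1 y.2⟩ x.2 y.2 ?_ hxy
    intro h
    apply hne
    apply Subtype.ext
    exact congrArg (fun z : S => (z : EuclideanSpace ℝ (Fin 4))) h
  have hle := Fintype.card_le_of_injective _ hinj
  rw [Fintype.card_coe, hXcard, Fintype.card_fin] at hle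
  omega

end Pool.Agent.S08046
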