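import Pool.Statements.S08085
import Pool.Agent.Royle.Final

set_option autoImplicit false
open Pool Pool.MP_363d14_co

namespace Pool.Agent.S08085

/-- For every finite 3-connected matroid with at least 4 elements, largest circuit size c and largest cocircuit size c*: 2∣E∣ < c·c*, or M is isomorphic to the binary affine geometry AG(3,2) on the 8 points of (ZMod 2)^3. -/
theorem result :
    ∀ (α : Type) (M : Matroid α), M.Finite → 4 ≤ M.E.encard →
      (∀ X : Set α, X ⊆ M.E → ∀ k : ℕ, 1 ≤ k → k < 3 →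
        (k : ℕ∞) ≤ X.encard → (k : ℕ∞) ≤ (M.E \ X).encard →
        M.eRank + (k : ℕ∞) ≤ M.eRk X + M.eRk (M.E \ X)) →
      ∀ c d : ℕ,
        (∃ C : Set α, M.IsCircuit C ∧ C.encard = (c : ℕ∞)) →
        (∀ C : Set α, M.IsCircuit C → C.encard ≤ (c : ℕ∞)) →
        (∃ D : Set α, M.IsCocircuit D ∧ D.encard = (d : ℕ∞)) →
        (∀ D : Set α, M.IsCocircuit D → D.encard ≤ (d : ℕ∞)) →
        ((2 : ℕ∞) * M.E.encard < ((c * d : ℕ) : ℕ∞) ∨
          ∃ f : α → (Fin 3 → ZMod 2), Set.BijOn f M.E Set.univ ∧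
            ∀ I : Set α, I ⊆ M.E →
              (M.Indep I ↔ AffineIndependent (ZMod 2) (fun x : I => f x))) := by
  intro α M hfin h4 hsep c d hc hc' _ hd'
  exact Pool.Agent.Royle.royle α M hfin h4 hsep c d hc hc' hd'

end Pool.Agent.S08085
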