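import Pool.Statements.S08204
import Pool.Agent.GeoThick.Main

set_option autoImplicit false
open Real
open Pool Pool.MP_3b066f_co

namespace Pool.Agent.S08204

/-- The negation of the preceding statement: For each d from 4 to 8 there is c>0 such that every finite graph of maximum degree d has a straight-line plane drawing (no vertex on a non-incident edge) where any two crossing edges meet at angle at least c. -/
theorem result :
    ¬ (∀ d : ℕ, 4 ≤ d → d ≤ 8 →
      ∃ c : ℝ, 0 < c ∧
        ∀ (V : Type) [Fintype V] [DecidableEq V] (G : SimpleGraph V) [DecidableRel G.Adj],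
          G.maxDegree = d →
          ∃ p : V → EuclideanSpace ℝ (Fin 2),
            Function.Injective p ∧
            (∀ w u v : V, G.Adj u v → w ≠ u → w ≠ v → p w ∉ segment ℝ (p u) (p v)) ∧
            (∀ u v x y : V, G.Adj u v → G.Adj x y →
              u ≠ x → u ≠ y → v ≠ x → v ≠ y →
              (segment ℝ (p u) (p v) ∩ segment ℝ (p x) (p y)).Nonempty →
              c ≤ InnerProductGeometry.angle (p v - p u) (p y - p x) ∧
              InnerProductGeometry.angle (p v - p u) (p y - p x) ≤ π - c)) := by
  intro h
  exact GeoThick.no_crossing_angle_bound 5 le_rfl (h 5 (by norm_num) (by norm_num))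

end Pool.Agent.S08204
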