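import Pool.Statements.S08353

set_option autoImplicit false
open Pool Pool.MP_4150d6_co

namespace Pool.Agent.S08353

/-! The witness is the complete tripartite graph K_{2,2,3}: 7 vertices, 16 edges.
It is harmonious (labels 0,1 / 2,9 / 5,11,15 modulo 16) and it is not sequential: the latter is
proved by a pruned exhaustive search evaluated in the kernel. -/

/-- the part of a vertex -/
def part : Fin 7 → Fin 3 := ![0, 0, 1, 1, 2, 2, 2]

/-- K_{2,2,3} -/
def K223 : SimpleGraph (Fin 7) where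
  Adj a b := part a ≠ part b
  symm := ⟨fun _ _ h => Ne.symm h⟩
  loopless := ⟨fun _ h => h rfl⟩

instance : DecidableRel K223.Adj := fun a b => inferInstanceAs (Decidable (part a ≠ part b))

theorem card_edges : Nat.card K223.edgeSet = 16 := by
  rw [Nat.card_eq_fintype_card, ← SimpleGraph.edgeFinset_card]
  decide +kernel

/-- harmonious labelling -/
def lab : Fin 7 → ZMod 16 := ![0, 1, 2, 9, 5, 11, 15]

theorem lab_inj : Function.Injective lab := by
  intro a b; revert a b; decide +kernel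

theorem lab_sum : ∀ a b c d : Fin 7, part a ≠ part b → part c ≠ part d →
    lab a + lab b = lab c + lab d → s(a, b) = s(c, d) := by
  decide +kernel

theorem not_tree : ¬ K223.IsTree := by
  intro h
  have h1 := h.card_edgeFinset
  have h2 : K223.edgeFinset.card = 16 := by decide +kernel
  rw [h2] at h1
  simp at h1

/-! ### The search -/

/-- candidate labels -/
def vals : List ℕ := [0, 1, 2, 3, 4, 5, 6, 7, 8, 9, 10, 11, 12, 13, 14, 15]

/-- does the set with bit mask `T`, translated by `z`, meet the set with bit mask `c`? -/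
def hit (c T z : ℕ) : Bool := !(Nat.beq (Nat.land c (Nat.shiftLeft T z)) 0)

/-- add the translate -/
def ext (c T z : ℕ) : ℕ := Nat.lor c (Nat.shiftLeft T z)

/-- the bit mask of four numbers -/
def msk (a b c d : ℕ) : ℕ :=
  Nat.lor (Nat.lor (Nat.shiftLeft 1 a) (Nat.shiftLeft 1 b))
    (Nat.lor (Nat.shiftLeft 1 c) (Nat.shiftLeft 1 d))

/-- a sum at `z` and a sum inside the first two parts differ by at least 16 -/
def far (x1 x2 y1 y2 z : ℕ) : Bool :=
  Nat.ble (16 + x1 + y1) (z + x2) || Nat.ble (16 + x1 + y1) (z + y2) ||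
    Nat.ble (16 + z + x1) (x2 + y2)

/-- the search over the third part -/
def inner (x1 x2 y1 y2 T c : ℕ) : Bool :=
  vals.all fun z1 => hit c T z1 || far x1 x2 y1 y2 z1 ||
    vals.all fun z2 => Nat.ble z2 z1 || hit (ext c T z1) T z2 || far x1 x2 y1 y2 z2 ||
      vals.all fun z3 => Nat.ble z3 z2 || hit (ext (ext c T z1) T z2) T z3 ||
        far x1 x2 y1 y2 z3 ||
        Nat.ble (16 + z1 + x1) (z3 + x2) || Nat.ble (16 + z1 + x1) (z3 + y2)

/-- the search -/
def search : Bool :=
  vals.all fun x1 => vals.all fun x2 => Nat.ble x2 x1 ||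
    vals.all fun y1 => Nat.ble y1 x1 || Nat.beq y1 x2 ||
      vals.all fun y2 => Nat.ble y2 y1 || Nat.beq y2 x2 || Nat.beq (x1 + y2) (x2 + y1) ||
        Nat.ble (16 + x1 + y1) (x2 + y2) ||
        inner x1 x2 y1 y2 (msk x1 x2 y1 y2) (msk (x1 + y1) (x1 + y2) (x2 + y1) (x2 + y2))

set_option maxRecDepth 100000 in
theorem search_true : search = true := by decide +kernel

theorem mem_vals {x : ℕ} (h : x < 16) : x ∈ vals := by
  revert x; decide

theorem hit_true {c T z : ℕ} (h : hit c T z = true) :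
    ∃ t, T.testBit t = true ∧ c.testBit (z + t) = true := by
  have h1 : c &&& (T <<< z) ≠ 0 := by
    intro h0
    have : Nat.beq (Nat.land c (Nat.shiftLeft T z)) 0 = true := by
      have e : Nat.land c (Nat.shiftLeft T z) = 0 := h0
      rw [e]; rfl
    rw [hit, this] at h
    exact absurd h (by decide)
  obtain ⟨i, hi⟩ := Nat.exists_testBit_of_ne_zero h1
  rw [Nat.testBit_and, Nat.testBit_shiftLeft] at hi
  simp only [Bool.and_eq_true, decide_eq_true_eq] at hi
  refine ⟨i - z, hi.2.2, ?_⟩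
  have : z + (i - z) = i := by omega
  rw [this]; exact hi.1

theorem ext_bit {c T z i : ℕ} (h : (ext c T z).testBit i = true) :
    c.testBit i = true ∨ ∃ t, T.testBit t = true ∧ i = z + t := by
  have h1 : (c ||| (T <<< z)).testBit i = true := h
  rw [Nat.testBit_or, Nat.testBit_shiftLeft] at h1
  simp only [Bool.or_eq_true, Bool.and_eq_true, decide_eq_true_eq] at h1
  rcases h1 with h1 | h1
  · exact Or.inl h1
  · exact Or.inr ⟨i - z, h1.2, by omega⟩

theorem one_bit {a i : ℕ} (h : (1 <<< a : ℕ).testBit i = true) : i = a := by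
  rw [Nat.testBit_shiftLeft] at h
  simp only [Bool.and_eq_true, decide_eq_true_eq] at h
  have h2 := h.2
  rw [Nat.testBit_one_eq_true_iff_self_eq_zero] at h2
  omega

theorem msk_bit {a b c d i : ℕ} (h : (msk a b c d).testBit i = true) :
    i = a ∨ i = b ∨ i = c ∨ i = d := by
  have h1 : (((1 <<< a) ||| (1 <<< b)) ||| ((1 <<< c) ||| (1 <<< d)) : ℕ).testBit i = true := h
  rw [Nat.testBit_or, Nat.testBit_or, Nat.testBit_or] at h1
  simp only [Bool.or_eq_true] at h1
  rcases h1 with (h1 | h1) | (h1 | h1)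
  · exact Or.inl (one_bit h1)
  · exact Or.inr (Or.inl (one_bit h1))
  · exact Or.inr (Or.inr (Or.inl (one_bit h1)))
  · exact Or.inr (Or.inr (Or.inr (one_bit h1)))

/-- a sequential labelling -/
structure V (g : Fin 7 → ℕ) (m : ℕ) : Prop where
  inj : Function.Injective g
  lt : ∀ v, g v < 16
  win : ∀ a b : Fin 7, part a ≠ part b → m ≤ g a + g b ∧ g a + g b < m + 16
  dist : ∀ a b c d : Fin 7, part a ≠ part b → part c ≠ part d →
    g a + g b = g c + g d → s(a, b) = s(c, d)

theorem V.comp {g : Fin 7 → ℕ} {m : ℕ} (h : V g m) (σ : Fin 7 → Fin 7)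
    (hσ : Function.Injective σ) (hp : ∀ a b, part a ≠ part b → part (σ a) ≠ part (σ b)) :
    V (fun v => g (σ v)) m where
  inj := h.inj.comp hσ
  lt v := h.lt _
  win a b hab := h.win _ _ (hp a b hab)
  dist a b c d hab hcd he := by
    have := h.dist _ _ _ _ (hp a b hab) (hp c d hcd) he
    have h2 : Sym2.map σ s(a, b) = Sym2.map σ s(c, d) := by simpa using this
    exact Sym2.map.injective hσ h2

/-- all the bits of `c` are sums over edges inside the first `n` vertices -/
def Inside (g : Fin 7 → ℕ) (n : ℕ) (c : ℕ) : Prop :=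
  ∀ s, c.testBit s = true → ∃ a b : Fin 7, a.val < n ∧ b.val < n ∧ part a ≠ part b ∧
    g a + g b = s

/-- the mask of the first four labels -/
def T (g : Fin 7 → ℕ) : ℕ := msk (g 0) (g 1) (g 2) (g 3)

/-- the mask of the sums of the first two parts -/
def C (g : Fin 7 → ℕ) : ℕ := msk (g 0 + g 2) (g 0 + g 3) (g 1 + g 2) (g 1 + g 3)

theorem T_bit {g : Fin 7 → ℕ} {t : ℕ} (h : (T g).testBit t = true) :
    ∃ i : Fin 7, i.val < 4 ∧ g i = t := by
  rcases msk_bit h with h | h | h | h
  · exact ⟨0, by decide, h.symm⟩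
  · exact ⟨1, by decide, h.symm⟩
  · exact ⟨2, by decide, h.symm⟩
  · exact ⟨3, by decide, h.symm⟩

theorem C_inside (g : Fin 7 → ℕ) : Inside g 4 (C g) := by
  intro s h
  rcases msk_bit h with h | h | h | h
  · exact ⟨0, 2, by decide, by decide, by decide, h.symm⟩
  · exact ⟨0, 3, by decide, by decide, by decide, h.symm⟩
  · exact ⟨1, 2, by decide, by decide, by decide, h.symm⟩
  · exact ⟨1, 3, by decide, by decide, by decide, h.symm⟩

theorem part_ne : ∀ v i : Fin 7, 4 ≤ v.val → i.val < 4 → part v ≠ part i := by decide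

theorem sym_ne : ∀ v i a b : Fin 7, a.val < v.val → b.val < v.val → s(v, i) ≠ s(a, b) := by
  intro v i a b ha hb h
  rw [Sym2.eq_iff] at h
  rcases h with ⟨h, _⟩ | ⟨h, _⟩
  · subst h; omega
  · subst h; omega

theorem no_hit {g : Fin 7 → ℕ} {m : ℕ} (h : V g m) (v : Fin 7) (hv : 4 ≤ v.val) {c : ℕ}
    (hc : Inside g v.val c) : hit c (T g) (g v) = false := by
  by_contra hne
  have h1 : hit c (T g) (g v) = true := by simpa using hne
  obtain ⟨t, ht, hs⟩ := hit_true h1
  obtain ⟨i, hi, rfl⟩ := T_bit ht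
  obtain ⟨a, b, ha, hb, hab, he⟩ := hc _ hs
  exact sym_ne v i a b ha hb (h.dist v i a b (part_ne v i hv hi) hab he.symm)

theorem ext_inside {g : Fin 7 → ℕ} (v : Fin 7) (hv : 4 ≤ v.val) {c : ℕ}
    (hc : Inside g v.val c) : Inside g (v.val + 1) (ext c (T g) (g v)) := by
  intro s hs
  rcases ext_bit hs with h | ⟨t, ht, rfl⟩
  · obtain ⟨a, b, ha, hb, hab, he⟩ := hc _ h
    exact ⟨a, b, by omega, by omega, hab, he⟩
  · obtain ⟨i, hi, rfl⟩ := T_bit ht
    exact ⟨v, i, by omega, by omega, part_ne v i hv hi, rfl⟩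

theorem ble_false {a b : ℕ} (h : b < a) : Nat.ble a b = false := by
  rw [← Bool.not_eq_true, Nat.ble_eq]; omega

theorem beq_false {a b : ℕ} (h : a ≠ b) : Nat.beq a b = false := by
  rw [← Bool.not_eq_true, Nat.beq_eq]; exact h

theorem no_far {g : Fin 7 → ℕ} {m : ℕ} (h : V g m) (v : Fin 7) (hv : 4 ≤ v.val) :
    far (g 0) (g 1) (g 2) (g 3) (g v) = false := by
  have h02 := h.win 0 2 (by decide)
  have h13 := h.win 1 3 (by decide)
  have hv0 := h.win v 0 (part_ne v 0 hv (by decide))
  have hv1 := h.win v 1 (part_ne v 1 hv (by decide))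
  have hv3 := h.win v 3 (part_ne v 3 hv (by decide))
  rw [far, ble_false (by omega), ble_false (by omega), ble_false (by omega)]
  rfl

theorem no_sorted {g : Fin 7 → ℕ} {m : ℕ} (h : V g m) (h01 : g 0 < g 1) (h23 : g 2 < g 3)
    (h02 : g 0 < g 2) (h45 : g 4 < g 5) (h56 : g 5 < g 6) : False := by
  have hs := search_true
  have e12 : g 2 ≠ g 1 := fun e => absurd (h.inj e) (by decide)
  have e13 : g 3 ≠ g 1 := fun e => absurd (h.inj e) (by decide)
  have esum : g 0 + g 3 ≠ g 1 + g 2 := fun e =>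
    absurd (h.dist 0 3 1 2 (by decide) (by decide) e) (by decide)
  have w02 := h.win 0 2 (by decide)
  have w13 := h.win 1 3 (by decide)
  have w40 := h.win 4 0 (by decide)
  have w61 := h.win 6 1 (by decide)
  have w63 := h.win 6 3 (by decide)
  rw [search] at hs
  have s1 := List.all_eq_true.mp hs (g 0) (mem_vals (h.lt 0))
  have s2 := List.all_eq_true.mp s1 (g 1) (mem_vals (h.lt 1))
  rw [ble_false h01, Bool.false_or] at s2
  have s3 := List.all_eq_true.mp s2 (g 2) (mem_vals (h.lt 2))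
  rw [ble_false h02, Bool.false_or, beq_false e12, Bool.false_or] at s3
  have s4 := List.all_eq_true.mp s3 (g 3) (mem_vals (h.lt 3))
  rw [ble_false h23, Bool.false_or, beq_false e13, Bool.false_or, beq_false esum,
    Bool.false_or, ble_false (by omega), Bool.false_or, inner] at s4
  have i4 : Inside g (4 : Fin 7).val (C g) := C_inside g
  have n4 : hit (C g) (T g) (g 4) = false := no_hit h 4 (by decide) i4
  have i5 : Inside g (5 : Fin 7).val (ext (C g) (T g) (g 4)) := ext_inside 4 (by decide) i4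
  have n5 : hit (ext (C g) (T g) (g 4)) (T g) (g 5) = false := no_hit h 5 (by decide) i5
  have i6 : Inside g (6 : Fin 7).val (ext (ext (C g) (T g) (g 4)) (T g) (g 5)) :=
    ext_inside 5 (by decide) i5
  have n6 : hit (ext (ext (C g) (T g) (g 4)) (T g) (g 5)) (T g) (g 6) = false :=
    no_hit h 6 (by decide) i6
  rw [C, T] at n4 n5 n6
  have s5 := List.all_eq_true.mp s4 (g 4) (mem_vals (h.lt 4))
  rw [n4, Bool.false_or, no_far h 4 (by decide), Bool.false_or] at s5
  have s6 := List.all_eq_true.mp s5 (g 5) (mem_vals (h.lt 5))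
  rw [ble_false h45, Bool.false_or, n5, Bool.false_or, no_far h 5 (by decide),
    Bool.false_or] at s6
  have s7 := List.all_eq_true.mp s6 (g 6) (mem_vals (h.lt 6))
  rw [ble_false h56, Bool.false_or, n6, Bool.false_or, no_far h 6 (by decide),
    Bool.false_or, ble_false (by omega), Bool.false_or, ble_false (by omega)] at s7
  exact Bool.false_ne_true s7

theorem no_V {g : Fin 7 → ℕ} {m : ℕ} (h : V g m) : False := by
  -- sort the first part
  obtain ⟨g, h, h01⟩ : ∃ g : Fin 7 → ℕ, V g m ∧ g 0 < g 1 := by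
    rcases Nat.lt_or_ge (g 0) (g 1) with h1 | h1
    · exact ⟨g, h, h1⟩
    · have hne : g 0 ≠ g 1 := fun e => absurd (h.inj e) (by decide)
      exact ⟨_, h.comp ![1, 0, 2, 3, 4, 5, 6] (by intro a b; revert a b; decide) (by decide),
        show g 1 < g 0 by omega⟩
  -- sort the second part
  obtain ⟨g, h, h01, h23⟩ : ∃ g : Fin 7 → ℕ, V g m ∧ g 0 < g 1 ∧ g 2 < g 3 := by
    rcases Nat.lt_or_ge (g 2) (g 3) with h1 | h1
    · exact ⟨g, h, h01, h1⟩
    · have hne : g 2 ≠ g 3 := fun e => absurd (h.inj e) (by decide)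
      exact ⟨_, h.comp ![0, 1, 3, 2, 4, 5, 6] (by intro a b; revert a b; decide) (by decide),
        h01, show g 3 < g 2 by omega⟩
  -- order the two parts
  obtain ⟨g, h, h01, h23, h02⟩ :
      ∃ g : Fin 7 → ℕ, V g m ∧ g 0 < g 1 ∧ g 2 < g 3 ∧ g 0 < g 2 := by
    rcases Nat.lt_or_ge (g 0) (g 2) with h1 | h1
    · exact ⟨g, h, h01, h23, h1⟩
    · have hne : g 0 ≠ g 2 := fun e => absurd (h.inj e) (by decide)
      exact ⟨_, h.comp ![2, 3, 0, 1, 4, 5, 6] (by intro a b; revert a b; decide) (by decide),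
        h23, h01, show g 2 < g 0 by omega⟩
  -- sort the third part
  obtain ⟨g, h, h01, h23, h02, h45⟩ :
      ∃ g : Fin 7 → ℕ, V g m ∧ g 0 < g 1 ∧ g 2 < g 3 ∧ g 0 < g 2 ∧ g 4 < g 5 := by
    rcases Nat.lt_or_ge (g 4) (g 5) with h1 | h1
    · exact ⟨g, h, h01, h23, h02, h1⟩
    · have hne : g 4 ≠ g 5 := fun e => absurd (h.inj e) (by decide)
      exact ⟨_, h.comp ![0, 1, 2, 3, 5, 4, 6] (by intro a b; revert a b; decide) (by decide),
        h01, h23, h02, show g 5 < g 4 by omega⟩
  obtain ⟨g, h, h01, h23, h02, h46, h56⟩ :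
      ∃ g : Fin 7 → ℕ, V g m ∧ g 0 < g 1 ∧ g 2 < g 3 ∧ g 0 < g 2 ∧ g 4 < g 6 ∧ g 5 < g 6 := by
    rcases Nat.lt_or_ge (g 5) (g 6) with h1 | h1
    · exact ⟨g, h, h01, h23, h02, by omega, h1⟩
    · have hne : g 5 ≠ g 6 := fun e => absurd (h.inj e) (by decide)
      exact ⟨_, h.comp ![0, 1, 2, 3, 4, 6, 5] (by intro a b; revert a b; decide) (by decide),
        h01, h23, h02, show g 4 < g 5 from h45, show g 6 < g 5 by omega⟩
  rcases Nat.lt_or_ge (g 4) (g 5) with h1 | h1
  · exact no_sorted h h01 h23 h02 h1 h56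
  · have hne : g 4 ≠ g 5 := fun e => absurd (h.inj e) (by decide)
    exact no_sorted
      (h.comp ![0, 1, 2, 3, 5, 4, 6] (by intro a b; revert a b; decide) (by decide))
      h01 h23 h02 (show g 5 < g 4 by omega) h46

/-- Some finite simple graph with q ≥ 1 edges is harmonious (vertex labels in Z_q, injective except one repeat allowed for trees, distinct edge sums mod q) but has no sequential labeling (injective labels in 0..q−1, or 0..q for trees, with edge sums exactly q consecutive integers). -/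
theorem result :
    ∃ (n : ℕ) (G : SimpleGraph (Fin n)) (q : ℕ),
      Nat.card G.edgeSet = q ∧ 1 ≤ q ∧
      (∃ f : Fin n → ZMod q,
        (Function.Injective f ∨ (G.IsTree ∧ Function.Surjective f)) ∧
        ∀ a b c d : Fin n, G.Adj a b → G.Adj c d →
          f a + f b = f c + f d → s(a, b) = s(c, d)) ∧
      ¬ (∃ (f : Fin n → ℕ) (m : ℕ),
          Function.Injective f ∧
          ((∀ v, f v < q) ∨ (G.IsTree ∧ ∀ v, f v ≤ q)) ∧
          (∀ a b : Fin n, G.Adj a b → m ≤ f a + f b ∧ f a + f b < m + q) ∧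
          ∀ a b c d : Fin n, G.Adj a b → G.Adj c d →
            f a + f b = f c + f d → s(a, b) = s(c, d)) := by
  refine ⟨7, K223, 16, card_edges, by norm_num, ⟨lab, Or.inl lab_inj, lab_sum⟩, ?_⟩
  rintro ⟨f, m, hinj, hlt, hwin, hdist⟩
  have hlt' : ∀ v, f v < 16 := by
    rcases hlt with h | h
    · exact h
    · exact absurd h.1 not_tree
  exact no_V (g := f) (m := m) ⟨hinj, hlt', hwin, hdist⟩

end Pool.Agent.S08353
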