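import Pool.Statements.S09311
import Pool.Agent.MMS36.Final

set_option autoImplicit false
open Pool Pool.MP_6af1d5_co

namespace Pool.Agent.S09311

/-- For all positive k and n ≥ 4k, any set of n distinct reals summing to zero has at least C(n-1,k-1) subsets of size k whose elements have nonnegative sum. -/
theorem result :
    ∀ (n k : ℕ), 0 < k → 4 * k ≤ n →
      ∀ A : Finset ℝ, A.card = n → (∑ x ∈ A, x) = 0 →
        (n - 1).choose (k - 1) ≤
          ((A.powersetCard k).filter (fun B => 0 ≤ ∑ x ∈ B, x)).card := by
  exact Pool.Agent.MMS77.mms_of_good Pool.Agent.MMS36.mms_all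

end Pool.Agent.S09311
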