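import Pool.Statements.S10096
-- import your own Pool.Agent.* helpers here

set_option autoImplicit false
open Pool Pool.MP_8ed634_co

namespace Pool.Agent.S10096

/-!
The clutter of the following 11 triples on 11 points (a square minimally nonideal matrix with
a noncyclic core; row size 3, smallest blocker size 4) is nonideal and has no orientation pair.
-/

/-- The eleven members of the clutter. -/
def mem : Fin 11 → Finset (Fin 11) :=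
  ![{2, 5, 7}, {5, 6, 7}, {5, 6, 10}, {0, 2, 10}, {7, 8, 9}, {0, 1, 2}, {0, 1, 4}, {3, 8, 9}, {1, 3, 4}, {3, 4, 9}, {6, 8, 10}]

/-- The clutter. -/
def clut : Finset (Finset (Fin 11)) := Finset.univ.image mem

/-- The members as bit masks. -/
def memMask : Fin 11 → ℕ := ![164, 224, 1120, 1029, 896, 7, 19, 776, 26, 536, 1344]

/-- The elements of each member, listed. -/
def opts : Fin 11 → List (Fin 11) := ![[2, 5, 7], [5, 6, 7], [5, 6, 10], [0, 2, 10], [7, 8, 9], [0, 1, 2], [0, 1, 4], [3, 8, 9], [1, 3, 4], [3, 4, 9], [6, 8, 10]]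

/-- The 36 members of the blocker. -/
def blk : Fin 36 → Finset (Fin 11) :=
  ![{0, 3, 6, 7},
    {1, 2, 3, 6, 7},
    {2, 3, 4, 6, 7},
    {0, 3, 5, 8},
    {1, 2, 3, 5, 8},
    {0, 4, 5, 8},
    {2, 4, 5, 8},
    {0, 2, 3, 6, 8},
    {1, 2, 3, 6, 8},
    {2, 4, 6, 8},
    {0, 4, 6, 7, 8},
    {1, 2, 6, 9},
    {0, 2, 3, 6, 9},
    {2, 4, 6, 9},
    {0, 1, 5, 6, 9},
    {0, 3, 5, 6, 9},
    {0, 4, 5, 6, 9},
    {0, 1, 6, 7, 9},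
    {0, 4, 6, 7, 9},
    {0, 1, 5, 8, 9},
    {1, 2, 5, 8, 9},
    {0, 3, 7, 10},
    {1, 3, 7, 10},
    {2, 3, 4, 7, 10},
    {1, 3, 5, 8, 10},
    {1, 4, 5, 8, 10},
    {0, 4, 7, 8, 10},
    {1, 4, 7, 8, 10},
    {2, 4, 7, 8, 10},
    {1, 5, 9, 10},
    {0, 3, 5, 9, 10},
    {0, 4, 5, 9, 10},
    {2, 4, 5, 9, 10},
    {1, 7, 9, 10},
    {0, 4, 7, 9, 10},
    {2, 4, 7, 9, 10}]

/-- The members of the blocker as bit masks. -/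
def blkMask : Fin 36 → ℕ := ![201, 206, 220, 297, 302, 305, 308, 333, 334, 340, 465, 582, 589, 596, 611, 617, 625, 707, 721, 803, 806, 1161, 1162, 1180, 1322, 1330, 1425, 1426, 1428, 1570, 1577, 1585, 1588, 1666, 1681, 1684]

/-- `one i j u` tests whether `mem i ∩ blk j = {u}`, by bit masks. -/
def one (i : Fin 11) (j : Fin 36) (u : Fin 11) : Bool :=
  Nat.beq (Nat.land (memMask i) (blkMask j)) (2 ^ u.val)

theorem one_spec : ∀ (i : Fin 11) (j : Fin 36) (u : Fin 11), one i j u = true →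
    ¬ 1 < (mem i ∩ blk j).card := by
  decide +kernel

theorem opts_spec : ∀ (i : Fin 11) (v : Fin 11), v ∈ mem i → v ∈ opts i := by
  decide +kernel

theorem blk_cover : ∀ (j : Fin 36) (i : Fin 11), (mem i ∩ blk j).Nonempty := by
  decide +kernel

/-- Every element of a blocker member has a private member of the clutter. -/
theorem blk_private : ∀ (j : Fin 36) (u : Fin 11), u ∈ blk j → ∃ i : Fin 11,
    mem i ∩ blk j = {u} := by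
  decide +kernel

theorem mem_antichain : ∀ (i j : Fin 11), mem i ⊆ mem j → mem i = mem j := by
  decide +kernel

/-- Decision trees: at a leaf a blocker member that is fully labelled, at a node the member of
the clutter whose label is branched on. -/
inductive Tree : Type
  | leaf (j : Fin 36) : Tree
  | node (i : Fin 11) (a b c : Tree) : Tree

/-- Check that the partial assignment `asg` (pairs of member and label) makes the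
blocker member `j` fully labelled. -/
def leafOK (j : Fin 36) (asg : List (Fin 11 × Fin 11)) : Bool :=
  (List.finRange 11).all (fun u => !(blkMask j).testBit u.val ||
    asg.any (fun q => decide (q.2 = u) && one q.1 j u))

/-- The checker. -/
def check : Tree → List (Fin 11 × Fin 11) → Bool
  | Tree.leaf j, asg => leafOK j asg
  | Tree.node i a b c, asg =>
    match opts i with
    | [x, y, z] => check a ((i, x) :: asg) && check b ((i, y) :: asg) && check c ((i, z) :: asg)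
    | _ => false

theorem testBit_spec : ∀ (j : Fin 36) (u : Fin 11), u ∈ blk j →
    (blkMask j).testBit u.val = true := by
  decide +kernel

/-- A true check refutes every labelling that extends the partial assignment. -/
theorem check_sound (lab : Fin 11 → Fin 11) (hlab : ∀ i, lab i ∈ mem i)
    (hq : ∀ j : Fin 36, ∃ u ∈ blk j, ∀ i, lab i = u → 1 < (mem i ∩ blk j).card) :
    ∀ (t : Tree) (asg : List (Fin 11 × Fin 11)), (∀ q ∈ asg, lab q.1 = q.2) →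
      check t asg = true → False := by
  intro t
  induction t with
  | leaf j =>
    intro asg hasg hc
    obtain ⟨u, hu, hi⟩ := hq j
    unfold check leafOK at hc
    rw [List.all_eq_true] at hc
    have h1 := hc u (List.mem_finRange u)
    rw [testBit_spec j u hu] at h1
    simp only [Bool.not_true, Bool.false_or, List.any_eq_true, Bool.and_eq_true,
      decide_eq_true_eq] at h1
    obtain ⟨q, hqa, hqu, hone⟩ := h1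
    have h2 := hasg q hqa
    exact one_spec q.1 j u hone (hi q.1 (by rw [h2, hqu]))
  | node i a b c iha ihb ihc =>
    intro asg hasg hc
    unfold check at hc
    have hm := opts_spec i (lab i) (hlab i)
    split at hc
    · rename_i x y z hopts
      rw [hopts] at hm
      simp only [Bool.and_eq_true] at hc
      obtain ⟨⟨h1, h2⟩, h3⟩ := hc
      simp only [List.mem_cons, List.not_mem_nil, or_false] at hm
      rcases hm with hm | hm | hm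
      · refine iha ((i, x) :: asg) ?_ h1
        intro q hq'
        rcases List.mem_cons.mp hq' with h | h
        · rw [h]; exact hm
        · exact hasg q h
      · refine ihb ((i, y) :: asg) ?_ h2
        intro q hq'
        rcases List.mem_cons.mp hq' with h | h
        · rw [h]; exact hm
        · exact hasg q h
      · refine ihc ((i, z) :: asg) ?_ h3
        intro q hq'
        rcases List.mem_cons.mp hq' with h | h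
        · rw [h]; exact hm
        · exact hasg q h
    · exact Bool.false_ne_true hc

/-- Abbreviations for the certificate. -/
abbrev l (j : Fin 36) : Tree := Tree.leaf j
/-- Abbreviations for the certificate. -/
abbrev n (i : Fin 11) (a b c : Tree) : Tree := Tree.node i a b c

def t0 : Tree :=
  (n 6 (n 8 (n 9 (n 4 (l 0) (n 1 (l 3) (l 7) (n 2 (l 3) (l 7) (l 21))) (l 11)) (n 7 (n 4 (l 0) (n
  1 (n 3 (l 5) (l 6) (n 5 (l 5) (l 25) (l 6))) (l 9) (n 2 (n 3 (l 5) (l 6) (n 5 (l 5) (l 22) (l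
  6))) (l 9) (l 21))) (l 11)) (n 1 (n 3 (l 5) (l 6) (n 5 (l 5) (l 25) (l 6))) (l 9) (n 2 (n 3 (l
  5) (l 6) (n 5 (l 5) (l 27) (l 6))) (l 9) (n 5 (l 26) (l 27) (l 28)))) (l 11)) (l 11)) (n 4 (l 0)
  (n 1 (l 3) (l 7) (n 2 (l 3) (l 7) (l 21))) (l 12)) (n 4 (n 7 (l 0) (n 2 (n 3 (l 5) (l 6) (n 5 (l
  5) (n 1 (n 9 (l 0) (l 25) (l 29)) (l 9) (n 9 (l 0) (l 27) (l 33))) (l 6))) (l 9) (n 1 (n 5 (l 5)
  (n 3 (l 5) (l 6) (n 9 (l 0) (l 25) (l 29))) (l 6)) (l 9) (n 5 (l 26) (n 9 (l 0) (l 27) (l 33))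
  (l 28)))) (l 13)) (n 1 (n 3 (l 5) (l 6) (n 5 (l 5) (n 9 (l 3) (l 25) (l 29)) (l 6))) (l 9) (n 2
  (n 3 (l 5) (l 6) (n 5 (l 5) (n 7 (l 22) (n 9 (l 3) (l 27) (l 33)) (l 13)) (l 6))) (l 9) (n 7 (l
  21) (n 5 (l 26) (n 9 (l 21) (l 27) (l 33)) (l 28)) (l 13)))) (l 13))) (n 4 (n 9 (n 3 (l 0) (l 1)
  (l 22)) (n 7 (n 3 (l 0) (l 1) (l 22)) (n 2 (n 3 (l 5) (l 6) (n 5 (l 5) (n 1 (l 25) (l 9) (l 27))
  (l 6))) (l 9) (n 1 (n 5 (l 5) (n 3 (l 5) (l 6) (l 25)) (l 6)) (l 9) (n 5 (l 26) (l 27) (l 28))))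
  (l 11)) (l 11)) (n 9 (n 1 (n 3 (l 3) (l 4) (l 24)) (l 8) (n 2 (n 3 (l 3) (l 4) (l 22)) (l 8) (l
  22))) (n 1 (n 3 (l 5) (l 6) (n 5 (l 5) (l 25) (l 6))) (l 9) (n 2 (n 3 (l 5) (l 6) (n 7 (l 22) (n
  5 (l 5) (l 27) (l 6)) (l 11))) (l 9) (n 7 (l 22) (n 5 (l 26) (l 27) (l 28)) (l 11)))) (l 11)) (l
  11)) (n 7 (n 4 (n 5 (l 0) (n 3 (l 0) (l 2) (l 22)) (l 2)) (n 1 (n 5 (n 8 (n 9 (l 3) (l 5) (l
  11)) (l 3) (l 5)) (n 3 (n 8 (n 9 (l 3) (l 5) (l 11)) (l 3) (l 5)) (l 6) (n 9 (l 24) (l 25) (l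
  29))) (l 6)) (l 9) (n 2 (n 5 (n 8 (n 9 (l 3) (l 5) (l 11)) (l 3) (l 5)) (n 3 (n 8 (n 9 (l 3) (l
  5) (l 11)) (l 3) (l 5)) (l 6) (l 22)) (l 6)) (l 9) (n 5 (l 21) (l 22) (l 23)))) (l 13)) (n 1 (n
  5 (n 9 (n 4 (l 0) (l 3) (l 13)) (l 5) (n 8 (l 11) (n 4 (l 0) (l 3) (l 13)) (l 5))) (n 3 (n 9 (n
  4 (l 0) (l 3) (l 13)) (l 5) (n 8 (l 11) (n 4 (l 0) (l 3) (l 13)) (l 5))) (l 6) (n 9 (n 4 (l 22)
  (l 24) (l 13)) (l 25) (l 29))) (l 6)) (l 9) (n 2 (n 5 (n 9 (n 4 (l 0) (l 3) (l 13)) (l 5) (n 8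
  (l 11) (n 4 (l 0) (l 3) (l 13)) (l 5))) (n 3 (n 9 (n 4 (l 0) (l 3) (l 13)) (l 5) (n 8 (l 11) (n
  4 (l 0) (l 3) (l 13)) (l 5))) (l 6) (n 9 (l 22) (l 27) (l 33))) (l 6)) (l 9) (n 5 (n 9 (l 21) (l
  26) (n 8 (l 11) (l 21) (l 26))) (n 9 (l 22) (l 27) (l 33)) (l 28)))) (l 13)))

def t1 : Tree :=
  (n 9 (n 3 (l 3) (n 6 (l 3) (n 1 (l 4) (l 8) (n 2 (l 4) (l 8) (l 22))) (n 1 (l 6) (l 9) (n 2 (l
  6) (l 9) (n 5 (l 3) (l 22) (n 7 (l 23) (l 28) (l 13)))))) (n 5 (l 3) (l 24) (n 6 (l 3) (l 24) (n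
  1 (l 6) (l 9) (n 2 (l 6) (l 9) (n 7 (l 23) (l 28) (l 13))))))) (n 3 (l 5) (n 1 (l 6) (l 9) (n 2
  (l 6) (l 9) (n 5 (l 5) (n 7 (l 22) (l 27) (l 33)) (n 7 (n 6 (l 21) (l 22) (l 23)) (l 28) (n 6 (n
  8 (l 11) (l 3) (l 13)) (l 11) (l 13)))))) (n 5 (l 5) (l 25) (n 1 (l 6) (l 9) (n 2 (l 6) (l 9) (n
  7 (n 6 (l 21) (l 22) (l 23)) (l 28) (n 6 (n 8 (l 29) (l 3) (l 13)) (l 29) (l 13))))))) (n 3 (n 8
  (l 14) (l 3) (l 5)) (n 8 (l 11) (n 6 (l 3) (l 11) (n 1 (l 6) (l 9) (n 2 (l 6) (l 9) (n 5 (l 3)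
  (l 33) (n 7 (l 23) (l 28) (l 13)))))) (n 1 (l 6) (l 9) (n 2 (l 6) (l 9) (n 5 (l 5) (l 33) (n 7
  (n 6 (l 21) (l 11) (l 23)) (l 28) (l 13)))))) (n 8 (l 29) (n 5 (l 3) (l 29) (n 6 (l 3) (l 29) (n
  1 (l 6) (l 9) (n 2 (l 6) (l 9) (n 7 (l 23) (l 28) (l 13)))))) (n 5 (l 5) (l 29) (n 1 (l 6) (l 9)
  (n 2 (l 6) (l 9) (n 7 (n 6 (l 21) (l 22) (l 23)) (l 28) (l 13))))))))

def t2 : Tree :=
  (n 4 (n 7 (n 6 (l 0) (n 3 (l 0) (l 1) (l 22)) (n 5 (l 0) (n 3 (l 0) (l 2) (l 22)) (l 2))) (n 9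
  (n 3 (l 0) (n 6 (l 0) (l 1) (n 2 (l 6) (l 9) (n 5 (l 0) (l 22) (n 1 (l 6) (l 9) (l 28))))) (n 5
  (l 0) (l 22) (n 6 (l 0) (l 22) (n 1 (l 6) (l 9) (n 2 (l 6) (l 9) (l 28)))))) (n 5 (l 5) (n 3 (l
  5) (n 2 (l 6) (l 9) (n 1 (l 6) (l 9) (l 27))) (l 25)) (n 2 (l 6) (l 9) (n 1 (l 6) (l 9) (l
  28)))) (n 8 (n 3 (l 14) (l 11) (l 29)) (n 3 (l 0) (n 6 (l 0) (l 11) (n 2 (l 6) (l 9) (n 1 (l 6)
  (l 9) (n 5 (l 0) (l 33) (l 28))))) (n 5 (l 0) (l 29) (n 6 (l 0) (l 29) (n 1 (l 6) (l 9) (n 2 (l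
  6) (l 9) (l 28)))))) (n 3 (l 5) (n 1 (l 6) (l 9) (n 2 (l 6) (l 9) (n 5 (l 5) (l 33) (l 28)))) (n
  5 (l 5) (l 29) (n 1 (l 6) (l 9) (n 2 (l 6) (l 9) (l 28))))))) (n 8 (n 3 (l 14) (l 11) (l 29)) (n
  6 (l 0) (n 3 (l 0) (l 11) (l 29)) (n 5 (l 0) (n 3 (l 0) (l 13) (l 29)) (l 13))) (n 3 (l 16) (l
  13) (n 5 (l 16) (l 29) (l 13))))) t1 (n 8 (n 3 (l 14) (l 11) (l 29)) (n 3 (l 15) (n 6 (l 15) (l
  11) (l 13)) (n 5 (l 15) (l 29) (n 6 (l 15) (l 29) (l 13)))) (n 3 (l 16) (l 13) (n 5 (l 16) (l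
  29) (l 13)))))

def t3 : Tree :=
  (n 7 (n 6 (l 0) (n 3 (l 0) (n 4 (l 1) (n 2 (n 9 (l 4) (l 6) (l 11)) (n 9 (l 8) (l 9) (l 11)) (l
  22)) (l 11)) (l 22)) (n 3 (l 0) (n 4 (l 2) (n 2 (l 6) (l 9) (n 5 (l 0) (l 22) (n 1 (l 6) (l 9)
  (l 23)))) (l 13)) (n 5 (l 0) (l 22) (n 4 (l 2) (n 1 (l 6) (l 9) (n 2 (l 6) (l 9) (l 23))) (l
  13))))) (n 9 (n 6 (l 0) (n 3 (l 0) (n 4 (l 1) (n 2 (l 4) (l 8) (l 22)) (l 11)) (l 22)) (n 3 (l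
  0) (n 2 (l 6) (l 9) (n 5 (l 0) (l 22) (n 1 (l 6) (l 9) (l 28)))) (n 5 (l 0) (l 22) (n 1 (l 6) (l
  9) (n 2 (l 6) (l 9) (l 28)))))) (n 5 (n 2 (l 5) (l 10) (l 26)) (n 3 (n 2 (l 5) (l 10) (l 27)) (n
  2 (l 6) (l 9) (l 27)) (l 27)) (n 2 (l 6) (l 9) (n 1 (l 6) (l 9) (l 28)))) (n 3 (n 8 (l 17) (l 0)
  (n 2 (l 5) (l 10) (n 5 (l 26) (l 33) (n 1 (l 5) (l 9) (l 28))))) (n 8 (l 11) (n 6 (l 0) (l 11)
  (n 2 (l 6) (l 9) (n 5 (l 0) (l 33) (n 1 (l 6) (l 9) (l 28))))) (n 2 (l 6) (l 9) (n 5 (l 26) (l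
  33) (n 1 (l 6) (l 9) (l 28))))) (n 5 (n 8 (l 33) (l 0) (n 2 (l 5) (l 10) (l 26))) (l 33) (n 6 (n
  8 (l 33) (l 0) (n 1 (l 6) (l 9) (n 2 (l 6) (l 9) (l 28)))) (l 33) (n 1 (l 6) (l 9) (n 2 (l 6) (l
  9) (l 28))))))) (n 8 (n 3 (l 17) (l 11) (l 33)) (n 6 (l 0) (n 3 (l 0) (l 11) (l 33)) (n 5 (l 0)
  (n 3 (l 0) (l 13) (l 33)) (l 13))) (n 5 (l 18) (n 3 (l 18) (l 13) (l 33)) (l 13))))

def t4 : Tree :=
  (n 6 (n 2 (l 3) (n 0 (n 4 (l 0) (l 7) (n 8 (l 11) (l 12) (l 13))) (l 3) (l 0)) (n 1 (l 3) (n 0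
  (n 4 (l 21) (l 7) (n 8 (l 11) (l 12) (l 13))) (l 3) (l 21)) (l 21))) (n 3 (n 2 (l 3) (n 0 (n 4
  (l 0) (l 8) (l 11)) (l 3) (l 0)) (n 1 (l 3) (n 0 (n 4 (l 22) (l 8) (l 11)) (l 3) (l 22)) (l
  22))) (n 2 (l 4) (n 4 (l 1) (l 8) (l 11)) (n 1 (l 4) (n 4 (l 22) (l 8) (l 11)) (l 22))) (n 1 (n
  4 (l 22) (l 24) (l 29)) (n 0 (n 4 (l 22) (l 8) (l 11)) (n 4 (l 22) (l 24) (l 29)) (l 22)) (l
  22))) (n 5 (n 2 (l 3) (n 0 (n 4 (l 0) (l 9) (l 13)) (l 3) (l 0)) (n 1 (l 3) (n 0 (n 4 (l 21) (l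
  9) (l 13)) (l 3) (l 21)) (l 21))) (n 3 (n 2 (l 3) (n 0 (n 4 (l 0) (l 9) (l 13)) (l 3) (l 0)) (n
  0 (n 1 (l 3) (n 4 (l 22) (l 9) (l 13)) (l 22)) (l 3) (l 22))) (n 1 (l 6) (n 4 (n 7 (n 2 (l 6) (l
  2) (l 22)) (l 9) (l 13)) (l 9) (l 13)) (n 2 (l 6) (n 4 (n 7 (l 2) (l 9) (l 13)) (l 9) (l 13)) (l
  22))) (n 1 (n 4 (l 22) (l 24) (l 29)) (n 4 (l 22) (n 0 (l 9) (l 24) (l 22)) (n 0 (l 13) (l 29)
  (l 22))) (l 22))) (n 2 (l 6) (n 4 (n 7 (l 2) (l 9) (l 13)) (l 9) (l 13)) (n 1 (l 6) (n 7 (n 4 (l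
  23) (l 9) (l 13)) (l 9) (l 13)) (n 7 (l 23) (l 28) (l 35))))))

def t5 : Tree :=
  (n 3 (n 0 (n 2 (l 5) (n 7 (n 4 (l 0) (l 9) (n 8 (l 11) (n 6 (l 12) (l 11) (l 13)) (l 13))) (l 9)
  (n 8 (l 11) (n 6 (n 4 (l 0) (l 7) (l 12)) (l 11) (l 13)) (l 13))) (n 1 (l 5) (n 4 (n 7 (l 22) (l
  9) (n 6 (n 8 (l 11) (l 21) (l 13)) (l 11) (l 13))) (l 9) (n 6 (n 8 (l 11) (l 12) (l 13)) (l 11)
  (l 13))) (n 7 (l 22) (l 27) (l 33)))) (l 5) (n 2 (l 5) (n 7 (l 0) (l 10) (n 8 (l 17) (l 0) (l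
  18))) (n 7 (l 22) (l 27) (l 33)))) (n 1 (l 6) (n 7 (n 4 (n 2 (l 6) (n 6 (l 0) (l 1) (l 2)) (l
  22)) (l 9) (n 6 (n 8 (l 11) (n 0 (l 12) (l 3) (n 2 (l 3) (l 0) (l 21))) (l 13)) (l 11) (l 13)))
  (l 9) (n 6 (n 8 (l 11) (n 0 (n 4 (n 2 (l 3) (l 0) (l 21)) (l 7) (l 12)) (l 3) (n 2 (l 3) (l 0)
  (l 21))) (l 13)) (l 11) (l 13))) (n 2 (l 6) (n 4 (n 7 (n 6 (l 0) (l 1) (l 2)) (l 9) (n 6 (n 8 (l
  11) (l 0) (l 13)) (l 11) (l 13))) (l 9) (n 8 (l 11) (n 6 (n 0 (l 12) (l 3) (l 0)) (l 11) (l 13))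
  (l 13))) (n 7 (l 22) (l 27) (l 33)))) (n 7 (n 4 (l 22) (n 1 (l 25) (n 0 (l 9) (l 25) (l 22)) (l
  22)) (n 1 (l 29) (n 0 (n 6 (n 8 (l 11) (l 12) (l 13)) (l 11) (l 13)) (l 29) (l 22)) (l 22))) (n
  1 (l 25) (n 0 (l 9) (l 25) (l 27)) (l 27)) (n 1 (l 29) (n 0 (n 6 (n 8 (l 11) (n 4 (n 2 (l 3) (l
  0) (l 21)) (l 7) (l 12)) (l 13)) (l 11) (l 13)) (l 29) (l 33)) (l 33))))

def t6 : Tree :=
  (n 5 (n 2 (l 5) (n 0 (n 7 (n 4 (l 0) (l 9) (n 8 (l 11) (n 6 (l 12) (l 11) (l 13)) (l 13))) (l 9)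
  (n 8 (l 11) (n 6 (n 4 (l 0) (l 7) (l 12)) (l 11) (l 13)) (l 13))) (l 5) (n 7 (l 0) (l 10) (n 8
  (n 3 (l 17) (l 11) (l 33)) (l 0) (l 18)))) (n 0 (n 1 (l 5) (n 7 (n 4 (l 21) (l 9) (n 6 (n 8 (l
  11) (l 12) (l 13)) (l 11) (l 13))) (l 9) (n 8 (l 11) (n 6 (n 4 (l 21) (l 7) (l 12)) (l 11) (l
  13)) (l 13))) (n 7 (l 21) (l 26) (n 8 (l 33) (l 21) (l 34)))) (l 5) (n 7 (l 21) (l 26) (n 8 (l
  33) (l 21) (l 34))))) t5 (n 2 (l 6) (n 7 (n 4 (n 6 (l 0) (n 3 (l 0) (l 1) (l 22)) (l 2)) (l 9)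
  (n 6 (n 0 (n 8 (l 11) (l 12) (l 13)) (n 8 (n 3 (l 5) (l 11) (l 29)) (l 3) (l 13)) (l 0)) (n 0 (l
  11) (n 3 (l 5) (l 11) (l 29)) (n 3 (l 0) (l 11) (l 22))) (l 13))) (l 9) (n 8 (n 0 (l 11) (n 3 (l
  5) (l 11) (l 29)) (n 3 (l 17) (l 11) (l 33))) (n 6 (n 0 (n 4 (l 0) (l 7) (l 12)) (l 3) (l 0)) (n
  0 (l 11) (n 3 (l 3) (l 11) (l 29)) (n 3 (l 0) (l 11) (l 33))) (l 13)) (l 13))) (n 1 (l 6) (n 7
  (n 4 (n 6 (l 21) (l 22) (l 23)) (l 9) (n 6 (n 0 (n 8 (l 11) (l 12) (l 13)) (n 8 (n 3 (l 5) (l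
  11) (l 29)) (l 3) (l 13)) (l 21)) (n 0 (l 11) (n 3 (l 5) (l 11) (l 29)) (l 22)) (l 13))) (l 9)
  (n 6 (n 8 (n 0 (l 11) (n 3 (l 5) (l 11) (l 29)) (l 33)) (n 0 (n 4 (l 21) (l 7) (l 12)) (l 3) (l
  21)) (l 13)) (n 0 (l 11) (n 3 (l 5) (l 11) (l 29)) (l 33)) (l 13))) (n 7 (n 6 (l 21) (l 22) (l
  23)) (l 28) (n 6 (n 8 (l 33) (l 21) (l 35)) (l 33) (l 35))))))

def t7 : Tree :=
  (n 6 (n 2 (l 3) (n 0 (n 4 (l 0) (l 7) (l 12)) (l 3) (l 0)) (n 0 (n 1 (l 3) (n 4 (l 21) (l 7) (l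
  12)) (l 21)) (l 3) (l 21))) (n 1 (n 3 (l 3) (l 20) (l 29)) (n 3 (n 0 (l 11) (l 3) (n 2 (l 3) (l
  0) (l 33))) (l 11) (n 0 (l 11) (l 29) (l 33))) (n 3 (n 2 (l 3) (n 0 (l 11) (l 3) (l 0)) (l 33))
  (n 2 (l 20) (l 11) (l 33)) (l 33))) (n 5 (n 2 (l 3) (n 0 (n 4 (l 0) (l 9) (l 13)) (l 3) (l 0))
  (n 1 (l 3) (n 0 (n 4 (l 21) (l 9) (l 13)) (l 3) (l 21)) (l 21))) (n 3 (n 2 (l 3) (n 0 (n 4 (l 0)
  (l 9) (l 13)) (l 3) (l 0)) (n 0 (n 1 (l 3) (n 4 (n 7 (l 22) (l 9) (l 13)) (l 9) (l 13)) (l 33))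
  (l 3) (l 33))) (n 1 (l 6) (n 4 (n 7 (n 2 (l 6) (l 2) (l 22)) (l 9) (l 13)) (l 9) (l 13)) (n 2 (l
  6) (n 4 (n 7 (l 2) (l 9) (l 13)) (l 9) (l 13)) (l 33))) (n 1 (l 29) (n 0 (n 4 (n 7 (l 22) (l 9)
  (l 13)) (l 9) (l 13)) (l 29) (l 33)) (l 33))) (n 2 (l 6) (n 4 (n 7 (l 2) (l 9) (l 13)) (l 9) (l
  13)) (n 1 (l 6) (n 4 (n 7 (l 23) (l 9) (l 13)) (l 9) (l 13)) (n 7 (l 23) (l 28) (l 35))))))

def t8 : Tree :=
  (n 8 (n 3 (n 2 (l 19) (n 0 (l 11) (l 19) (l 17)) (n 1 (l 19) (n 0 (l 11) (l 19) (l 33)) (l 33)))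
  (n 1 (l 20) (l 11) (n 2 (l 20) (l 11) (l 33))) (n 1 (l 29) (n 0 (l 11) (l 29) (l 33)) (l 33)))
  t7 (n 5 (n 2 (l 5) (n 0 (n 4 (n 7 (l 0) (l 9) (l 13)) (l 9) (l 13)) (l 5) (n 7 (l 0) (l 10) (l
  18))) (n 0 (n 1 (l 5) (n 4 (n 7 (l 21) (l 9) (l 13)) (l 9) (l 13)) (n 7 (l 21) (l 26) (l 34)))
  (l 5) (n 7 (l 21) (l 26) (l 34)))) (n 3 (n 0 (n 2 (l 5) (n 4 (n 7 (l 0) (l 9) (l 13)) (l 9) (l
  13)) (n 1 (l 5) (n 4 (n 7 (l 22) (l 9) (l 13)) (l 9) (l 13)) (l 33))) (l 5) (n 2 (l 5) (n 7 (l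
  0) (l 10) (l 18)) (l 33))) (n 1 (l 6) (n 4 (n 7 (n 2 (l 6) (n 6 (l 0) (l 1) (l 2)) (l 22)) (l 9)
  (l 13)) (l 9) (l 13)) (n 2 (l 6) (n 4 (n 7 (n 6 (l 0) (l 1) (l 2)) (l 9) (l 13)) (l 9) (l 13))
  (l 33))) (n 1 (l 29) (n 0 (n 4 (n 7 (l 22) (l 9) (l 13)) (l 9) (l 13)) (l 29) (l 33)) (l 33)))
  (n 1 (l 6) (n 7 (n 4 (n 2 (l 6) (n 6 (l 0) (n 3 (l 0) (l 1) (l 22)) (l 2)) (n 6 (l 21) (l 22) (l
  23))) (l 9) (l 13)) (l 9) (l 13)) (n 2 (l 6) (n 7 (n 4 (n 6 (l 0) (n 3 (l 0) (l 1) (l 22)) (l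
  2)) (l 9) (l 13)) (l 9) (l 13)) (n 7 (n 6 (l 21) (l 22) (l 23)) (l 28) (l 35))))))

def t9 : Tree :=
  (n 1 (n 4 (n 7 (n 6 (l 21) (l 22) (l 23)) (n 9 (n 6 (l 21) (l 22) (l 6)) (l 6) (n 8 (l 29) (n 6
  (l 21) (l 29) (l 6)) (l 6))) (n 6 (n 8 (l 29) (l 21) (l 32)) (l 29) (l 32))) (n 9 (n 6 (l 3) (n
  3 (l 3) (l 4) (l 24)) (l 6)) (l 6) (n 8 (l 29) (n 6 (l 3) (l 29) (l 6)) (l 6))) (n 8 (l 29) (n 6
  (l 30) (l 29) (l 32)) (l 32))) (n 4 (n 6 (n 7 (l 21) (n 9 (l 21) (l 9) (n 8 (n 0 (l 11) (l 29)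
  (l 33)) (l 21) (l 9))) (n 8 (n 0 (l 11) (l 29) (l 33)) (l 21) (l 13))) (n 7 (l 22) (n 9 (l 22)
  (l 9) (n 0 (l 11) (l 29) (l 33))) (n 0 (l 11) (l 29) (l 33))) (n 7 (l 23) (l 9) (l 13))) (n 6 (n
  9 (n 0 (l 7) (l 3) (l 21)) (l 9) (n 8 (n 0 (l 11) (l 29) (l 33)) (n 0 (l 7) (l 3) (l 21)) (l
  9))) (n 9 (n 0 (l 8) (n 3 (l 3) (l 8) (l 24)) (l 22)) (l 9) (n 0 (l 11) (l 29) (l 33))) (l 9))
  (n 6 (n 8 (n 0 (l 11) (l 29) (n 7 (l 21) (n 9 (l 21) (l 9) (l 33)) (l 33))) (n 0 (l 12) (l 30)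
  (l 21)) (l 13)) (n 0 (l 11) (l 29) (n 9 (l 22) (n 7 (l 22) (l 9) (l 33)) (l 33))) (l 13))) (n 6
  (n 8 (n 7 (l 21) (n 9 (l 21) (n 2 (l 6) (l 9) (l 28)) (l 33)) (l 33)) (l 21) (n 7 (l 21) (n 2 (l
  6) (l 9) (l 28)) (l 35))) (n 7 (l 22) (n 9 (l 22) (n 2 (l 6) (l 9) (l 28)) (l 33)) (l 33)) (n 7
  (l 23) (n 2 (l 6) (l 9) (l 28)) (l 35))))

def t10 : Tree :=
  (n 5 (n 8 (n 9 (n 4 (l 21) (n 0 (n 1 (l 3) (n 6 (l 7) (l 8) (l 9)) (l 21)) (l 3) (l 21)) (n 0 (n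
  1 (l 29) (l 11) (l 21)) (l 29) (l 21))) (n 7 (n 4 (l 21) (n 1 (l 5) (n 0 (l 9) (l 5) (l 21)) (l
  21)) (n 0 (n 1 (l 29) (l 11) (l 21)) (l 29) (l 21))) (n 0 (n 1 (l 5) (l 9) (n 2 (l 5) (l 9) (l
  26))) (l 5) (n 2 (l 5) (l 10) (l 26))) (n 1 (l 29) (n 0 (l 11) (l 29) (l 33)) (l 33))) (n 0 (n 1
  (l 29) (l 11) (l 33)) (l 29) (l 33))) (n 4 (l 21) (n 0 (n 1 (l 3) (n 6 (l 7) (n 9 (l 8) (l 9) (l
  11)) (l 9)) (l 21)) (l 3) (l 21)) (n 0 (n 1 (l 30) (n 6 (l 12) (l 11) (l 13)) (l 21)) (l 30) (l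
  21))) (n 7 (n 4 (l 21) (n 1 (l 5) (n 0 (l 9) (l 5) (l 21)) (l 21)) (n 0 (n 1 (l 31) (l 13) (l
  21)) (l 31) (l 21))) (n 0 (n 1 (l 5) (l 9) (n 2 (l 5) (l 9) (l 26))) (l 5) (n 2 (l 5) (l 10) (l
  26))) (n 0 (n 1 (l 31) (l 13) (l 34)) (l 31) (l 34)))) (n 9 (n 1 (n 4 (l 22) (n 3 (l 3) (n 6 (l
  3) (l 4) (l 6)) (l 24)) (l 29)) (n 4 (l 22) (n 0 (n 6 (l 7) (l 8) (l 9)) (n 3 (l 3) (n 6 (l 3)
  (l 8) (l 9)) (l 24)) (l 22)) (n 0 (n 8 (l 11) (n 6 (l 12) (l 11) (l 13)) (l 13)) (l 29) (l 22)))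
  (l 22)) (n 1 (n 4 (n 7 (l 22) (n 3 (l 5) (l 6) (l 25)) (l 29)) (n 3 (l 5) (l 6) (l 25)) (l 29))
  (n 7 (n 0 (n 4 (l 22) (l 9) (n 6 (n 8 (l 11) (l 12) (l 13)) (l 11) (l 13))) (n 4 (l 22) (n 3 (l
  5) (l 9) (l 25)) (l 29)) (l 22)) (n 0 (l 9) (n 3 (l 5) (l 9) (l 25)) (n 3 (n 2 (l 5) (l 10) (l
  27)) (l 9) (l 27))) (n 0 (n 6 (n 8 (l 11) (n 4 (l 21) (l 7) (l 12)) (l 13)) (l 11) (l 13)) (l
  29) (l 33))) (n 7 (l 22) (n 3 (n 2 (l 5) (n 0 (l 9) (l 5) (l 10)) (l 27)) (n 2 (l 6) (l 9) (l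
  27)) (l 27)) (l 33))) (n 0 (n 1 (l 29) (n 8 (l 11) (n 6 (n 4 (l 21) (l 7) (l 12)) (l 11) (n 4 (n
  7 (l 22) (l 9) (l 13)) (l 9) (l 13))) (n 4 (n 7 (l 22) (l 9) (l 13)) (l 9) (l 13))) (l 33)) (l
  29) (l 33))) t9)

def root : Tree := (n 10 (n 0 t0 t2 t3) (n 9 t4 t6 t8) t10)

set_option maxRecDepth 100000 in
theorem check_root : check root [] = true := by
  decide +kernel

/-- No transversal of the clutter has at most three elements. -/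
theorem transversal_card (B : Finset (Fin 11)) (hB : ∀ X ∈ clut, (X ∩ B).Nonempty) :
    4 ≤ B.card := by
  have h1 : ∀ i : Fin 11, ∃ v ∈ B, v ∈ mem i := by
    intro i
    obtain ⟨v, hv⟩ := hB (mem i) (Finset.mem_image_of_mem _ (Finset.mem_univ i))
    rw [Finset.mem_inter] at hv
    exact ⟨v, hv.2, hv.1⟩
  choose f hf1 hf2 using h1
  have h3 : ∀ v : Fin 11, (Finset.univ.filter (fun i => v ∈ mem i)).card = 3 := by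
    decide +kernel
  have hcard : (Finset.univ : Finset (Fin 11)).card ≤ ∑ v ∈ B,
      (Finset.univ.filter (fun i => v ∈ mem i)).card := by
    have hsub : (Finset.univ : Finset (Fin 11)) ⊆
        B.biUnion (fun v => Finset.univ.filter (fun i => v ∈ mem i)) := by
      intro i _
      rw [Finset.mem_biUnion]
      exact ⟨f i, hf1 i, Finset.mem_filter.mpr ⟨Finset.mem_univ _, hf2 i⟩⟩
    exact le_trans (Finset.card_le_card hsub) Finset.card_biUnion_le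
  rw [Finset.sum_congr rfl (fun v _ => h3 v), Finset.sum_const, Finset.card_univ,
    Fintype.card_fin, smul_eq_mul] at hcard
  omega

/-- The negation of the preceding statement: For every clutter C on a finite set: C is nonideal iff one can pick an element p(X) in each member X and q(Y) in each blocker member Y so that p(X)=q(Y) forces X and Y to share at least two elements. -/
theorem result :
    ¬ (∀ (n : ℕ) (C : Finset (Finset (Fin n))),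
      (∀ X ∈ C, ∀ Y ∈ C, X ⊆ Y → X = Y) →
      ((¬ ∀ w : Fin n → ℝ, (∀ v, 0 ≤ w v) →
          ∀ x : Fin n → ℝ, (∀ v, 0 ≤ x v) → (∀ X ∈ C, 1 ≤ ∑ v ∈ X, x v) →
            ∃ B : Finset (Fin n), (∀ X ∈ C, (X ∩ B).Nonempty) ∧
              ∑ v ∈ B, w v ≤ ∑ v, w v * x v)
        ↔
        ∃ p : Finset (Fin n) → Fin n, ∃ q : Finset (Fin n) → Fin n,
          (∀ X ∈ C, p X ∈ X) ∧
          (∀ Y : Finset (Fin n),
            ((∀ X ∈ C, (X ∩ Y).Nonempty) ∧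
              ∀ Z : Finset (Fin n), Z ⊆ Y → (∀ X ∈ C, (X ∩ Z).Nonempty) → Z = Y) →
            q Y ∈ Y) ∧
          (∀ X ∈ C, ∀ Y : Finset (Fin n),
            ((∀ X' ∈ C, (X' ∩ Y).Nonempty) ∧
              ∀ Z : Finset (Fin n), Z ⊆ Y → (∀ X' ∈ C, (X' ∩ Z).Nonempty) → Z = Y) →
            p X = q Y → 1 < (X ∩ Y).card))) := by
  intro h
  have hcl : ∀ X ∈ clut, ∀ Y ∈ clut, X ⊆ Y → X = Y := by
    intro X hX Y hY hXY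
    obtain ⟨i, -, rfl⟩ := Finset.mem_image.mp hX
    obtain ⟨j, -, rfl⟩ := Finset.mem_image.mp hY
    exact mem_antichain i j hXY
  have h1 := h 11 clut hcl
  have hnon : ¬ ∀ w : Fin 11 → ℝ, (∀ v, 0 ≤ w v) →
          ∀ x : Fin 11 → ℝ, (∀ v, 0 ≤ x v) → (∀ X ∈ clut, 1 ≤ ∑ v ∈ X, x v) →
            ∃ B : Finset (Fin 11), (∀ X ∈ clut, (X ∩ B).Nonempty) ∧
              ∑ v ∈ B, w v ≤ ∑ v, w v * x v := by
    intro hideal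
    have hc3 : ∀ i : Fin 11, (mem i).card = 3 := by decide +kernel
    obtain ⟨B, hB, hsum⟩ := hideal (fun _ => 1) (fun _ => zero_le_one) (fun _ => 1 / 3)
      (fun _ => by norm_num) (by
        intro X hX
        obtain ⟨i, -, rfl⟩ := Finset.mem_image.mp hX
        rw [Finset.sum_const, hc3 i]
        norm_num)
    have h4 := transversal_card B hB
    have h4' : (4 : ℝ) ≤ (B.card : ℝ) := by exact_mod_cast h4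
    rw [Finset.sum_const, Finset.sum_const, Finset.card_univ, Fintype.card_fin] at hsum
    norm_num at hsum
    linarith
  obtain ⟨p, q, hp, hq, hpq⟩ := h1.mp hnon
  refine check_sound (fun i => p (mem i)) (fun i => hp (mem i)
    (Finset.mem_image_of_mem _ (Finset.mem_univ i))) ?_ root [] (by simp) check_root
  intro j
  have hmin : (∀ X ∈ clut, (X ∩ blk j).Nonempty) ∧
      ∀ Z : Finset (Fin 11), Z ⊆ blk j → (∀ X ∈ clut, (X ∩ Z).Nonempty) → Z = blk j := by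
    constructor
    · intro X hX
      obtain ⟨i, -, rfl⟩ := Finset.mem_image.mp hX
      exact blk_cover j i
    · intro Z hZ hcov
      apply Finset.Subset.antisymm hZ
      intro u hu
      obtain ⟨i, hi⟩ := blk_private j u hu
      obtain ⟨v, hv⟩ := hcov (mem i) (Finset.mem_image_of_mem _ (Finset.mem_univ i))
      rw [Finset.mem_inter] at hv
      have hv2 : v ∈ mem i ∩ blk j := Finset.mem_inter.mpr ⟨hv.1, hZ hv.2⟩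
      rw [hi, Finset.mem_singleton] at hv2
      rw [← hv2]
      exact hv.2
  refine ⟨q (blk j), hq (blk j) hmin, ?_⟩
  intro i hi
  exact hpq (mem i) (Finset.mem_image_of_mem _ (Finset.mem_univ i)) (blk j) hmin hi

end Pool.Agent.S10096
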