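import Pool.Statements.S11126
import Mathlib

set_option autoImplicit false
open Pool Pool.MP_bd5289_co

namespace Pool.Agent.S11126

/-! A counterexample to the inverse domination conjecture, with 38 vertices.

The vertices are `d 0, …, d 6` (a clique `D`), `q 1, …, q 6` (a clique, `q j` joined to `d j`), a
vertex `v` joined to `d 0` only, and three gadgets with eight vertices each.  The gadget `i` is the
complement of the triangle-free graph `H` on `0, …, 7` with edges `01`, `23`, `40`, `42`, `50`,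
`53`, `61`, `62`, `71`, `73`; its vertices `0, 1` are joined to `d (2i+1)`, its vertices `2, 3` to
`d (2i+2)`, and its vertices `4, 5, 6, 7` to `d 0`.

The set `D` is the only dominating set with at most 7 vertices, independent sets have at most 9
vertices, and dominating sets disjoint from `D` have at least 10 vertices. -/

/-- the vertex type -/
abbrev V : Type := Fin 7 ⊕ (Fin 6 ⊕ (Unit ⊕ (Fin 3 × Fin 8)))

/-- the triangle-free graph `H` on `Fin 8`, as a Boolean relation -/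
def hB (a b : Fin 8) : Bool :=
  (a == 0 && b == 1) || (a == 1 && b == 0) || (a == 2 && b == 3) || (a == 3 && b == 2) ||
  (a == 4 && b == 0) || (a == 0 && b == 4) || (a == 4 && b == 2) || (a == 2 && b == 4) ||
  (a == 5 && b == 0) || (a == 0 && b == 5) || (a == 5 && b == 3) || (a == 3 && b == 5) ||
  (a == 6 && b == 1) || (a == 1 && b == 6) || (a == 6 && b == 2) || (a == 2 && b == 6) ||
  (a == 7 && b == 1) || (a == 1 && b == 7) || (a == 7 && b == 3) || (a == 3 && b == 7)

/-- adjacency inside a gadget: the complement of `H` -/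
def cB (a b : Fin 8) : Bool := a != b && !hB a b

/-- the index of the vertex of `D` to which a gadget vertex is joined -/
def cls (i : Fin 3) (c : Fin 8) : Fin 7 :=
  if c.val < 2 then ⟨2 * i.val + 1, by omega⟩
  else if c.val < 4 then ⟨2 * i.val + 2, by omega⟩ else 0

/-- adjacency, as a Boolean relation -/
def adjB : V → V → Bool
  | .inl a, .inl b => a != b
  | .inl a, .inr (.inl b) => a == b.succ
  | .inl a, .inr (.inr (.inl _)) => a == 0
  | .inl a, .inr (.inr (.inr (i, c))) => a == cls i c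
  | .inr (.inl b), .inl a => a == b.succ
  | .inr (.inr (.inl _)), .inl a => a == 0
  | .inr (.inr (.inr (i, c))), .inl a => a == cls i c
  | .inr (.inl a), .inr (.inl b) => a != b
  | .inr (.inr (.inr (i, c))), .inr (.inr (.inr (j, e))) => i == j && cB c e
  | _, _ => false

lemma adjB_symm : ∀ u v : V, adjB u v = adjB v u := by decide +kernel

lemma adjB_irrefl : ∀ u : V, adjB u u = false := by decide +kernel

/-- the graph -/
def G : SimpleGraph V where
  Adj u v := adjB u v = true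
  symm := ⟨fun u v h => by rw [adjB_symm]; exact h⟩
  loopless := ⟨fun u h => by rw [adjB_irrefl u] at h; exact Bool.false_ne_true h⟩

abbrev vd (a : Fin 7) : V := .inl a
abbrev vq (a : Fin 6) : V := .inr (.inl a)
abbrev vv : V := .inr (.inr (.inl ()))
abbrev vc (i : Fin 3) (c : Fin 8) : V := .inr (.inr (.inr (i, c)))

/-- the part of `Z` in the gadget `i` -/
def part (Z : Finset V) (i : Fin 3) : Finset (Fin 8) := Finset.univ.filter fun c => vc i c ∈ Z

lemma mem_part (Z : Finset V) (i : Fin 3) (c : Fin 8) : c ∈ part Z i ↔ vc i c ∈ Z := by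
  simp [part]

/-- the cardinality of a set of vertices, split into the parts of the graph -/
lemma card_split (Z : Finset V) :
    Z.card = (∑ a : Fin 7, if vd a ∈ Z then 1 else 0) + (∑ b : Fin 6, if vq b ∈ Z then 1 else 0)
      + (if vv ∈ Z then 1 else 0)
      + ((part Z 0).card + (part Z 1).card + (part Z 2).card) := by
  have h : Z.card = ∑ u : V, if u ∈ Z then 1 else 0 := by
    rw [Finset.sum_ite_mem, Finset.univ_inter, Finset.card_eq_sum_ones]
  have hp : ∀ i, (part Z i).card = ∑ c : Fin 8, if vc i c ∈ Z then 1 else 0 := by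
    intro i
    rw [part, Finset.card_filter]
  rw [h, Fintype.sum_sum_type, Fintype.sum_sum_type, Fintype.sum_sum_type, Fintype.sum_prod_type,
    Fin.sum_univ_three, hp 0, hp 1, hp 2]
  simp only [Finset.univ_unique, Finset.sum_singleton]
  simp only [add_assoc]

/-- domination inside a gadget -/
def dom8 (T : Finset (Fin 8)) (c : Fin 8) : Prop := c ∈ T ∨ ∃ e ∈ T, cB c e = true

instance (T : Finset (Fin 8)) (c : Fin 8) : Decidable (dom8 T c) := by
  unfold dom8; infer_instance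

lemma fact1 : ∀ T : Finset (Fin 8), (dom8 T 0 ∨ dom8 T 2 ∨ dom8 T 4) → 1 ≤ T.card := by
  decide +kernel

lemma fact2 : ∀ T : Finset (Fin 8), dom8 T 0 → dom8 T 1 → dom8 T 2 → dom8 T 3 →
    2 ≤ T.card := by
  decide +kernel

lemma fact3 : ∀ T : Finset (Fin 8), dom8 T 0 → dom8 T 1 → dom8 T 4 → dom8 T 5 → dom8 T 6 →
    dom8 T 7 → 2 ≤ T.card := by
  decide +kernel

lemma fact4 : ∀ T : Finset (Fin 8), dom8 T 2 → dom8 T 3 → dom8 T 4 → dom8 T 5 → dom8 T 6 →
    dom8 T 7 → 2 ≤ T.card := by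
  decide +kernel

lemma fact5 : ∀ T : Finset (Fin 8), (∀ c, dom8 T c) →
    1 + (if 0 ∈ T ∨ 1 ∈ T then 1 else 0) + (if 2 ∈ T ∨ 3 ∈ T then 1 else 0) ≤ T.card := by
  decide +kernel

lemma fact6 : ∀ T : Finset (Fin 8), (∀ c ∈ T, ∀ e ∈ T, cB c e = false) → T.card ≤ 2 := by
  decide +kernel

/-- `Z` is a dominating set -/
def Dom (Z : Finset V) : Prop := ∀ v : V, v ∈ Z ∨ ∃ u ∈ Z, G.Adj v u

lemma dom_gadget {Z : Finset V} (hZ : Dom Z) (i : Fin 3) (c : Fin 8) (hc : vd (cls i c) ∉ Z) :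
    dom8 (part Z i) c := by
  rcases hZ (vc i c) with h | ⟨u, hu, hadj⟩
  · exact Or.inl ((mem_part Z i c).2 h)
  · change adjB (vc i c) u = true at hadj
    rcases u with a | b | w | ⟨j, e⟩
    · have : a = cls i c := by simpa [adjB] using hadj
      subst this
      exact absurd hu hc
    · simp [adjB] at hadj
    · simp [adjB] at hadj
    · simp only [adjB, Bool.and_eq_true, beq_iff_eq] at hadj
      obtain ⟨rfl, h⟩ := hadj
      exact Or.inr ⟨e, (mem_part Z i e).2 hu, h⟩

lemma dom_q {Z : Finset V} (hZ : Dom Z) (b : Fin 6) (hb : vd b.succ ∉ Z) :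
    ∃ b', vq b' ∈ Z := by
  rcases hZ (vq b) with h | ⟨u, hu, hadj⟩
  · exact ⟨b, h⟩
  · change adjB (vq b) u = true at hadj
    rcases u with a | b' | w | ⟨j, e⟩
    · have : a = b.succ := by simpa [adjB] using hadj
      subst this
      exact absurd hu hb
    · exact ⟨b', hu⟩
    · simp [adjB] at hadj
    · simp [adjB] at hadj

lemma dom_v {Z : Finset V} (hZ : Dom Z) (h0 : vd 0 ∉ Z) : vv ∈ Z := by
  rcases hZ vv with h | ⟨u, hu, hadj⟩
  · exact h
  · change adjB vv u = true at hadj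
    rcases u with a | b' | w | ⟨j, e⟩
    · have : a = 0 := by simpa [adjB] using hadj
      subst this
      exact absurd hu h0
    · simp [adjB] at hadj
    · simp [adjB] at hadj
    · simp [adjB] at hadj

lemma cls01 (i : Fin 3) : cls i 0 = cls i 1 := rfl
lemma cls23 (i : Fin 3) : cls i 2 = cls i 3 := rfl
lemma clsz (i : Fin 3) (c : Fin 8) (hc : 4 ≤ c.val) : cls i c = 0 := by
  unfold cls
  rw [if_neg (by omega), if_neg (by omega)]

/-- the four constraints on a gadget -/
lemma gadget_bounds {Z : Finset V} (hZ : Dom Z) (i : Fin 3) :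
    1 ≤ (part Z i).card + (if vd 0 ∈ Z then 1 else 0) ∧
    2 ≤ (part Z i).card + (if vd (cls i 0) ∈ Z then 1 else 0) + (if vd (cls i 2) ∈ Z then 1 else 0) ∧
    2 ≤ (part Z i).card + (if vd 0 ∈ Z then 1 else 0) + (if vd (cls i 0) ∈ Z then 1 else 0) ∧
    2 ≤ (part Z i).card + (if vd 0 ∈ Z then 1 else 0) + (if vd (cls i 2) ∈ Z then 1 else 0) := by
  have hz : vd 0 ∉ Z → ∀ c : Fin 8, 4 ≤ c.val → dom8 (part Z i) c := by
    intro h0 c hc
    refine dom_gadget hZ i c ?_
    rw [clsz i c hc]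
    exact h0
  have ha : vd (cls i 0) ∉ Z → dom8 (part Z i) 0 ∧ dom8 (part Z i) 1 := fun h =>
    ⟨dom_gadget hZ i 0 h, dom_gadget hZ i 1 h⟩
  have hb : vd (cls i 2) ∉ Z → dom8 (part Z i) 2 ∧ dom8 (part Z i) 3 := fun h =>
    ⟨dom_gadget hZ i 2 h, dom_gadget hZ i 3 h⟩
  by_cases h0 : vd 0 ∈ Z <;> by_cases h1 : vd (cls i 0) ∈ Z <;> by_cases h2 : vd (cls i 2) ∈ Z
  · simp [h0, h1, h2]
  · have := fact1 _ (Or.inr (Or.inl (hb h2).1))
    simp only [h0, h1, h2, if_true, if_false]
    omega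
  · have := fact1 _ (Or.inl (ha h1).1)
    simp only [h0, h1, h2, if_true, if_false]
    omega
  · have := fact2 _ (ha h1).1 (ha h1).2 (hb h2).1 (hb h2).2
    simp only [h0, h1, h2, if_true, if_false]
    omega
  · have := fact1 _ (Or.inr (Or.inr (hz h0 4 (by decide))))
    simp only [h0, h1, h2, if_true, if_false]
    omega
  · have := fact4 _ (hb h2).1 (hb h2).2 (hz h0 4 (by decide)) (hz h0 5 (by decide))
      (hz h0 6 (by decide)) (hz h0 7 (by decide))
    simp only [h0, h1, h2, if_true, if_false]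
    omega
  · have := fact3 _ (ha h1).1 (ha h1).2 (hz h0 4 (by decide)) (hz h0 5 (by decide))
      (hz h0 6 (by decide)) (hz h0 7 (by decide))
    simp only [h0, h1, h2, if_true, if_false]
    omega
  · have := fact4 _ (hb h2).1 (hb h2).2 (hz h0 4 (by decide)) (hz h0 5 (by decide))
      (hz h0 6 (by decide)) (hz h0 7 (by decide))
    simp only [h0, h1, h2, if_true, if_false]
    omega

lemma arith (e0 e1 e2 e3 e4 e5 e6 nq nv t0 t1 t2 : ℕ)
    (h0 : e0 ≤ 1) (h1 : e1 ≤ 1) (h2 : e2 ≤ 1) (h3 : e3 ≤ 1) (h4 : e4 ≤ 1) (h5 : e5 ≤ 1)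
    (h6 : e6 ≤ 1)
    (q1 : 1 ≤ nq + e1) (q2 : 1 ≤ nq + e2) (q3 : 1 ≤ nq + e3) (q4 : 1 ≤ nq + e4)
    (q5 : 1 ≤ nq + e5) (q6 : 1 ≤ nq + e6) (hv : 1 ≤ nv + e0)
    (a0 : 1 ≤ t0 + e0) (b0 : 2 ≤ t0 + e1 + e2) (c0 : 2 ≤ t0 + e0 + e1) (d0 : 2 ≤ t0 + e0 + e2)
    (a1 : 1 ≤ t1 + e0) (b1 : 2 ≤ t1 + e3 + e4) (c1 : 2 ≤ t1 + e0 + e3) (d1 : 2 ≤ t1 + e0 + e4)
    (a2 : 1 ≤ t2 + e0) (b2 : 2 ≤ t2 + e5 + e6) (c2 : 2 ≤ t2 + e0 + e5) (d2 : 2 ≤ t2 + e0 + e6)
    (htot : (e0 + e1 + e2 + e3 + e4 + e5 + e6) + nq + nv + (t0 + t1 + t2) ≤ 7) :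
    e0 = 1 ∧ e1 = 1 ∧ e2 = 1 ∧ e3 = 1 ∧ e4 = 1 ∧ e5 = 1 ∧ e6 = 1 := by
  have hq : 1 ≤ nq ∨ (e1 = 1 ∧ e2 = 1 ∧ e3 = 1 ∧ e4 = 1 ∧ e5 = 1 ∧ e6 = 1) := by omega
  rcases Nat.le_one_iff_eq_zero_or_eq_one.1 h0 with rfl | rfl
  · exfalso
    rcases hq with hq | ⟨rfl, rfl, rfl, rfl, rfl, rfl⟩
    · omega
    · omega
  · rcases hq with hq | ⟨rfl, rfl, rfl, rfl, rfl, rfl⟩
    · exfalso
      omega
    · omega

/-- a dominating set with at most 7 vertices contains `D` -/
lemma all_d {Z : Finset V} (hZ : Dom Z) (hcard : Z.card ≤ 7) (a : Fin 7) : vd a ∈ Z := by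
  have hs := card_split Z
  rw [Fin.sum_univ_seven] at hs
  obtain ⟨a0, b0, c0, d0⟩ := gadget_bounds hZ 0
  obtain ⟨a1, b1, c1, d1⟩ := gadget_bounds hZ 1
  obtain ⟨a2, b2, c2, d2⟩ := gadget_bounds hZ 2
  have le1 : ∀ v : V, (if v ∈ Z then 1 else 0) ≤ 1 := by
    intro v; split <;> omega
  have hq : ∀ b : Fin 6, 1 ≤ (∑ b : Fin 6, if vq b ∈ Z then 1 else 0) +
      (if vd b.succ ∈ Z then 1 else 0) := by
    intro b
    by_cases h : vd b.succ ∈ Z
    · simp only [h, if_true]; omega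
    · obtain ⟨b', hb'⟩ := dom_q hZ b h
      have : (if vq b' ∈ Z then 1 else 0) ≤ ∑ b : Fin 6, if vq b ∈ Z then 1 else 0 :=
        Finset.single_le_sum (f := fun b : Fin 6 => if vq b ∈ Z then 1 else 0)
          (fun _ _ => Nat.zero_le _) (Finset.mem_univ b')
      rw [if_pos hb'] at this
      omega
  have hv : 1 ≤ (if vv ∈ Z then 1 else 0) + (if vd 0 ∈ Z then 1 else 0) := by
    by_cases h : vd 0 ∈ Z
    · simp only [h, if_true]; omega
    · simp only [dom_v hZ h, if_true]; omega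
  have key := arith _ _ _ _ _ _ _ _ _ _ _ _ (le1 (vd 0)) (le1 (vd 1)) (le1 (vd 2)) (le1 (vd 3))
    (le1 (vd 4)) (le1 (vd 5)) (le1 (vd 6)) (hq 0) (hq 1) (hq 2) (hq 3) (hq 4) (hq 5) hv
    a0 b0 c0 d0 a1 b1 c1 d1 a2 b2 c2 d2 (by rw [← hs]; exact hcard)
  have conv : ∀ v : V, (if v ∈ Z then 1 else 0) = 1 → v ∈ Z := by
    intro v h
    by_contra hv
    simp [hv] at h
  obtain ⟨k0, k1, k2, k3, k4, k5, k6⟩ := key
  fin_cases a
  · exact conv _ k0
  · exact conv _ k1
  · exact conv _ k2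
  · exact conv _ k3
  · exact conv _ k4
  · exact conv _ k5
  · exact conv _ k6

/-- the vertex `q (2i+1)` -/
def qa (i : Fin 3) : Fin 6 := ⟨2 * i.val, by omega⟩
/-- the vertex `q (2i+2)` -/
def qb (i : Fin 3) : Fin 6 := ⟨2 * i.val + 1, by omega⟩

lemma nbA1 : ∀ (i : Fin 3) (b : Fin 6), adjB (vd (cls i 0)) (vq b) = true → b = qa i := by
  decide +kernel
lemma nbA2 : ∀ (i : Fin 3), adjB (vd (cls i 0)) vv = false := by
  decide +kernel
lemma nbA3 : ∀ (i j : Fin 3) (e : Fin 8), adjB (vd (cls i 0)) (vc j e) = true →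
    i = j ∧ (e = 0 ∨ e = 1) := by
  decide +kernel
lemma nbB1 : ∀ (i : Fin 3) (b : Fin 6), adjB (vd (cls i 2)) (vq b) = true → b = qb i := by
  decide +kernel
lemma nbB2 : ∀ (i : Fin 3), adjB (vd (cls i 2)) vv = false := by
  decide +kernel
lemma nbB3 : ∀ (i j : Fin 3) (e : Fin 8), adjB (vd (cls i 2)) (vc j e) = true →
    i = j ∧ (e = 2 ∨ e = 3) := by
  decide +kernel

/-- a dominating set that avoids `D` has at least 10 vertices -/
lemma ten_le {S : Finset V} (hS : Dom S) (hd : ∀ a, vd a ∉ S) : 10 ≤ S.card := by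
  have hs := card_split S
  have hfull : ∀ (i : Fin 3) (c : Fin 8), dom8 (part S i) c := fun i c =>
    dom_gadget hS i c (hd _)
  -- every class is hit
  have hit : ∀ a : Fin 7, ∃ u ∈ S, adjB (vd a) u = true := by
    intro a
    rcases hS (vd a) with h | h
    · exact absurd h (hd a)
    · exact h
  have hitA : ∀ i : Fin 3, 1 ≤ (if vq (qa i) ∈ S then 1 else 0) +
      (if 0 ∈ part S i ∨ 1 ∈ part S i then 1 else 0) := by
    intro i
    obtain ⟨u, hu, hadj⟩ := hit (cls i 0)
    rcases u with a | b | w | ⟨j, e⟩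
    · exact absurd hu (hd a)
    · rw [nbA1 i b hadj] at hu
      rw [if_pos hu]; omega
    · rw [nbA2 i] at hadj
      exact absurd hadj (by decide)
    · obtain ⟨rfl, rfl | rfl⟩ := nbA3 i j e hadj
      · rw [if_pos (Or.inl ((mem_part S i 0).2 hu))]; omega
      · rw [if_pos (Or.inr ((mem_part S i 1).2 hu))]; omega
  have hitB : ∀ i : Fin 3, 1 ≤ (if vq (qb i) ∈ S then 1 else 0) +
      (if 2 ∈ part S i ∨ 3 ∈ part S i then 1 else 0) := by
    intro i
    obtain ⟨u, hu, hadj⟩ := hit (cls i 2)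
    rcases u with a | b | w | ⟨j, e⟩
    · exact absurd hu (hd a)
    · rw [nbB1 i b hadj] at hu
      rw [if_pos hu]; omega
    · rw [nbB2 i] at hadj
      exact absurd hadj (by decide)
    · obtain ⟨rfl, rfl | rfl⟩ := nbB3 i j e hadj
      · rw [if_pos (Or.inl ((mem_part S i 2).2 hu))]; omega
      · rw [if_pos (Or.inr ((mem_part S i 3).2 hu))]; omega
  have g0 := fact5 _ (hfull 0)
  have g1 := fact5 _ (hfull 1)
  have g2 := fact5 _ (hfull 2)
  have A0 := hitA 0
  have A1 := hitA 1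
  have A2 := hitA 2
  have B0 := hitB 0
  have B1 := hitB 1
  have B2 := hitB 2
  have hv : vv ∈ S := dom_v hS (hd 0)
  rw [Fin.sum_univ_six, if_pos hv] at hs
  have e0 : qa 0 = 0 := rfl
  have e1 : qb 0 = 1 := rfl
  have e2 : qa 1 = 2 := rfl
  have e3 : qb 1 = 3 := rfl
  have e4 : qa 2 = 4 := rfl
  have e5 : qb 2 = 5 := rfl
  rw [e0] at A0
  rw [e1] at B0
  rw [e2] at A1
  rw [e3] at B1
  rw [e4] at A2
  rw [e5] at B2
  omega

/-- independent sets have at most 9 vertices -/
lemma indep_le {I : Finset V} (hI : ∀ u ∈ I, ∀ v ∈ I, adjB u v = false) : I.card ≤ 9 := by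
  have hs := card_split I
  have one : ∀ {n : ℕ} (f : Fin n → V), (∀ a b, a ≠ b → adjB (f a) (f b) = true) →
      (∑ a : Fin n, if f a ∈ I then 1 else 0) ≤ 1 := by
    intro n f hf
    rw [← Finset.card_filter]
    refine Finset.card_le_one.2 ?_
    intro a ha b hb
    by_contra hne
    have h1 := hf a b hne
    rw [hI _ (Finset.mem_filter.1 ha).2 _ (Finset.mem_filter.1 hb).2] at h1
    exact Bool.false_ne_true h1
  have h1 := one vd (by decide +kernel)
  have h2 := one vq (by decide +kernel)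
  have h3 : ∀ i, (part I i).card ≤ 2 := by
    intro i
    refine fact6 _ ?_
    intro c hc e he
    have := hI _ ((mem_part I i c).1 hc) _ ((mem_part I i e).1 he)
    simpa [adjB] using this
  have h4 : (if vv ∈ I then 1 else 0) ≤ 1 := by split <;> omega
  have := h3 0
  have := h3 1
  have := h3 2
  omega

/-- The set `D`. -/
def setD : Finset V := Finset.univ.image vd

lemma dom_setD : Dom setD := by
  intro v
  rcases v with a | b | w | ⟨j, e⟩
  · exact Or.inl (Finset.mem_image_of_mem _ (Finset.mem_univ _))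
  · refine Or.inr ⟨vd b.succ, Finset.mem_image_of_mem _ (Finset.mem_univ _), ?_⟩
    change adjB (vq b) (vd b.succ) = true
    simp [adjB]
  · refine Or.inr ⟨vd 0, Finset.mem_image_of_mem _ (Finset.mem_univ _), ?_⟩
    change adjB vv (vd 0) = true
    simp [adjB]
  · refine Or.inr ⟨vd (cls j e), Finset.mem_image_of_mem _ (Finset.mem_univ _), ?_⟩
    change adjB (vc j e) (vd (cls j e)) = true
    simp [adjB]

/-- The negation of the preceding statement: Every finite graph without isolated vertices has a minimum dominating set D and a dominating set S disjoint from D whose size is at most the size of some independent set, i.e. inverse domination number ≤ independence number. -/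
theorem result :
    ¬ (∀ (V : Type) [Fintype V] (G : SimpleGraph V),
      (∀ v : V, ∃ u : V, G.Adj v u) →
      ∃ D S : Finset V,
        (∀ v : V, v ∈ D ∨ ∃ u ∈ D, G.Adj v u) ∧
        (∀ D' : Finset V, (∀ v : V, v ∈ D' ∨ ∃ u ∈ D', G.Adj v u) → D.card ≤ D'.card) ∧
        Disjoint S D ∧
        (∀ v : V, v ∈ S ∨ ∃ u ∈ S, G.Adj v u) ∧
        ∃ I : Finset V, G.IsIndepSet (I : Set V) ∧ S.card ≤ I.card) := by
  intro h
  have hiso : ∀ v : V, ∃ u : V, G.Adj v u := by
    intro v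
    have : ∀ v : V, ∃ u : V, adjB v u = true := by decide +kernel
    exact this v
  obtain ⟨D, S, hD, hmin, hdis, hS, I, hI, hle⟩ := h V G hiso
  have hD7 : D.card ≤ 7 := by
    refine (hmin setD dom_setD).trans ?_
    exact Finset.card_image_le
  have hall := all_d hD hD7
  have hd : ∀ a, vd a ∉ S := fun a ha =>
    (Finset.disjoint_left.1 hdis ha) (hall a)
  have h10 := ten_le hS hd
  have h9 : I.card ≤ 9 := by
    refine indep_le ?_
    intro u hu v hv
    by_cases huv : u = v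
    · subst huv
      exact adjB_irrefl u
    · have := hI (Finset.mem_coe.2 hu) (Finset.mem_coe.2 hv) huv
      exact Bool.eq_false_iff.2 this
  omega

end Pool.Agent.S11126
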