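import Pool.Statements.S11613
import Pool.Agent.OddGr75.Final

set_option autoImplicit false
open Pool Pool.MP_d22128_co

namespace Pool.Agent.S11613

/-- For every k ≥ 2, if the edges of the odd graph O_k (k-1 subsets of a 2k-1 set, adjacent when disjoint, k-regular) cannot be properly coloured with k colours, then k = 3 or k is a power of 2. -/
theorem result :
    ∀ k : ℕ, 2 ≤ k →
      ¬ (SimpleGraph.fromRel
            (fun s t : {s : Finset (Fin (2 * k - 1)) // s.card = k - 1} =>
              Disjoint s.1 t.1)).lineGraph.Colorable k →
      k = 3 ∨ ∃ n : ℕ, k = 2 ^ n :=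
  fun k hk hc => OddGr75.final k hk hc

end Pool.Agent.S11613
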