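import Pool.Statements.S11707
-- import your own Pool.Agent.* helpers here

set_option autoImplicit false
open Classical
open Pool Pool.MP_d61016_co

namespace Pool.Agent.S11707

section general
variable {V W : Type*} [DecidableEq V] [DecidableEq W]

/-- The parity of the signs between the two sides of a finite set. -/
def Q (side : V → Bool) (D : V → V → ZMod 2) (e : Finset V) : ZMod 2 :=
  ∑ x ∈ e.filter (fun x => side x = false), ∑ y ∈ e.filter (fun y => side y = true), D x y

/-- Two vertices on each side and odd parity. -/
def IsH (side : V → Bool) (D : V → V → ZMod 2) (e : Finset V) : Prop :=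
  (e.filter (fun x => side x = false)).card = 2 ∧ (e.filter (fun x => side x = true)).card = 2 ∧
    Q side D e = 1

omit [DecidableEq V] in
lemma filter_image_side (side : V → Bool) (side' : W → Bool) (f : V → W) (e : Finset V)
    (τ : Bool) (hs : ∀ x ∈ e, side' (f x) = xor τ (side x)) (c : Bool) :
    (e.image f).filter (fun x => side' x = c) = (e.filter (fun x => side x = xor τ c)).image f := by
  ext z
  simp only [Finset.mem_filter, Finset.mem_image]
  constructor
  · rintro ⟨⟨x, hx, rfl⟩, hz⟩
    refine ⟨x, ⟨hx, ?_⟩, rfl⟩
    rw [hs x hx] at hz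
    revert hz; cases τ <;> cases side x <;> cases c <;> simp
  · rintro ⟨x, ⟨hx, hc⟩, rfl⟩
    refine ⟨⟨x, hx, rfl⟩, ?_⟩
    rw [hs x hx, hc]
    cases τ <;> cases c <;> simp

lemma two_nsmul_zmod (z : ZMod 2) : (2 : ℕ) • z = 0 := by
  have h2 : (2 : ZMod 2) = 0 := rfl
  rw [nsmul_eq_mul]; push_cast; rw [h2, zero_mul]

lemma isH_image (side : V → Bool) (D : V → V → ZMod 2) (side' : W → Bool) (D' : W → W → ZMod 2)
    (hD' : ∀ x y, D' x y = D' y x) (f : V → W) (e : Finset V) (hf : Set.InjOn f e) (τ : Bool)
    (hs : ∀ x ∈ e, side' (f x) = xor τ (side x)) (κ : V → ZMod 2)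
    (hκ : ∀ x ∈ e, ∀ y ∈ e, side x = false → side y = true →
      D' (f x) (f y) = D x y + κ x + κ y) :
    IsH side D e ↔ IsH side' D' (e.image f) := by
  have hcard : ∀ c, ((e.image f).filter (fun x => side' x = c)).card =
      (e.filter (fun x => side x = xor τ c)).card := by
    intro c
    rw [filter_image_side side side' f e τ hs c]
    apply Finset.card_image_of_injOn
    intro a ha b hb hab
    simp only [Finset.coe_filter, Set.mem_ofPred_eq] at ha hb
    exact hf ha.1 hb.1 hab
  have hinj : ∀ c, Set.InjOn f (e.filter (fun x => side x = c) : Finset V) := by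
    intro c a ha b hb hab
    simp only [Finset.coe_filter, Set.mem_ofPred_eq] at ha hb
    exact hf ha.1 hb.1 hab
  have key : (e.filter (fun x => side x = false)).card = 2 →
      (e.filter (fun x => side x = true)).card = 2 → Q side' D' (e.image f) = Q side D e := by
    intro hF hT
    have e1 : ∑ x ∈ e.filter (fun x => side x = false), ∑ y ∈ e.filter (fun y => side y = true),
        D' (f x) (f y) = Q side D e := by
      have h3 : ∀ x ∈ e.filter (fun x => side x = false), ∑ y ∈ e.filter (fun y => side y = true),
          D' (f x) (f y) = (∑ y ∈ e.filter (fun y => side y = true), D x y) +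
            ∑ y ∈ e.filter (fun y => side y = true), κ y := by
        intro x hx
        rw [Finset.mem_filter] at hx
        have h4 : ∀ y ∈ e.filter (fun y => side y = true), D' (f x) (f y) = D x y + κ y + κ x := by
          intro y hy
          rw [Finset.mem_filter] at hy
          rw [hκ x hx.1 y hy.1 hx.2 hy.2]; ring
        rw [Finset.sum_congr rfl h4, Finset.sum_add_distrib, Finset.sum_add_distrib,
          Finset.sum_const, hT, two_nsmul_zmod, add_zero]
      rw [Finset.sum_congr rfl h3, Finset.sum_add_distrib, Finset.sum_const, hF, two_nsmul_zmod,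
        add_zero]
      rfl
    have e2 : Q side' D' (e.image f) = ∑ x ∈ e.filter (fun x => side x = xor τ false),
        ∑ y ∈ e.filter (fun x => side x = xor τ true), D' (f x) (f y) := by
      unfold Q
      rw [filter_image_side side side' f e τ hs false, filter_image_side side side' f e τ hs true]
      rw [Finset.sum_image (hinj _)]
      refine Finset.sum_congr rfl (fun x _ => ?_)
      rw [Finset.sum_image (hinj _)]
    rw [e2, ← e1]
    cases τ
    · simp only [Bool.false_xor]
    · simp only [Bool.true_xor, Bool.not_false, Bool.not_true]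
      rw [Finset.sum_comm]
      exact Finset.sum_congr rfl (fun x _ => Finset.sum_congr rfl (fun y _ => hD' _ _))
  unfold IsH
  rw [hcard false, hcard true]
  cases τ
  · simp only [Bool.false_xor]
    constructor
    · rintro ⟨a, b, c⟩
      exact ⟨a, b, by rw [key a b]; exact c⟩
    · rintro ⟨a, b, c⟩
      exact ⟨a, b, by rw [← key a b]; exact c⟩
  · simp only [Bool.true_xor, Bool.not_false, Bool.not_true]
    constructor
    · rintro ⟨a, b, c⟩
      exact ⟨b, a, by rw [key a b]; exact c⟩
    · rintro ⟨a, b, c⟩
      exact ⟨b, a, by rw [← key b a]; exact c⟩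

lemma Q_explicit (side : V → Bool) (D : V → V → ZMod 2) {a a' b b' : V} (ha : side a = false)
    (ha' : side a' = false) (hb : side b = true) (hb' : side b' = true) (haa : a ≠ a')
    (hbb : b ≠ b') :
    Q side D {a, a', b, b'} = D a b + D a b' + D a' b + D a' b' := by
  have h1 : ({a, a', b, b'} : Finset V).filter (fun x => side x = false) = {a, a'} := by
    ext z
    simp only [Finset.mem_filter, Finset.mem_insert, Finset.mem_singleton]
    constructor
    · rintro ⟨rfl | rfl | rfl | rfl, h⟩ <;> simp_all
    · rintro (rfl | rfl) <;> simp_all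
  have h2 : ({a, a', b, b'} : Finset V).filter (fun x => side x = true) = {b, b'} := by
    ext z
    simp only [Finset.mem_filter, Finset.mem_insert, Finset.mem_singleton]
    constructor
    · rintro ⟨rfl | rfl | rfl | rfl, h⟩ <;> simp_all
    · rintro (rfl | rfl) <;> simp_all
  unfold Q
  rw [h1, h2, Finset.sum_pair haa, Finset.sum_pair hbb, Finset.sum_pair hbb]
  ring

lemma isH_explicit (side : V → Bool) (D : V → V → ZMod 2) {a a' b b' : V} (ha : side a = false)
    (ha' : side a' = false) (hb : side b = true) (hb' : side b' = true) (haa : a ≠ a')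
    (hbb : b ≠ b') :
    IsH side D {a, a', b, b'} ↔ D a b + D a b' + D a' b + D a' b' = 1 := by
  have h1 : ({a, a', b, b'} : Finset V).filter (fun x => side x = false) = {a, a'} := by
    ext z
    simp only [Finset.mem_filter, Finset.mem_insert, Finset.mem_singleton]
    constructor
    · rintro ⟨rfl | rfl | rfl | rfl, h⟩ <;> simp_all
    · rintro (rfl | rfl) <;> simp_all
  have h2 : ({a, a', b, b'} : Finset V).filter (fun x => side x = true) = {b, b'} := by
    ext z
    simp only [Finset.mem_filter, Finset.mem_insert, Finset.mem_singleton]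
    constructor
    · rintro ⟨rfl | rfl | rfl | rfl, h⟩ <;> simp_all
    · rintro (rfl | rfl) <;> simp_all
  unfold IsH
  rw [Q_explicit side D ha ha' hb hb' haa hbb, h1, h2, Finset.card_pair haa, Finset.card_pair hbb]
  simp

end general

section axioms

lemma ite_eq_one_zmod (x : ZMod 2) : (if x = 1 then (1 : ZMod 2) else 0) = x := by
  revert x; decide

lemma subset_four {V : Type*} [DecidableEq V] {a a' a'' b b' : V} {e : Finset V}
    (hab : a ≠ b) (hab' : a ≠ b') (ha'b : a' ≠ b) (ha'b' : a' ≠ b') (ha''b : a'' ≠ b)
    (ha''b' : a'' ≠ b') (haa' : a ≠ a') (haa'' : a ≠ a'') (ha'a'' : a' ≠ a'') (hbb : b ≠ b')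
    (hsub : e ⊆ {a, a', a'', b, b'}) (hcard : e.card = 4) :
    e = {a, a', b, b'} ∨ e = {a, a'', b, b'} ∨ e = {a', a'', b, b'} ∨
      e = {a, a', a'', b} ∨ e = {a, a', a'', b'} := by
  have hS : ({a, a', a'', b, b'} : Finset V).card = 5 := by
    rw [Finset.card_insert_of_notMem, Finset.card_insert_of_notMem, Finset.card_insert_of_notMem,
      Finset.card_insert_of_notMem, Finset.card_singleton] <;>
    simp [hab, hab', ha'b, ha'b', ha''b, ha''b', haa', haa'', ha'a'', hbb]
  have hd : (({a, a', a'', b, b'} : Finset V) \ e).card = 1 := by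
    rw [Finset.card_sdiff_of_subset hsub, hS, hcard]
  rw [Finset.card_eq_one] at hd
  obtain ⟨v, hv⟩ := hd
  have hvS : v ∈ ({a, a', a'', b, b'} : Finset V) := by
    have : v ∈ ({a, a', a'', b, b'} : Finset V) \ e := by rw [hv]; simp
    exact (Finset.mem_sdiff.1 this).1
  have he : e = ({a, a', a'', b, b'} : Finset V).erase v := by
    have h1 : ({a, a', a'', b, b'} : Finset V) \ (({a, a', a'', b, b'} : Finset V) \ e) = e := by
      rw [Finset.sdiff_sdiff_eq_self hsub]
    rw [← h1, hv, Finset.sdiff_singleton_eq_erase]
  simp only [Finset.mem_insert, Finset.mem_singleton] at hvS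
  rw [he]
  rcases hvS with rfl | rfl | rfl | rfl | rfl
  · right; right; left
    ext z; simp only [Finset.mem_erase, Finset.mem_insert, Finset.mem_singleton]
    constructor
    · tauto
    · rintro (rfl | rfl | rfl | rfl) <;> refine ⟨?_, by simp⟩ <;>
        first | assumption | exact Ne.symm (by assumption)
  · right; left
    ext z; simp only [Finset.mem_erase, Finset.mem_insert, Finset.mem_singleton]
    constructor
    · tauto
    · rintro (rfl | rfl | rfl | rfl) <;> refine ⟨?_, by simp⟩ <;>
        first | assumption | exact Ne.symm (by assumption)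
  · left
    ext z; simp only [Finset.mem_erase, Finset.mem_insert, Finset.mem_singleton]
    constructor
    · tauto
    · rintro (rfl | rfl | rfl | rfl) <;> refine ⟨?_, by simp⟩ <;>
        first | assumption | exact Ne.symm (by assumption)
  · right; right; right; right
    ext z; simp only [Finset.mem_erase, Finset.mem_insert, Finset.mem_singleton]
    constructor
    · tauto
    · rintro (rfl | rfl | rfl | rfl) <;> refine ⟨?_, by simp⟩ <;>
        first | assumption | exact Ne.symm (by assumption)
  · right; right; right; left
    ext z; simp only [Finset.mem_erase, Finset.mem_insert, Finset.mem_singleton]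
    constructor
    · tauto
    · rintro (rfl | rfl | rfl | rfl) <;> refine ⟨?_, by simp⟩ <;>
        first | assumption | exact Ne.symm (by assumption)

lemma even_iff {V : Type*} [DecidableEq V] (H : Finset (Finset V)) (r : V → V → Prop)
    (hH : ∀ e ∈ H, e.card = 4 ∧ ∀ v ∈ e, (e.filter (fun w => r v w)).card = 2)
    (hr : Equivalence r) {a a' a'' b b' : V} (raa' : r a a') (raa'' : r a a'') (rbb : r b b')
    (rab : ¬ r a b)
    (haa' : a ≠ a') (haa'' : a ≠ a'') (ha'a'' : a' ≠ a'') (hbb : b ≠ b') :
    Even (H.filter (fun e => e ⊆ {a, a', a'', b, b'})).card ↔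
      (if ({a, a', b, b'} : Finset V) ∈ H then (1 : ZMod 2) else 0) +
      (if ({a, a'', b, b'} : Finset V) ∈ H then (1 : ZMod 2) else 0) +
      (if ({a', a'', b, b'} : Finset V) ∈ H then (1 : ZMod 2) else 0) = 0 := by
  have hne : ∀ x y, r a x → r b y → x ≠ y := by
    rintro x y hx hy rfl
    exact rab (hr.trans hx (hr.symm hy))
  have hab := hne a b (hr.refl a) (hr.refl b)
  have hab' := hne a b' (hr.refl a) rbb
  have ha'b := hne a' b raa' (hr.refl b)
  have ha'b' := hne a' b' raa' rbb
  have ha''b := hne a'' b raa'' (hr.refl b)
  have ha''b' := hne a'' b' raa'' rbb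
  have hfil : H.filter (fun e => e ⊆ {a, a', a'', b, b'}) =
      ({ {a, a', b, b'}, {a, a'', b, b'}, {a', a'', b, b'} } : Finset (Finset V)).filter
        (fun e => e ∈ H) := by
    ext e
    simp only [Finset.mem_filter, Finset.mem_insert, Finset.mem_singleton]
    constructor
    · rintro ⟨heH, hsub⟩
      refine ⟨?_, heH⟩
      have h3 : ∀ y, ¬ (e = {a, a', a'', y}) := by
        intro y hy
        have h4 := (hH e heH).2 a (by rw [hy]; simp)
        have h5 : ({a, a', a''} : Finset V) ⊆ e.filter (fun w => r a w) := by
          intro z hz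
          simp only [Finset.mem_insert, Finset.mem_singleton] at hz
          rw [Finset.mem_filter, hy]
          rcases hz with rfl | rfl | rfl
          · exact ⟨by simp, hr.refl _⟩
          · exact ⟨by simp, raa'⟩
          · exact ⟨by simp, raa''⟩
        have h6 := Finset.card_le_card h5
        rw [h4] at h6
        have h7 : ({a, a', a''} : Finset V).card = 3 := by
          rw [Finset.card_eq_three]
          exact ⟨a, a', a'', haa', haa'', ha'a'', rfl⟩
        omega
      rcases subset_four hab hab' ha'b ha'b' ha''b ha''b' haa' haa'' ha'a'' hbb hsub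
        (hH e heH).1 with h | h | h | h | h
      · exact Or.inl h
      · exact Or.inr (Or.inl h)
      · exact Or.inr (Or.inr h)
      · exact absurd h (h3 b)
      · exact absurd h (h3 b')
    · rintro ⟨h, heH⟩
      refine ⟨heH, ?_⟩
      rcases h with rfl | rfl | rfl <;>
      · intro z hz
        simp only [Finset.mem_insert, Finset.mem_singleton] at hz ⊢
        tauto
  have s12 : ({a, a', b, b'} : Finset V) ≠ {a, a'', b, b'} := by
    intro h
    have : a' ∈ ({a, a'', b, b'} : Finset V) := by rw [← h]; simp
    simp only [Finset.mem_insert, Finset.mem_singleton] at this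
    rcases this with h | h | h | h
    · exact haa' h.symm
    · exact ha'a'' h
    · exact ha'b h
    · exact ha'b' h
  have s13 : ({a, a', b, b'} : Finset V) ≠ {a', a'', b, b'} := by
    intro h
    have : a ∈ ({a', a'', b, b'} : Finset V) := by rw [← h]; simp
    simp only [Finset.mem_insert, Finset.mem_singleton] at this
    rcases this with h | h | h | h
    · exact haa' h
    · exact haa'' h
    · exact hab h
    · exact hab' h
  have s23 : ({a, a'', b, b'} : Finset V) ≠ {a', a'', b, b'} := by
    intro h
    have : a ∈ ({a', a'', b, b'} : Finset V) := by rw [← h]; simp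
    simp only [Finset.mem_insert, Finset.mem_singleton] at this
    rcases this with h | h | h | h
    · exact haa' h
    · exact haa'' h
    · exact hab h
    · exact hab' h
  rw [hfil]
  generalize ({a, a', b, b'} : Finset V) = s1 at *
  generalize ({a, a'', b, b'} : Finset V) = s2 at *
  generalize ({a', a'', b, b'} : Finset V) = s3 at *
  by_cases h1 : s1 ∈ H <;> by_cases h2 : s2 ∈ H <;> by_cases h3 : s3 ∈ H <;>
    simp [Finset.filter_insert, Finset.filter_singleton, h1, h2, h3, s12, s13, s23] <;> decide

end axioms

section repr

lemma zmod2_cases (x : ZMod 2) : x = 0 ∨ x = 1 := by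
  revert x; decide

lemma four_comm {V : Type*} [DecidableEq V] (a a' b b' : V) :
    ({b, b', a, a'} : Finset V) = {a, a', b, b'} := by
  ext z; simp only [Finset.mem_insert, Finset.mem_singleton]; tauto

/-- The set `e` is the union of its two sides. -/
lemma sides_card {V : Type*} [DecidableEq V] (side : V → Bool) (e : Finset V) :
    (e.filter (fun x => side x = false)).card + (e.filter (fun x => side x = true)).card =
      e.card := by
  have := Finset.card_filter_add_card_filter_not (s := e) (fun x => side x = false)
  simpa using this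

lemma sides_union {V : Type*} [DecidableEq V] (side : V → Bool) (e : Finset V) :
    (e.filter (fun x => side x = false)) ∪ (e.filter (fun x => side x = true)) = e := by
  ext z
  simp only [Finset.mem_union, Finset.mem_filter]
  cases side z <;> simp

lemma axioms_of_side {V : Type*} [DecidableEq V] (side : V → Bool) (D : V → V → ZMod 2)
    (r : V → V → Prop) (hr : ∀ x y, r x y ↔ side x = side y)
    (H : Finset (Finset V)) (hHdef : ∀ e, e ∈ H ↔ IsH side D e) :
    (∀ e ∈ H, e.card = 4 ∧ ∀ v ∈ e, (e.filter (fun w => r v w)).card = 2) ∧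
    (∀ S : Finset V, S.card = 5 → (∀ v ∈ S, (S.filter (fun w => r v w)).card ≤ 3) →
      Even (H.filter (fun e => e ⊆ S)).card) := by
  have hfilt : ∀ (e : Finset V) (v : V), e.filter (fun w => r v w) =
      e.filter (fun w => side w = side v) := by
    intro e v
    ext z
    simp only [Finset.mem_filter, hr]
    constructor
    · rintro ⟨h1, h2⟩; exact ⟨h1, h2.symm⟩
    · rintro ⟨h1, h2⟩; exact ⟨h1, h2.symm⟩
  have hequiv : Equivalence r := by
    constructor
    · intro x; rw [hr]
    · intro x y; rw [hr, hr]; exact Eq.symm
    · intro x y z; rw [hr, hr, hr]; exact Eq.trans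
  have part1 : ∀ e ∈ H, e.card = 4 ∧ ∀ v ∈ e, (e.filter (fun w => r v w)).card = 2 := by
    intro e he
    rw [hHdef] at he
    obtain ⟨h1, h2, -⟩ := he
    refine ⟨?_, ?_⟩
    · rw [← sides_card side e, h1, h2]
    · intro v _
      rw [hfilt]
      cases hv : side v
      · exact h1
      · exact h2
  refine ⟨part1, ?_⟩
  intro S hS hS3
  have hsum := sides_card side S
  have hF : (S.filter (fun x => side x = false)).card ≤ 3 := by
    rcases (S.filter (fun x => side x = false)).eq_empty_or_nonempty with h | ⟨v, hv⟩
    · rw [h]; simp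
    · rw [Finset.mem_filter] at hv
      have := hS3 v hv.1
      rw [hfilt, hv.2] at this
      exact this
  have hT : (S.filter (fun x => side x = true)).card ≤ 3 := by
    rcases (S.filter (fun x => side x = true)).eq_empty_or_nonempty with h | ⟨v, hv⟩
    · rw [h]; simp
    · rw [Finset.mem_filter] at hv
      have := hS3 v hv.1
      rw [hfilt, hv.2] at this
      exact this
  have hcases : ((S.filter (fun x => side x = false)).card = 3 ∧
      (S.filter (fun x => side x = true)).card = 2) ∨
      ((S.filter (fun x => side x = false)).card = 2 ∧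
      (S.filter (fun x => side x = true)).card = 3) := by omega
  have hU := sides_union side S
  rcases hcases with ⟨c1, c2⟩ | ⟨c1, c2⟩
  · rw [Finset.card_eq_three] at c1
    rw [Finset.card_eq_two] at c2
    obtain ⟨a, a', a'', h1, h2, h3, hFe⟩ := c1
    obtain ⟨b, b', h4, hTe⟩ := c2
    have ma : ∀ z ∈ ({a, a', a''} : Finset V), side z = false := by
      intro z hz; rw [← hFe, Finset.mem_filter] at hz; exact hz.2
    have mb : ∀ z ∈ ({b, b'} : Finset V), side z = true := by
      intro z hz; rw [← hTe, Finset.mem_filter] at hz; exact hz.2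
    have sa := ma a (by simp)
    have sa' := ma a' (by simp)
    have sa'' := ma a'' (by simp)
    have sb := mb b (by simp)
    have sb' := mb b' (by simp)
    have hSe : S = {a, a', a'', b, b'} := by
      rw [← hU, hFe, hTe]
      ext z; simp only [Finset.mem_union, Finset.mem_insert, Finset.mem_singleton]; tauto
    rw [hSe, even_iff H r part1 hequiv ((hr _ _).2 (by rw [sa, sa']))
      ((hr _ _).2 (by rw [sa, sa''])) ((hr _ _).2 (by rw [sb, sb']))
      (by rw [hr, sa, sb]; simp) h1 h2 h3 h4]
    simp only [hHdef, isH_explicit side D sa sa' sb sb' h1 h4,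
      isH_explicit side D sa sa'' sb sb' h2 h4, isH_explicit side D sa' sa'' sb sb' h3 h4,
      ite_eq_one_zmod]
    generalize D a b = x1
    generalize D a b' = x2
    generalize D a' b = x3
    generalize D a' b' = x4
    generalize D a'' b = x5
    generalize D a'' b' = x6
    revert x1 x2 x3 x4 x5 x6
    decide
  · rw [Finset.card_eq_two] at c1
    rw [Finset.card_eq_three] at c2
    obtain ⟨a, a', a'', h1, h2, h3, hFe⟩ := c2
    obtain ⟨b, b', h4, hTe⟩ := c1
    have ma : ∀ z ∈ ({a, a', a''} : Finset V), side z = true := by
      intro z hz; rw [← hFe, Finset.mem_filter] at hz; exact hz.2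
    have mb : ∀ z ∈ ({b, b'} : Finset V), side z = false := by
      intro z hz; rw [← hTe, Finset.mem_filter] at hz; exact hz.2
    have sa := ma a (by simp)
    have sa' := ma a' (by simp)
    have sa'' := ma a'' (by simp)
    have sb := mb b (by simp)
    have sb' := mb b' (by simp)
    have hSe : S = {a, a', a'', b, b'} := by
      rw [← hU, hFe, hTe]
      ext z; simp only [Finset.mem_union, Finset.mem_insert, Finset.mem_singleton]; tauto
    rw [hSe, even_iff H r part1 hequiv ((hr _ _).2 (by rw [sa, sa']))
      ((hr _ _).2 (by rw [sa, sa''])) ((hr _ _).2 (by rw [sb, sb']))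
      (by rw [hr, sa, sb]; simp) h1 h2 h3 h4]
    rw [← four_comm a a' b b', ← four_comm a a'' b b', ← four_comm a' a'' b b']
    simp only [hHdef, isH_explicit side D sb sb' sa sa' h4 h1,
      isH_explicit side D sb sb' sa sa'' h4 h2, isH_explicit side D sb sb' sa' sa'' h4 h3,
      ite_eq_one_zmod]
    generalize D b a = x1
    generalize D b' a = x2
    generalize D b a' = x3
    generalize D b' a' = x4
    generalize D b a'' = x5
    generalize D b' a'' = x6
    revert x1 x2 x3 x4 x5 x6
    decide

lemma exists_repr {V : Type*} [DecidableEq V] (r : V → V → Prop) (H : Finset (Finset V))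
    (hequiv : Equivalence r) (htri : ∀ a b c, r a b ∨ r b c ∨ r a c)
    (hH : ∀ e ∈ H, e.card = 4 ∧ ∀ v ∈ e, (e.filter (fun w => r v w)).card = 2)
    (h5 : ∀ S : Finset V, S.card = 5 → (∀ v ∈ S, (S.filter (fun w => r v w)).card ≤ 3) →
      Even (H.filter (fun e => e ⊆ S)).card) :
    ∃ (s : V → Bool) (G : V → V → ZMod 2), (∀ x y, r x y ↔ s x = s y) ∧
      ∀ e, e ∈ H ↔ IsH s G e := by
  -- side function
  obtain ⟨s, hs⟩ : ∃ s : V → Bool, ∀ x y, r x y ↔ s x = s y := by
    by_cases hne : Nonempty V
    · obtain ⟨v0⟩ := hne
      refine ⟨fun x => decide (r v0 x), ?_⟩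
      intro x y
      by_cases hx : r v0 x <;> by_cases hy : r v0 y
      · simp only [hx, hy, decide_true, iff_true]
        exact hequiv.trans (hequiv.symm hx) hy
      · simp only [hx, hy, decide_true, decide_false]
        simp only [reduceCtorEq, iff_false]
        intro h; exact hy (hequiv.trans hx h)
      · simp only [hx, hy, decide_true, decide_false]
        simp only [reduceCtorEq, iff_false]
        intro h; exact hx (hequiv.trans hy (hequiv.symm h))
      · simp only [hx, hy, decide_false, iff_true]
        rcases htri v0 x y with h | h | h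
        · exact absurd h hx
        · exact h
        · exact absurd h hy
    · exact ⟨fun _ => true, fun x => absurd ⟨x⟩ hne⟩
  have hfilt : ∀ (e : Finset V) (v : V), e.filter (fun w => r v w) =
      e.filter (fun w => s w = s v) := by
    intro e v
    ext z
    simp only [Finset.mem_filter, hs]
    constructor
    · rintro ⟨h1, h2⟩; exact ⟨h1, h2.symm⟩
    · rintro ⟨h1, h2⟩; exact ⟨h1, h2.symm⟩
  -- cards
  have hcards : ∀ e ∈ H, (e.filter (fun x => s x = false)).card = 2 ∧
      (e.filter (fun x => s x = true)).card = 2 := by
    intro e he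
    obtain ⟨h1, h2⟩ := hH e he
    have hsum := sides_card s e
    have hne : e.Nonempty := by
      rw [← Finset.card_pos]; omega
    obtain ⟨v, hv⟩ := hne
    have h3 := h2 v hv
    rw [hfilt] at h3
    cases hv2 : s v
    · rw [hv2] at h3; omega
    · rw [hv2] at h3; omega
  by_cases hex : (∃ a0, s a0 = false) ∧ (∃ b0, s b0 = true)
  · obtain ⟨⟨a0, ha0⟩, ⟨b0, hb0⟩⟩ := hex
    set h : V → V → V → V → ZMod 2 := fun a a' b b' =>
      if ({a, a', b, b'} : Finset V) ∈ H then 1 else 0 with hh
    have hcomm1 : ∀ a a' b b', h a a' b b' = h a' a b b' := by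
      intro a a' b b'
      have : ({a, a', b, b'} : Finset V) = {a', a, b, b'} := by
        ext z; simp only [Finset.mem_insert, Finset.mem_singleton]; tauto
      simp only [hh, this]
    have hcomm2 : ∀ a a' b b', h a a' b b' = h a a' b' b := by
      intro a a' b b'
      have : ({a, a', b, b'} : Finset V) = {a, a', b', b} := by
        ext z; simp only [Finset.mem_insert, Finset.mem_singleton]; tauto
      simp only [hh, this]
    have hdeg1 : ∀ a b b', h a a b b' = 0 := by
      intro a b b'
      simp only [hh]
      rw [if_neg]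
      intro hmem
      have h1 := (hH _ hmem).1
      have h2 : ({a, a, b, b'} : Finset V) = {a, b, b'} := by simp
      rw [h2] at h1
      have := Finset.card_le_three (a := a) (b := b) (c := b')
      omega
    have hdeg2 : ∀ a a' b, h a a' b b = 0 := by
      intro a a' b
      simp only [hh]
      rw [if_neg]
      intro hmem
      have h1 := (hH _ hmem).1
      have h2 : ({a, a', b, b} : Finset V) = {a, a', b} := by simp
      rw [h2] at h1
      have := Finset.card_le_three (a := a) (b := a') (c := b)
      omega
    have hz2 : ∀ x : ZMod 2, x + x = 0 := by decide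
    have key5 : ∀ a a' a'' b b', s a = s a' → s a = s a'' → s b = s b' → s a ≠ s b →
        a ≠ a' → a ≠ a'' → a' ≠ a'' → b ≠ b' →
        h a a' b b' + h a a'' b b' + h a' a'' b b' = 0 := by
      intro a a' a'' b b' e1 e2 e3 e4 n1 n2 n3 n4
      have hev := (even_iff H r hH hequiv ((hs a a').2 e1) ((hs a a'').2 e2) ((hs b b').2 e3)
        (by rw [hs]; exact e4) n1 n2 n3 n4).1
      apply hev
      have hne : ∀ x y, s x = s a → s y = s b → x ≠ y := by
        rintro x y hx hy rfl
        exact e4 (hx.symm.trans hy)
      have hcard5 : ({a, a', a'', b, b'} : Finset V).card = 5 := by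
        rw [Finset.card_insert_of_notMem, Finset.card_insert_of_notMem,
          Finset.card_insert_of_notMem, Finset.card_insert_of_notMem, Finset.card_singleton]
        · simp [n4]
        · simp [hne a'' b e2.symm rfl, hne a'' b' e2.symm e3.symm]
        · simp [n3, hne a' b e1.symm rfl, hne a' b' e1.symm e3.symm]
        · simp [n1, n2, hne a b rfl rfl, hne a b' rfl e3.symm]
      apply h5 _ hcard5
      intro v hv
      rw [hfilt]
      have hva : s v = s a ∨ s v = s b := by
        simp only [Finset.mem_insert, Finset.mem_singleton] at hv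
        rcases hv with rfl | rfl | rfl | rfl | rfl
        · exact Or.inl rfl
        · exact Or.inl e1.symm
        · exact Or.inl e2.symm
        · exact Or.inr rfl
        · exact Or.inr e3.symm
      rcases hva with hva | hva
      · have hsub : ({a, a', a'', b, b'} : Finset V).filter (fun w => s w = s v) ⊆
            {a, a', a''} := by
          intro z hz
          rw [Finset.mem_filter] at hz
          obtain ⟨hz1, hz2⟩ := hz
          simp only [Finset.mem_insert, Finset.mem_singleton] at hz1 ⊢
          rcases hz1 with rfl | rfl | rfl | rfl | rfl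
          · simp
          · simp
          · simp
          · exact absurd (hz2.trans hva).symm e4
          · exact absurd ((hz2.trans hva).symm.trans e3.symm) e4
        exact (Finset.card_le_card hsub).trans Finset.card_le_three
      · have hsub : ({a, a', a'', b, b'} : Finset V).filter (fun w => s w = s v) ⊆
            {b, b'} := by
          intro z hz
          rw [Finset.mem_filter] at hz
          obtain ⟨hz1, hz2⟩ := hz
          simp only [Finset.mem_insert, Finset.mem_singleton] at hz1 ⊢
          rcases hz1 with rfl | rfl | rfl | rfl | rfl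
          · exact absurd (hz2.trans hva) e4
          · exact absurd (e1.trans (hz2.trans hva)) e4
          · exact absurd (e2.trans (hz2.trans hva)) e4
          · simp
          · simp
        exact (Finset.card_le_card hsub).trans (Finset.card_le_two.trans (by norm_num))
    have T1 : ∀ a a' a'' b b', s a = false → s a' = false → s a'' = false → s b = true →
        s b' = true → h a a' b b' = h a a'' b b' + h a' a'' b b' := by
      intro a a' a'' b b' e1 e2 e3 e4 e5
      by_cases n4 : b = b'
      · subst n4; simp [hdeg2]
      by_cases n1 : a = a'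
      · subst n1; rw [hdeg1, hz2]
      by_cases n2 : a = a''
      · subst n2; rw [hdeg1, zero_add, hcomm1]
      by_cases n3 : a' = a''
      · subst n3; rw [hdeg1, add_zero]
      have := key5 a a' a'' b b' (by rw [e1, e2]) (by rw [e1, e3]) (by rw [e4, e5])
        (by rw [e1, e4]; simp) n1 n2 n3 n4
      revert this
      generalize h a a' b b' = x
      generalize h a a'' b b' = y
      generalize h a' a'' b b' = z
      revert x y z
      decide
    have T2 : ∀ a a' b b' b'', s a = false → s a' = false → s b = true → s b' = true →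
        s b'' = true → h a a' b b' = h a a' b b'' + h a a' b' b'' := by
      intro a a' b b' b'' e1 e2 e3 e4 e5
      by_cases n4 : a = a'
      · subst n4; simp [hdeg1]
      by_cases n1 : b = b'
      · subst n1; rw [hdeg2, hz2]
      by_cases n2 : b = b''
      · subst n2; rw [hdeg2, zero_add, hcomm2]
      by_cases n3 : b' = b''
      · subst n3; rw [hdeg2, add_zero]
      have := key5 b b' b'' a a' (by rw [e3, e4]) (by rw [e3, e5]) (by rw [e1, e2])
        (by rw [e1, e3]; simp) n1 n2 n3 n4
      have hsw : ∀ x x' y y', h y y' x x' = h x x' y y' := by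
        intro x x' y y'
        simp only [hh, four_comm]
      rw [hsw, hsw a a', hsw a a'] at this
      revert this
      generalize h a a' b b' = x
      generalize h a a' b b'' = y
      generalize h a a' b' b'' = z
      revert x y z
      decide
    refine ⟨s, fun x y => h x a0 y b0, hs, ?_⟩
    have hsplit : ∀ a a' b b', s a = false → s a' = false → s b = true → s b' = true →
        h a a' b b' = h a a0 b b0 + h a a0 b' b0 + h a' a0 b b0 + h a' a0 b' b0 := by
      intro a a' b b' e1 e2 e3 e4
      rw [T1 a a' a0 b b' e1 e2 ha0 e3 e4, T2 a a0 b b' b0 e1 ha0 e3 e4 hb0,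
        T2 a' a0 b b' b0 e2 ha0 e3 e4 hb0]
      ring
    have hiff : ∀ a a' b b', s a = false → s a' = false → s b = true → s b' = true →
        a ≠ a' → b ≠ b' → (({a, a', b, b'} : Finset V) ∈ H ↔
          IsH s (fun x y => h x a0 y b0) {a, a', b, b'}) := by
      intro a a' b b' e1 e2 e3 e4 n1 n2
      rw [isH_explicit s _ e1 e2 e3 e4 n1 n2]
      rw [← hsplit a a' b b' e1 e2 e3 e4]
      simp only [hh]
      by_cases hm : ({a, a', b, b'} : Finset V) ∈ H
      · simp [hm]
      · simp [hm]
    have hform : ∀ e : Finset V, (e.filter (fun x => s x = false)).card = 2 →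
        (e.filter (fun x => s x = true)).card = 2 → (e ∈ H ↔ IsH s (fun x y => h x a0 y b0) e) := by
      intro e c1 c2
      rw [Finset.card_eq_two] at c1 c2
      obtain ⟨a, a', n1, hFe⟩ := c1
      obtain ⟨b, b', n2, hTe⟩ := c2
      have ma : ∀ z ∈ ({a, a'} : Finset V), s z = false := by
        intro z hz; rw [← hFe, Finset.mem_filter] at hz; exact hz.2
      have mb : ∀ z ∈ ({b, b'} : Finset V), s z = true := by
        intro z hz; rw [← hTe, Finset.mem_filter] at hz; exact hz.2
      have hee : e = {a, a', b, b'} := by
        rw [← sides_union s e, hFe, hTe]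
        ext z; simp only [Finset.mem_union, Finset.mem_insert, Finset.mem_singleton]; tauto
      rw [hee]
      exact hiff a a' b b' (ma a (by simp)) (ma a' (by simp)) (mb b (by simp)) (mb b' (by simp))
        n1 n2
    intro e
    constructor
    · intro he
      exact (hform e (hcards e he).1 (hcards e he).2).1 he
    · intro he
      exact (hform e he.1 he.2.1).2 he
  · refine ⟨s, fun _ _ => 0, hs, ?_⟩
    intro e
    have hno : ¬ ((e.filter (fun x => s x = false)).card = 2 ∧
        (e.filter (fun x => s x = true)).card = 2) := by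
      rintro ⟨c1, c2⟩
      apply hex
      constructor
      · have : (e.filter (fun x => s x = false)).Nonempty := by
          rw [← Finset.card_pos]; omega
        obtain ⟨v, hv⟩ := this
        exact ⟨v, (Finset.mem_filter.1 hv).2⟩
      · have : (e.filter (fun x => s x = true)).Nonempty := by
          rw [← Finset.card_pos]; omega
        obtain ⟨v, hv⟩ := this
        exact ⟨v, (Finset.mem_filter.1 hv).2⟩
    constructor
    · intro he
      exact absurd (hcards e he) hno
    · rintro ⟨h1, h2, -⟩
      exact absurd ⟨h1, h2⟩ hno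

end repr

section extend

/-- An injective partial map of a finite type, defined on `T`, extends to a permutation. -/
lemma exists_perm_extend {V : Type*} [Fintype V] [DecidableEq V] (T : Finset V) (p : V → V)
    (hp : Set.InjOn p (T : Set V)) : ∃ π : Equiv.Perm V, ∀ x ∈ T, π x = p x := by
  let g : {x // x ∈ T} → {y // y ∈ T.image p} := fun x =>
    ⟨p x.1, Finset.mem_image_of_mem p x.2⟩
  have hg : Function.Bijective g := by
    constructor
    · rintro ⟨x, hx⟩ ⟨y, hy⟩ hxy
      simp only [g, Subtype.mk.injEq] at hxy
      exact Subtype.ext (hp hx hy hxy)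
    · rintro ⟨y, hy⟩
      rw [Finset.mem_image] at hy
      obtain ⟨x, hx, rfl⟩ := hy
      exact ⟨⟨x, hx⟩, rfl⟩
  let e : {x // x ∈ T} ≃ {y // y ∈ T.image p} := Equiv.ofBijective g hg
  refine ⟨e.extendSubtype, ?_⟩
  intro x hx
  rw [Equiv.extendSubtype_apply_of_mem e x hx]
  rfl

/-- The map on the big structure. -/
def theta {n : ℕ} (τ : Bool) (π : Bool → Equiv.Perm (Fin n))
    (F : Bool → Fin n → Fin n → ZMod 2) (v : (Bool × Fin n) × (Fin n → ZMod 2)) :
    (Bool × Fin n) × (Fin n → ZMod 2) :=
  ((xor τ v.1.1, π v.1.1 v.1.2), fun y => v.2 ((π (!v.1.1)).symm y) +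
    F v.1.1 v.1.2 ((π (!v.1.1)).symm y))

lemma theta_injective {n : ℕ} (τ : Bool) (π : Bool → Equiv.Perm (Fin n))
    (F : Bool → Fin n → Fin n → ZMod 2) : Function.Injective (theta τ π F) := by
  rintro ⟨⟨c, x⟩, χ⟩ ⟨⟨c', x'⟩, χ'⟩ h
  simp only [theta, Prod.mk.injEq] at h
  obtain ⟨⟨h1, h2⟩, h3⟩ := h
  have hc : c = c' := by
    revert h1; cases τ <;> cases c <;> cases c' <;> simp
  subst hc
  have hx : x = x' := (π c).injective h2
  subst hx
  have hχ : χ = χ' := by
    funext y
    have := congrFun h3 (π (!c) y)
    simp only [Equiv.symm_apply_apply] at this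
    exact add_right_cancel this
  rw [hχ]

/-- The sign on the big structure. -/
def DB {n : ℕ} (v w : (Bool × Fin n) × (Fin n → ZMod 2)) : ZMod 2 := v.2 w.1.2 + w.2 v.1.2

lemma DB_symm {n : ℕ} (v w : (Bool × Fin n) × (Fin n → ZMod 2)) : DB v w = DB w v := by
  unfold DB; rw [add_comm]

lemma DB_theta {n : ℕ} (τ : Bool) (π : Bool → Equiv.Perm (Fin n))
    (F : Bool → Fin n → Fin n → ZMod 2) (κ : Bool → Fin n → ZMod 2)
    (hF : ∀ c x y, F c x y + F (!c) y x = κ c x + κ (!c) y)
    (v w : (Bool × Fin n) × (Fin n → ZMod 2)) (h : w.1.1 = !v.1.1) :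
    DB (theta τ π F v) (theta τ π F w) = DB v w + κ v.1.1 v.1.2 + κ w.1.1 w.1.2 := by
  obtain ⟨⟨c, x⟩, χ⟩ := v
  obtain ⟨⟨c', y⟩, η⟩ := w
  simp only at h
  subst h
  simp only [DB, theta, Bool.not_not, Equiv.symm_apply_apply]
  have := hF c x y
  calc χ y + F c x y + (η x + F (!c) y x) = χ y + η x + (F c x y + F (!c) y x) := by ring
    _ = _ := by rw [this]; ring

end extend


/-- Every finite three-graph A embeds as an induced substructure in some finite three-graph B such that every partial automorphism of A extends to an automorphism of B. -/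
theorem result :
    ∀ (n : ℕ) (rA : Fin n → Fin n → Prop) (HA : Finset (Finset (Fin n))),
      (Equivalence rA ∧ (∀ a b c, rA a b ∨ rA b c ∨ rA a c) ∧
        (∀ e ∈ HA, e.card = 4 ∧ ∀ v ∈ e, (e.filter (fun w => rA v w)).card = 2) ∧
        (∀ S : Finset (Fin n), S.card = 5 →
          (∀ v ∈ S, (S.filter (fun w => rA v w)).card ≤ 3) →
          Even (HA.filter (fun e => e ⊆ S)).card)) →
      ∃ (m : ℕ) (rB : Fin m → Fin m → Prop) (HB : Finset (Finset (Fin m))),
        (Equivalence rB ∧ (∀ a b c, rB a b ∨ rB b c ∨ rB a c) ∧
          (∀ e ∈ HB, e.card = 4 ∧ ∀ v ∈ e, (e.filter (fun w => rB v w)).card = 2) ∧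
          (∀ S : Finset (Fin m), S.card = 5 →
            (∀ v ∈ S, (S.filter (fun w => rB v w)).card ≤ 3) →
            Even (HB.filter (fun e => e ⊆ S)).card)) ∧
        ∃ f : Fin n ↪ Fin m,
          (∀ x y, rA x y ↔ rB (f x) (f y)) ∧
          (∀ e : Finset (Fin n), e ∈ HA ↔ e.map f ∈ HB) ∧
          ∀ (S : Finset (Fin n)) (p : Fin n → Fin n),
            Set.InjOn p (S : Set (Fin n)) →
            (∀ x ∈ S, ∀ y ∈ S, rA x y ↔ rA (p x) (p y)) →
            (∀ e ⊆ S, e ∈ HA ↔ e.image p ∈ HA) →
            ∃ σ : Fin m ≃ Fin m,
              (∀ x y, rB x y ↔ rB (σ x) (σ y)) ∧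
              (∀ e : Finset (Fin m), e ∈ HB ↔ e.map σ.toEmbedding ∈ HB) ∧
              ∀ x ∈ S, σ (f x) = f (p x) := by
  intro n rA HA hA
  obtain ⟨hequiv, htri, hH, h5⟩ := hA
  obtain ⟨s, G, hs, hG⟩ := exists_repr rA HA hequiv htri (by convert hH) (by convert h5)
  have hz2 : ∀ x : ZMod 2, x + x = 0 := by decide
  set χ : Fin n → Fin n → ZMod 2 := fun x y => if s x = false then G x y else 0 with hχ
  set Dm : Fin n → Fin n → ZMod 2 := fun x y => χ x y + χ y x with hDm
  have hDmsymm : ∀ x y, Dm x y = Dm y x := by
    intro x y; simp only [hDm]; rw [add_comm]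
  have hDmG : ∀ x y, s x = false → s y = true → Dm x y = G x y := by
    intro x y hx hy
    simp [hDm, hχ, hx, hy]
  have hG' : ∀ e, e ∈ HA ↔ IsH s Dm e := by
    intro e
    rw [hG e]
    have : Q s G e = Q s Dm e := by
      unfold Q
      refine Finset.sum_congr rfl (fun x hx => Finset.sum_congr rfl (fun y hy => ?_))
      rw [Finset.mem_filter] at hx hy
      exact (hDmG x y hx.2 hy.2).symm
    unfold IsH
    rw [this]
  obtain ⟨m, ⟨ε⟩⟩ : ∃ m : ℕ, Nonempty (((Bool × Fin n) × (Fin n → ZMod 2)) ≃ Fin m) :=
    ⟨_, ⟨Fintype.equivFin _⟩⟩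
  obtain ⟨sideB, hsideB⟩ : ∃ sideB : Fin m → Bool, ∀ i, sideB i = (ε.symm i).1.1 :=
    ⟨_, fun _ => rfl⟩
  obtain ⟨DB', hDB'⟩ : ∃ DB' : Fin m → Fin m → ZMod 2, ∀ i j, DB' i j =
    DB (ε.symm i) (ε.symm j) := ⟨_, fun _ _ => rfl⟩
  have hDB'symm : ∀ x y, DB' x y = DB' y x := by
    intro x y; rw [hDB', hDB', DB_symm]
  obtain ⟨HB, hHBmem⟩ : ∃ HB : Finset (Finset (Fin m)), ∀ e, e ∈ HB ↔ IsH sideB DB' e :=
    ⟨Finset.univ.filter (fun e => IsH sideB DB' e), fun e => by
      rw [Finset.mem_filter]; exact ⟨fun h => h.2, fun h => ⟨Finset.mem_univ _, h⟩⟩⟩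
  have hax := axioms_of_side sideB DB' (fun i j => sideB i = sideB j) (fun _ _ => Iff.rfl) HB
    hHBmem
  refine ⟨m, fun i j => sideB i = sideB j, HB, ⟨?_, ?_, ?_, ?_⟩, ?_⟩
  · exact ⟨fun _ => rfl, fun h => h.symm, fun h h' => h.trans h'⟩
  · intro a b c
    show sideB a = sideB b ∨ sideB b = sideB c ∨ sideB a = sideB c
    generalize sideB a = u
    generalize sideB b = v
    generalize sideB c = w
    revert u v w; decide
  · convert hax.1
  · convert hax.2
  · let f : Fin n ↪ Fin m := ⟨fun x => ε ((s x, x), χ x), by
      intro x y hxy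
      have := ε.injective hxy
      simp only [Prod.mk.injEq] at this
      exact this.1.2⟩
    have hfapp : ∀ x, f x = ε ((s x, x), χ x) := fun x => rfl
    have hsf : ∀ x, sideB (f x) = s x := by
      intro x; simp [hsideB, hfapp]
    refine ⟨f, ?_, ?_, ?_⟩
    · intro x y
      show rA x y ↔ sideB (f x) = sideB (f y)
      rw [hsf, hsf, hs]
    · intro e
      rw [hG', hHBmem, Finset.map_eq_image]
      apply isH_image s Dm sideB DB' hDB'symm f e f.injective.injOn false
        (fun x _ => by rw [hsf]; simp) (fun _ => 0)
      intro x _ y _ _ _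
      simp only [hDB', hfapp, DB, Equiv.symm_apply_apply, hDm, add_zero]
    · intro S p hinj hrp hep
      -- the shift of sides
      obtain ⟨τ, hτ⟩ : ∃ τ : Bool, ∀ x ∈ S, s (p x) = xor τ (s x) := by
        rcases S.eq_empty_or_nonempty with hS | ⟨x0, hx0⟩
        · exact ⟨false, by intro x hx; rw [hS] at hx; simp at hx⟩
        · refine ⟨xor (s (p x0)) (s x0), ?_⟩
          intro x hx
          have h1 := hrp x0 hx0 x hx
          rw [hs, hs] at h1
          revert h1
          cases s x0 <;> cases s x <;> cases s (p x0) <;> cases s (p x) <;> simp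
      -- permutations
      have hπex : ∀ c : Bool, ∃ π : Equiv.Perm (Fin n), ∀ x ∈ S.filter (fun x => s x = c),
          π x = p x := by
        intro c
        apply exists_perm_extend
        intro x hx y hy hxy
        rw [Finset.mem_coe, Finset.mem_filter] at hx hy
        exact hinj hx.1 hy.1 hxy
      choose π hπ using hπex
      have hπ' : ∀ c x, x ∈ S → s x = c → π c x = p x := by
        intro c x hx hc
        exact hπ c x (Finset.mem_filter.2 ⟨hx, hc⟩)
      -- switching constants
      obtain ⟨κ, hκ⟩ : ∃ κ : Fin n → ZMod 2, ∀ x ∈ S, ∀ y ∈ S, s x ≠ s y →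
          Dm x y + Dm (p x) (p y) = κ x + κ y := by
        have hδ : ∀ a ∈ S, ∀ a' ∈ S, ∀ b ∈ S, ∀ b' ∈ S, s a = false → s a' = false →
            s b = true → s b' = true →
            (Dm a b + Dm (p a) (p b)) + (Dm a b' + Dm (p a) (p b')) +
            (Dm a' b + Dm (p a') (p b)) + (Dm a' b' + Dm (p a') (p b')) = 0 := by
          intro a ha a' ha' b hb b' hb' e1 e2 e3 e4
          by_cases n1 : a = a'
          · subst n1
            generalize Dm a b + Dm (p a) (p b) = u
            generalize Dm a b' + Dm (p a) (p b') = v
            revert u v; decide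
          by_cases n2 : b = b'
          · subst n2
            generalize Dm a b + Dm (p a) (p b) = u
            generalize Dm a' b + Dm (p a') (p b) = v
            revert u v; decide
          have hsub : ({a, a', b, b'} : Finset (Fin n)) ⊆ S := by
            intro z hz
            simp only [Finset.mem_insert, Finset.mem_singleton] at hz
            rcases hz with rfl | rfl | rfl | rfl <;> assumption
          have h1 := hep _ hsub
          have himg : ({a, a', b, b'} : Finset (Fin n)).image p = {p a, p a', p b, p b'} := by
            simp [Finset.image_insert]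
          rw [himg, hG', hG', isH_explicit s Dm e1 e2 e3 e4 n1 n2] at h1
          have m1 : p a ≠ p a' := fun h => n1 (hinj ha ha' h)
          have m2 : p b ≠ p b' := fun h => n2 (hinj hb hb' h)
          have q1 := hτ a ha
          have q2 := hτ a' ha'
          have q3 := hτ b hb
          have q4 := hτ b' hb'
          rw [e1] at q1; rw [e2] at q2; rw [e3] at q3; rw [e4] at q4
          cases hτc : τ
          · rw [hτc] at q1 q2 q3 q4
            rw [isH_explicit s Dm q1 q2 q3 q4 m1 m2] at h1
            revert h1
            generalize Dm a b = x1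
            generalize Dm a b' = x2
            generalize Dm a' b = x3
            generalize Dm a' b' = x4
            generalize Dm (p a) (p b) = y1
            generalize Dm (p a) (p b') = y2
            generalize Dm (p a') (p b) = y3
            generalize Dm (p a') (p b') = y4
            intro h1
            have h2 : x1 + x2 + x3 + x4 = y1 + y2 + y3 + y4 := by
              revert h1
              generalize x1 + x2 + x3 + x4 = u
              generalize y1 + y2 + y3 + y4 = v
              revert u v; decide
            calc (x1 + y1) + (x2 + y2) + (x3 + y3) + (x4 + y4) =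
                (x1 + x2 + x3 + x4) + (y1 + y2 + y3 + y4) := by ring
              _ = 0 := by rw [h2, hz2]
          · rw [hτc] at q1 q2 q3 q4
            rw [← four_comm, isH_explicit s Dm q3 q4 q1 q2 m2 m1] at h1
            rw [hDmsymm (p b) (p a), hDmsymm (p b) (p a'), hDmsymm (p b') (p a),
              hDmsymm (p b') (p a')] at h1
            revert h1
            generalize Dm a b = x1
            generalize Dm a b' = x2
            generalize Dm a' b = x3
            generalize Dm a' b' = x4
            generalize Dm (p a) (p b) = y1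
            generalize Dm (p a) (p b') = y2
            generalize Dm (p a') (p b) = y3
            generalize Dm (p a') (p b') = y4
            intro h1
            have h2 : x1 + x2 + x3 + x4 = y1 + y3 + y2 + y4 := by
              revert h1
              generalize x1 + x2 + x3 + x4 = u
              generalize y1 + y3 + y2 + y4 = v
              revert u v; decide
            calc (x1 + y1) + (x2 + y2) + (x3 + y3) + (x4 + y4) =
                (x1 + x2 + x3 + x4) + (y1 + y3 + y2 + y4) := by ring
              _ = 0 := by rw [h2, hz2]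
        by_cases hex : (∃ a ∈ S, s a = false) ∧ (∃ b ∈ S, s b = true)
        · obtain ⟨⟨a0, ha0, ea0⟩, ⟨b0, hb0, eb0⟩⟩ := hex
          refine ⟨fun x => if s x = false then Dm x b0 + Dm (p x) (p b0) else
            (Dm a0 x + Dm (p a0) (p x)) + (Dm a0 b0 + Dm (p a0) (p b0)), ?_⟩
          have hmain : ∀ x ∈ S, ∀ y ∈ S, s x = false → s y = true →
              Dm x y + Dm (p x) (p y) = (Dm x b0 + Dm (p x) (p b0)) +
              ((Dm a0 y + Dm (p a0) (p y)) + (Dm a0 b0 + Dm (p a0) (p b0))) := by
            intro x hx y hy ex ey
            have := hδ x hx a0 ha0 y hy b0 hb0 ex ea0 ey eb0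
            revert this
            generalize Dm x y + Dm (p x) (p y) = u1
            generalize Dm x b0 + Dm (p x) (p b0) = u2
            generalize Dm a0 y + Dm (p a0) (p y) = u3
            generalize Dm a0 b0 + Dm (p a0) (p b0) = u4
            revert u1 u2 u3 u4; decide
          intro x hx y hy hxy
          cases ex : s x
          · have ey : s y = true := by
              cases hy2 : s y
              · rw [ex, hy2] at hxy; exact absurd rfl hxy
              · rfl
            simp only [ex, ey, if_true, reduceCtorEq, if_false]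
            exact hmain x hx y hy ex ey
          · have ey : s y = false := by
              cases hy2 : s y
              · rfl
              · rw [ex, hy2] at hxy; exact absurd rfl hxy
            simp only [ex, ey, if_true, reduceCtorEq, if_false]
            rw [hDmsymm x y, hDmsymm (p x) (p y), hmain y hy x hx ey ex]
            ring
        · refine ⟨fun _ => 0, ?_⟩
          intro x hx y hy hxy
          exfalso
          apply hex
          cases ex : s x
          · have ey : s y = true := by
              cases hy2 : s y
              · rw [ex, hy2] at hxy; exact absurd rfl hxy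
              · rfl
            exact ⟨⟨x, hx, ex⟩, ⟨y, hy, ey⟩⟩
          · have ey : s y = false := by
              cases hy2 : s y
              · rfl
              · rw [ex, hy2] at hxy; exact absurd rfl hxy
            exact ⟨⟨y, hy, ey⟩, ⟨x, hx, ex⟩⟩
      -- the correction
      set F : Bool → Fin n → Fin n → ZMod 2 := fun c x y =>
        if (x ∈ S ∧ s x = c) then χ x y + χ (p x) (π (!c) y) else
        if (y ∈ S ∧ s y = !c) then (χ y x + χ (p y) (π c x)) + κ y else 0 with hF
      set κ' : Bool → Fin n → ZMod 2 := fun c x => if (x ∈ S ∧ s x = c) then κ x else 0 with hκ'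
      have hFκ : ∀ c x y, F c x y + F (!c) y x = κ' c x + κ' (!c) y := by
        intro c x y
        simp only [hF, hκ', Bool.not_not]
        by_cases h1 : x ∈ S ∧ s x = c <;> by_cases h2 : y ∈ S ∧ s y = !c
        · simp only [h1, h2, and_self, if_true]
          rw [hπ' (!c) y h2.1 h2.2, hπ' c x h1.1 h1.2]
          rw [← hκ x h1.1 y h2.1 (by rw [h1.2, h2.2]; cases c <;> simp)]
          simp only [hDm]
          ring
        · rw [if_pos h1, if_neg h2, if_pos h1, if_pos h1, if_neg h2]
          generalize χ x y + χ (p x) (π (!c) y) = u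
          generalize κ x = v
          revert u v; decide
        · rw [if_neg h1, if_pos h2, if_pos h2, if_neg h1, if_pos h2]
          generalize χ y x + χ (p y) (π c x) = u
          generalize κ y = v
          revert u v; decide
        · rw [if_neg h1, if_neg h2, if_neg h2, if_neg h1, if_neg h1, if_neg h2]
      let θ : ((Bool × Fin n) × (Fin n → ZMod 2)) ≃ ((Bool × Fin n) × (Fin n → ZMod 2)) :=
        Equiv.ofBijective (theta τ π F) (Finite.injective_iff_bijective.1 (theta_injective τ π F))
      have hθ : ∀ v, θ v = theta τ π F v := fun v => rfl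
      let σ : Fin m ≃ Fin m := ε.symm.trans (θ.trans ε)
      have hσ : ∀ i, ε.symm (σ i) = theta τ π F (ε.symm i) := by
        intro i
        simp only [σ, Equiv.trans_apply, Equiv.symm_apply_apply, hθ]
      have hσside : ∀ i, sideB (σ i) = xor τ (sideB i) := by
        intro i
        simp only [hsideB, hσ, theta]
      refine ⟨σ, ?_, ?_, ?_⟩
      · intro x y
        show sideB x = sideB y ↔ sideB (σ x) = sideB (σ y)
        rw [hσside, hσside]
        cases τ <;> cases sideB x <;> cases sideB y <;> simp
      · intro e
        rw [hHBmem, hHBmem, Finset.map_eq_image]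
        apply isH_image sideB DB' sideB DB' hDB'symm σ e σ.injective.injOn τ
          (fun x _ => hσside x) (fun i => κ' (ε.symm i).1.1 (ε.symm i).1.2)
        intro x _ y _ hx hy
        simp only [hDB', hσ]
        apply DB_theta τ π F κ' hFκ
        simp only [hsideB] at hx hy
        rw [hx, hy]; rfl
      · intro x hx
        apply ε.symm.injective
        rw [hσ, hfapp, hfapp, Equiv.symm_apply_apply, Equiv.symm_apply_apply]
        simp only [theta]
        rw [hτ x hx, hπ' (s x) x hx rfl]
        congr 1
        funext y
        have : F (s x) x ((π (!s x)).symm y) = χ x ((π (!s x)).symm y) +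
            χ (p x) (π (!s x) ((π (!s x)).symm y)) := by
          show (if (x ∈ S ∧ s x = s x) then _ else _) = _
          rw [if_pos ⟨hx, rfl⟩]
        rw [this, Equiv.apply_symm_apply]
        generalize χ x ((π (!s x)).symm y) = u
        generalize χ (p x) y = v
        revert u v; decide

end Pool.Agent.S11707
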