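import Pool.Statements.S11949
import Pool.Agent.SqfBridge.Escape
import Pool.Agent.SqfBridge.Final
-- import your own Pool.Agent.* helpers here

set_option autoImplicit false
open Pool Pool.MP_dfaab1_co

namespace Pool.Agent.S11949

/-- For ternary words w, y: if infinitely many x make wx squarefree and infinitely many x make xy squarefree, then some word z makes wzy squarefree (no factor uu with u nonempty). -/
theorem result :
    ∀ w y : List (Fin 3),
      {x : List (Fin 3) | ∀ a u b : List (Fin 3), u ≠ [] → w ++ x ≠ a ++ u ++ u ++ b}.Infinite →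
      {x : List (Fin 3) | ∀ a u b : List (Fin 3), u ≠ [] → x ++ y ≠ a ++ u ++ u ++ b}.Infinite →
      ∃ z : List (Fin 3), ∀ a u b : List (Fin 3), u ≠ [] → w ++ z ++ y ≠ a ++ u ++ u ++ b := by
  exact Pool.Agent.SqfBridge.bridge_of_escape Pool.Agent.SqfBridge.escape

end Pool.Agent.S11949
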