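import Pool.Statements.S13964
import Pool.Agent.H43.Quer3

set_option autoImplicit false
open MeasureTheory
open Pool Pool.MP_ce3260_gt

namespace Pool.Agent.S13964

/-- The negation of the preceding statement: For every n ≥ 2, 0 ≤ i ≤ j ≤ n−1 and convex body K in ℝⁿ, κ_n^j Φ_i(K)^(n−j) ≤ κ_n^i Φ_j(K)^(n−i), with equality for i<j exactly when K is an ellipsoid; the Grassmannian average is computed via spans of Gaussian vectors. -/
theorem result :
    ¬ (∀ n : ℕ, 2 ≤ n →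
  ∀ κ : ℕ → ℝ, (∀ m : ℕ, κ m = (volume {x : Fin m → ℝ | ∑ t, x t ^ 2 ≤ 1}).toReal) →
  ∀ Φ : ℕ → Set (Fin n → ℝ) → ℝ,
   (∀ (i : ℕ) (K : Set (Fin n → ℝ)), Φ i K = κ n / κ (n - i) *
      (∫ A : Fin (n - i) → Fin n → ℝ,
        ((volume ((fun x : Fin n → ℝ => (Matrix.of A).mulVec x) '' K)).toReal /
            Real.sqrt ((Matrix.of A * (Matrix.of A).transpose).det)) ^ (-(n : ℝ))
        ∂(Measure.pi (fun _ : Fin (n - i) =>
            Measure.pi (fun _ : Fin n => ProbabilityTheory.gaussianReal 0 1)))) ^ (-(1 : ℝ) / n)) →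
  ∀ i j : ℕ, i ≤ j → j ≤ n - 1 →
  ∀ K : Set (Fin n → ℝ), IsCompact K → Convex ℝ K → (interior K).Nonempty →
    κ n ^ j * Φ i K ^ (n - j) ≤ κ n ^ i * Φ j K ^ (n - i) ∧
    (i < j → (κ n ^ j * Φ i K ^ (n - j) = κ n ^ i * Φ j K ^ (n - i) ↔
      ∃ M : Matrix (Fin n) (Fin n) ℝ, M.det ≠ 0 ∧ ∃ c : Fin n → ℝ,
        K = (fun x : Fin n → ℝ => M.mulVec x + c) '' {x : Fin n → ℝ | ∑ t, x t ^ 2 ≤ 1}))) := by
  intro Hyp
  have he : ‖(EuclideanSpace.single 0 1 : EuclideanSpace ℝ (Fin 100))‖ = 1 := by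
    rw [EuclideanSpace.norm_single, norm_one]
  set e : EuclideanSpace ℝ (Fin 100) := EuclideanSpace.single 0 1 with he_def
  have h := (Hyp 100 (by norm_num)
    (fun m => (volume {x : Fin m → ℝ | ∑ t, x t ^ 2 ≤ 1}).toReal) (fun _ => rfl)
    (fun i K => (volume {x : Fin 100 → ℝ | ∑ t, x t ^ 2 ≤ 1}).toReal /
      (volume {x : Fin (100 - i) → ℝ | ∑ t, x t ^ 2 ≤ 1}).toReal *
      (∫ A : Fin (100 - i) → Fin 100 → ℝ,
        ((volume ((fun x : Fin 100 → ℝ => (Matrix.of A).mulVec x) '' K)).toReal /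
            Real.sqrt ((Matrix.of A * (Matrix.of A).transpose).det)) ^ (-((100 : ℕ) : ℝ))
        ∂(Measure.pi (fun _ : Fin (100 - i) =>
            Measure.pi (fun _ : Fin 100 => ProbabilityTheory.gaussianReal 0 1)))) ^
              (-(1 : ℝ) / (100 : ℕ)))
    (fun _ _ => rfl) 98 99 (by norm_num) (by norm_num) (Pool.Agent.H43.Gauss.KK e)
    (Pool.Agent.H43.Gauss.isCompact_KK he) (Pool.Agent.H43.Gauss.convex_KK he)
    (Pool.Agent.H43.Gauss.interior_KK he)).1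
  exact absurd h (not_le.2 (Pool.Agent.H43.Gauss.key_ineq he))


end Pool.Agent.S13964
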