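import Pool.Statements.S14124
import Pool.Agent.H43.TreeSpace

set_option autoImplicit false
open Pool Pool.MP_e230d6_gt

namespace Pool.Agent.S14124


open Set Topology in
/-- The members of an upper Vietoris open family contain a basic box. -/
theorem exists_box {X : Type} [TopologicalSpace X]
    (𝒮 : Set {K : Set X // K.Nonempty ∧ IsCompact K ∧ ⋂₀ {U : Set X | IsOpen U ∧ K ⊆ U} ⊆ K})
    (h : @IsOpen {K : Set X // K.Nonempty ∧ IsCompact K ∧ ⋂₀ {U : Set X | IsOpen U ∧ K ⊆ U} ⊆ K}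
        (TopologicalSpace.generateFrom
          {𝒱 : Set {K : Set X // K.Nonempty ∧ IsCompact K ∧ ⋂₀ {U : Set X | IsOpen U ∧ K ⊆ U} ⊆ K} |
            ∃ U : Set X, IsOpen U ∧
              𝒱 = {K : {K : Set X // K.Nonempty ∧ IsCompact K ∧ ⋂₀ {U : Set X | IsOpen U ∧ K ⊆ U} ⊆ K} |
                K.1 ⊆ U}}) 𝒮)
    (K : {K : Set X // K.Nonempty ∧ IsCompact K ∧ ⋂₀ {U : Set X | IsOpen U ∧ K ⊆ U} ⊆ K}) (hK : K ∈ 𝒮) :
    ∃ U : Set X, IsOpen U ∧ K.1 ⊆ U ∧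
      ∀ L : {K : Set X // K.Nonempty ∧ IsCompact K ∧ ⋂₀ {U : Set X | IsOpen U ∧ K ⊆ U} ⊆ K},
        L.1 ⊆ U → L ∈ 𝒮 := by
  induction h with
  | basic s hs =>
    obtain ⟨U, hU, rfl⟩ := hs
    exact ⟨U, hU, hK, fun L hL => hL⟩
  | univ => exact ⟨Set.univ, isOpen_univ, subset_univ _, fun _ _ => trivial⟩
  | inter s t _ _ ihs iht =>
    obtain ⟨U, hU, hKU, h1⟩ := ihs hK.1
    obtain ⟨V, hV, hKV, h2⟩ := iht hK.2
    exact ⟨U ∩ V, hU.inter hV, subset_inter hKU hKV, fun L hL =>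
      ⟨h1 L (hL.trans inter_subset_left), h2 L (hL.trans inter_subset_right)⟩⟩
  | sUnion S _ ih =>
    obtain ⟨s, hs, hKs⟩ := hK
    obtain ⟨U, hU, hKU, h1⟩ := ih s hs hKs
    exact ⟨U, hU, hKU, fun L hL => ⟨s, hs, h1 L hL⟩⟩

/-- In a T1 space every set is saturated. -/
theorem saturated_of_t1 {X : Type} [TopologicalSpace X] [T1Space X] (K : Set X) :
    ⋂₀ {U : Set X | IsOpen U ∧ K ⊆ U} ⊆ K := by
  intro y hy
  by_contra hyK
  have : y ∈ ({y}ᶜ : Set X) := hy _ ⟨isOpen_compl_singleton, fun z hz hzy => hyK (by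
    rw [← (show z = y from hzy)]; exact hz)⟩
  exact this rfl

/-- The negation of the preceding statement: For every first-countable well-filtered T0 space X, on the nonempty compact saturated subsets ordered by reverse inclusion, a family is open in the upper Vietoris topology exactly when it is Scott open. -/
theorem result :
    ¬ (∀ (X : Type) [TopologicalSpace X], T0Space X → FirstCountableTopology X →
    (∀ 𝒦 : Set (Set X), 𝒦.Nonempty →
      (∀ K ∈ 𝒦, IsCompact K ∧ ⋂₀ {U : Set X | IsOpen U ∧ K ⊆ U} ⊆ K) →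
      DirectedOn (fun A B : Set X => B ⊆ A) 𝒦 →
      ∀ U : Set X, IsOpen U → ⋂₀ 𝒦 ⊆ U → ∃ K ∈ 𝒦, K ⊆ U) →
    ∀ 𝒮 : Set {K : Set X // K.Nonempty ∧ IsCompact K ∧ ⋂₀ {U : Set X | IsOpen U ∧ K ⊆ U} ⊆ K},
      (@IsOpen {K : Set X // K.Nonempty ∧ IsCompact K ∧ ⋂₀ {U : Set X | IsOpen U ∧ K ⊆ U} ⊆ K}
        (TopologicalSpace.generateFrom
          {𝒱 : Set {K : Set X // K.Nonempty ∧ IsCompact K ∧ ⋂₀ {U : Set X | IsOpen U ∧ K ⊆ U} ⊆ K} |
            ∃ U : Set X, IsOpen U ∧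
              𝒱 = {K : {K : Set X // K.Nonempty ∧ IsCompact K ∧ ⋂₀ {U : Set X | IsOpen U ∧ K ⊆ U} ⊆ K} |
                K.1 ⊆ U}}) 𝒮 ↔
      ((∀ K ∈ 𝒮, ∀ L : {K : Set X // K.Nonempty ∧ IsCompact K ∧ ⋂₀ {U : Set X | IsOpen U ∧ K ⊆ U} ⊆ K},
          L.1 ⊆ K.1 → L ∈ 𝒮) ∧
       ∀ 𝒟 : Set {K : Set X // K.Nonempty ∧ IsCompact K ∧ ⋂₀ {U : Set X | IsOpen U ∧ K ⊆ U} ⊆ K},
        𝒟.Nonempty →
        DirectedOn (fun A B : {K : Set X // K.Nonempty ∧ IsCompact K ∧ ⋂₀ {U : Set X | IsOpen U ∧ K ⊆ U} ⊆ K} =>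
          B.1 ⊆ A.1) 𝒟 →
        ∀ L : {K : Set X // K.Nonempty ∧ IsCompact K ∧ ⋂₀ {U : Set X | IsOpen U ∧ K ⊆ U} ⊆ K},
          (∀ K ∈ 𝒟, L.1 ⊆ K.1) →
          (∀ M : {K : Set X // K.Nonempty ∧ IsCompact K ∧ ⋂₀ {U : Set X | IsOpen U ∧ K ⊆ U} ⊆ K},
            (∀ K ∈ 𝒟, M.1 ⊆ K.1) → M.1 ⊆ L.1) →
          L ∈ 𝒮 → ∃ K ∈ 𝒟, K ∈ 𝒮))) := by
  intro H
  have hwf : ∀ 𝒦 : Set (Set Pool.Agent.H43.TreeSpace.X), 𝒦.Nonempty →
      (∀ K ∈ 𝒦, IsCompact K ∧ ⋂₀ {U : Set Pool.Agent.H43.TreeSpace.X | IsOpen U ∧ K ⊆ U} ⊆ K) →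
      DirectedOn (fun A B : Set Pool.Agent.H43.TreeSpace.X => B ⊆ A) 𝒦 →
      ∀ U : Set Pool.Agent.H43.TreeSpace.X, IsOpen U → ⋂₀ 𝒦 ⊆ U → ∃ K ∈ 𝒦, K ⊆ U := by
    intro 𝒦 hne hK hdir U hU hsub
    haveI : Nonempty 𝒦 := hne.to_subtype
    have hdir' : Directed (fun A B : Set Pool.Agent.H43.TreeSpace.X => A ⊇ B)
        (fun K : 𝒦 => (K : Set Pool.Agent.H43.TreeSpace.X)) := by
      rintro ⟨A, hA⟩ ⟨B, hB⟩
      obtain ⟨C, hC, h1, h2⟩ := hdir A hA B hB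
      exact ⟨⟨C, hC⟩, h1, h2⟩
    obtain ⟨K, hKU⟩ := exists_subset_nhds_of_isCompact' hdir' (fun K => (hK K.1 K.2).1)
      (fun K => (hK K.1 K.2).1.isClosed) (U := U) (by
        intro x hx
        apply hU.mem_nhds
        apply hsub
        rw [Set.sInter_eq_iInter]
        exact hx)
    exact ⟨K.1, K.2, hKU⟩
  let 𝒮 : Set {K : Set Pool.Agent.H43.TreeSpace.X // K.Nonempty ∧ IsCompact K ∧
      ⋂₀ {U : Set Pool.Agent.H43.TreeSpace.X | IsOpen U ∧ K ⊆ U} ⊆ K} :=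
    {K | ¬ ∃ (k : ℕ) (T : Finset (Fin k → Bool)), 2 * T.card ≤ k ∧
      Pool.Agent.H43.TreeSpace.M k T ⊆ K.1}
  have h := H Pool.Agent.H43.TreeSpace.X inferInstance inferInstance hwf 𝒮
  have hopen := h.2 (by
    constructor
    · intro K hK L hLK hL
      obtain ⟨k, T, hT, hM⟩ := hL
      exact hK ⟨k, T, hT, hM.trans hLK⟩
    · intro 𝒟 hne hdir L _ hLub hL
      by_contra hcon
      push Not at hcon
      have hcon' : ∀ K ∈ 𝒟, ∃ (k : ℕ) (T : Finset (Fin k → Bool)), 2 * T.card ≤ k ∧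
          Pool.Agent.H43.TreeSpace.M k T ⊆ K.1 := by
        intro K hK
        have := hcon K hK
        by_contra h2
        exact this h2
      obtain ⟨C, hC⟩ := hne
      -- finite set of admissible indices inside C
      have hfin : {p : (k : ℕ) × Finset (Fin k → Bool) | 2 * p.2.card ≤ p.1 ∧
          Pool.Agent.H43.TreeSpace.M p.1 p.2 ⊆ C.1}.Finite := by
        have h1 := Pool.Agent.H43.TreeSpace.finite_levels C.2.2.1
        have h2 : {p : (k : ℕ) × Finset (Fin k → Bool) | 2 * p.2.card ≤ p.1 ∧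
          Pool.Agent.H43.TreeSpace.M p.1 p.2 ⊆ C.1} ⊆
            ⋃ k ∈ {k : ℕ | ∃ T : Finset (Fin k → Bool), 2 * T.card ≤ k ∧
              Pool.Agent.H43.TreeSpace.M k T ⊆ C.1},
              Set.range (fun T : Finset (Fin k → Bool) =>
                (⟨k, T⟩ : (k : ℕ) × Finset (Fin k → Bool))) := by
          rintro ⟨k, T⟩ hp
          simp only [Set.mem_iUnion]
          exact ⟨k, ⟨T, hp.1, hp.2⟩, T, rfl⟩
        exact (h1.biUnion (fun k _ => Set.finite_range _)).subset h2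
      have hall : ∃ p : (k : ℕ) × Finset (Fin k → Bool), 2 * p.2.card ≤ p.1 ∧
          ∀ K ∈ 𝒟, Pool.Agent.H43.TreeSpace.M p.1 p.2 ⊆ K.1 := by
        by_contra hno
        push Not at hno
        have key : ∀ F : Finset ((k : ℕ) × Finset (Fin k → Bool)),
            ∃ D ∈ 𝒟, D.1 ⊆ C.1 ∧ ∀ p ∈ F, 2 * p.2.card ≤ p.1 →
              ¬ Pool.Agent.H43.TreeSpace.M p.1 p.2 ⊆ D.1 := by
          classical
          intro F
          induction F using Finset.induction_on with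
          | empty => exact ⟨C, hC, subset_rfl, by simp⟩
          | insert p F _ ih =>
            obtain ⟨D, hD, hDC, hDF⟩ := ih
            by_cases hp : 2 * p.2.card ≤ p.1
            · obtain ⟨E, hE, hEp⟩ := hno p hp
              obtain ⟨D', hD', h1, h2⟩ := hdir D hD E hE
              refine ⟨D', hD', h1.trans hDC, ?_⟩
              intro q hq hq'
              rw [Finset.mem_insert] at hq
              rcases hq with rfl | hq
              · exact fun h3 => hEp (h3.trans h2)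
              · exact fun h3 => hDF q hq hq' (h3.trans h1)
            · refine ⟨D, hD, hDC, ?_⟩
              intro q hq hq'
              rw [Finset.mem_insert] at hq
              rcases hq with rfl | hq
              · exact absurd hq' hp
              · exact hDF q hq hq'
        obtain ⟨D, hD, hDC, hDF⟩ := key hfin.toFinset
        obtain ⟨k, T, hT, hMT⟩ := hcon' D hD
        exact hDF ⟨k, T⟩ (by
          rw [Set.Finite.mem_toFinset]
          exact ⟨hT, hMT.trans hDC⟩) hT hMT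
      obtain ⟨p, hp, hpall⟩ := hall
      have := hLub ⟨Pool.Agent.H43.TreeSpace.M p.1 p.2, Pool.Agent.H43.TreeSpace.nonempty_M hp,
        (Pool.Agent.H43.TreeSpace.finite_M p.1 p.2).isCompact, saturated_of_t1 _⟩ hpall
      exact hL ⟨p.1, p.2, hp, this⟩)
  let K0 : {K : Set Pool.Agent.H43.TreeSpace.X // K.Nonempty ∧ IsCompact K ∧
      ⋂₀ {U : Set Pool.Agent.H43.TreeSpace.X | IsOpen U ∧ K ⊆ U} ⊆ K} :=
    ⟨Set.range Pool.Agent.H43.TreeSpace.br, Set.range_nonempty _,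
      Pool.Agent.H43.TreeSpace.isCompact_range_br, saturated_of_t1 _⟩
  have hK0 : K0 ∈ 𝒮 := by
    rintro ⟨k, T, hT, hM⟩
    obtain ⟨z, hz⟩ := Pool.Agent.H43.TreeSpace.nonempty_M hT
    obtain ⟨s, hs, rfl⟩ := hz
    obtain ⟨x, hx⟩ := hM (Pool.Agent.H43.TreeSpace.nd_mem_M.2 hs)
    exact Pool.Agent.H43.TreeSpace.nd_ne_br _ _ hx.symm
  obtain ⟨U, hU, hKU, hbox⟩ := exists_box 𝒮 hopen K0 hK0
  obtain ⟨k, T, hT, hM⟩ := Pool.Agent.H43.TreeSpace.exists_M_subset hU hKU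
  exact hbox ⟨Pool.Agent.H43.TreeSpace.M k T, Pool.Agent.H43.TreeSpace.nonempty_M hT,
    (Pool.Agent.H43.TreeSpace.finite_M k T).isCompact, saturated_of_t1 _⟩ hM
    ⟨k, T, hT, subset_rfl⟩


end Pool.Agent.S14124
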