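import Pool.Statements.S14211
import Pool.Agent.H36.Wall.Main

set_option autoImplicit false
open Pool Pool.MP_f34352_gt

namespace Pool.Agent.S14211

/-- There is a compact Hausdorff space with a closed subbase in which every pairwise-intersecting subfamily has nonempty intersection, yet with no closed subbase whose closure under finite unions and intersections consists of regular closed sets. -/
theorem result :
    ∃ (X : Type) (t : TopologicalSpace X),
      CompactSpace X ∧ T2Space X ∧
      (∃ P : Set (Set X),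
        (∀ A ∈ P, IsClosed A) ∧
        t = TopologicalSpace.generateFrom {U : Set X | Uᶜ ∈ P} ∧
        (∀ L : Set (Set X), L ⊆ P →
          (∀ A ∈ L, ∀ B ∈ L, (A ∩ B).Nonempty) → (⋂₀ L).Nonempty)) ∧
      ¬ (∃ P : Set (Set X),
        (∀ A ∈ P, IsClosed A) ∧
        t = TopologicalSpace.generateFrom {U : Set X | Uᶜ ∈ P} ∧
        (∀ A : Set X,
          (∀ S : Set (Set X), P ⊆ S →
            (∀ B ∈ S, ∀ C ∈ S, B ∪ C ∈ S) →
            (∀ B ∈ S, ∀ C ∈ S, B ∩ C ∈ S) → A ∈ S) →
          closure (interior A) = A)) := by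
  refine ⟨Pool.Agent.H36.Wall.X Pool.Agent.H36.Wall.IX, instTopologicalSpaceSubtype,
    inferInstance, inferInstance, ⟨Pool.Agent.H36.Wall.PB Pool.Agent.H36.Wall.IX,
      fun A hA => Pool.Agent.H36.Wall.isClosed_of_mem_PB hA,
      Pool.Agent.H36.Wall.top_eq_PB Pool.Agent.H36.Wall.IX,
      Pool.Agent.H36.Wall.binary_PB Pool.Agent.H36.Wall.IX⟩, ?_⟩
  exact Pool.Agent.H36.Wall.not_regular_wallman

end Pool.Agent.S14211
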