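-- Hand-in for frozen statement S14577 (testing low degree polynomial threshold functions).
import Pool.Statements.S14577
import Pool.Agent.PTFT.Tester

set_option autoImplicit false
open Pool Pool.MP_375aa5_lc

namespace Pool.Agent.S14577

open Finset in
/-- probability of disagreement in terms of counting -/
lemma pr_ne_eq {n : ℕ} (f g : (Fin n → Bool) → Bool) :
    PTFT.pr (fun x => f x ≠ g x)
      = ((Finset.univ.filter (fun x => f x ≠ g x)).card : ℝ) / 2 ^ n := by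
  rw [PTFT.pr_eq]
  unfold PTFT.av
  rw [Finset.sum_boole]
  simp

lemma sum_weights {M : ℕ} {β : Type} [Fintype β] (e : Fin M ≃ β) (φ : β → ℝ) :
    ∑ r : Fin M, (1 / (M : ℝ)) * φ (e r) = PTFT.av φ := by
  have h : Fintype.card β = M := by
    rw [← Fintype.card_congr e, Fintype.card_fin]
  unfold PTFT.av
  rw [h, ← Finset.mul_sum, Equiv.sum_comp e φ]
  ring

/-- For every degree d and ε>0 there is q such that for all n, some randomized q-query tester accepts every degree-≤d polynomial threshold function on {-1,1}^n w.p. ≥2/3 and every function ε-far from all such PTFs w.p. ≤1/3. -/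
theorem result :
    ∀ d : ℕ, ∀ ε : ℝ, 0 < ε → ∃ q : ℕ, ∀ n : ℕ,
      ∃ m : ℕ, ∃ w : Fin m → ℝ, ∃ Q : Fin m → Fin q → (Fin n → Bool),
        ∃ D : Fin m → (Fin q → Bool) → Bool,
          (∀ r, 0 ≤ w r) ∧ (∑ r, w r = 1) ∧
          (∀ f : (Fin n → Bool) → Bool,
            (∃ p : MvPolynomial (Fin n) ℝ, p.totalDegree ≤ d ∧
              ∀ x : Fin n → Bool,
                f x = decide (0 < MvPolynomial.eval (fun i => if x i then (1:ℝ) else -1) p)) →
            (2:ℝ)/3 ≤ ∑ r, w r * (if D r (fun j => f (Q r j)) = true then (1:ℝ) else 0)) ∧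
          (∀ f : (Fin n → Bool) → Bool,
            (∀ g : (Fin n → Bool) → Bool,
              (∃ p : MvPolynomial (Fin n) ℝ, p.totalDegree ≤ d ∧
                ∀ x : Fin n → Bool,
                  g x = decide (0 < MvPolynomial.eval (fun i => if x i then (1:ℝ) else -1) p)) →
              ε * (2:ℝ) ^ n ≤ ((Finset.univ.filter (fun x => f x ≠ g x)).card : ℝ)) →
            ∑ r, w r * (if D r (fun j => f (Q r j)) = true then (1:ℝ) else 0) ≤ (1:ℝ)/3) := by
  classical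
  intro d ε0 hε0
  obtain ⟨ε, hε, hε1, hεε0⟩ : ∃ ε : ℝ, 0 < ε ∧ ε ≤ 1 ∧ ε ≤ ε0 :=
    ⟨min ε0 1, lt_min hε0 one_pos, min_le_right _ _, min_le_left _ _⟩
  obtain ⟨K, hK, hsound⟩ := PTFT.minor_soundness d hε hε1
  have hKne : NeZero K := ⟨hK.ne'⟩
  obtain ⟨m0, hm0⟩ := exists_pow_lt_of_lt_one (show (0 : ℝ) < 1 / 3 by norm_num)
    (show 1 - ε / 4 < 1 by linarith)
  refine ⟨Fintype.card (Fin m0 × (Fin K → Bool)), fun n => ?_⟩
  set Ω := (Fin n → Fin K) × (Fin n → Bool) with hΩ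
  obtain ⟨e⟩ : Nonempty (Fin (Fintype.card (Fin m0 → Ω)) ≃ (Fin m0 → Ω)) :=
    ⟨(Fintype.equivFin _).symm⟩
  obtain ⟨eq⟩ : Nonempty (Fin (Fintype.card (Fin m0 × (Fin K → Bool))) ≃ Fin m0 × (Fin K → Bool)) :=
    ⟨(Fintype.equivFin _).symm⟩
  have hacc : ∀ f : (Fin n → Bool) → Bool,
      ∑ r : Fin (Fintype.card (Fin m0 → Ω)), (1 / (Fintype.card (Fin m0 → Ω) : ℝ)) *
        (if (decide (∀ j : Fin m0, PTFT.IsPTF d (fun z : Fin K → Bool =>
            (fun i => f (PTFT.mn (e r (eq i).1).2 (e r (eq i).1).1 (eq i).2)) (eq.symm (j, z)))))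
          = true then (1:ℝ) else 0)
      = (PTFT.pr (fun ω : Ω => PTFT.IsPTF d (fun z => f (PTFT.mn ω.2 ω.1 z)))) ^ m0 := by
    intro f
    have h1 := sum_weights e (fun t : Fin m0 → Ω => ∏ j,
      (if PTFT.IsPTF d (fun z => f (PTFT.mn (t j).2 (t j).1 z)) then (1 : ℝ) else 0))
    have h2 := PTFT.av_pi_prod (ι := Fin m0) (fun (_ : Fin m0) (ω : Ω) =>
      (if PTFT.IsPTF d (fun z => f (PTFT.mn ω.2 ω.1 z)) then (1 : ℝ) else 0))
    rw [h2] at h1
    have h3 : ∏ _i : Fin m0, PTFT.av (fun ω : Ω =>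
        (if PTFT.IsPTF d (fun z => f (PTFT.mn ω.2 ω.1 z)) then (1 : ℝ) else 0))
        = (PTFT.pr (fun ω : Ω => PTFT.IsPTF d (fun z => f (PTFT.mn ω.2 ω.1 z)))) ^ m0 := by
      rw [Finset.prod_const, Finset.card_univ, Fintype.card_fin, ← PTFT.pr_eq]
    rw [h3] at h1
    rw [← h1]
    apply Finset.sum_congr rfl; intro r _
    congr 1
    simp only [Equiv.apply_symm_apply, decide_eq_true_eq]
    by_cases hall : ∀ j : Fin m0, PTFT.IsPTF d (fun z => f (PTFT.mn (e r j).2 (e r j).1 z))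
    · rw [if_pos hall]
      symm
      apply Finset.prod_eq_one; intro j _
      rw [if_pos (hall j)]
    · rw [if_neg hall]
      symm
      push Not at hall
      obtain ⟨j, hj⟩ := hall
      apply Finset.prod_eq_zero (Finset.mem_univ j)
      rw [if_neg hj]
  refine ⟨Fintype.card (Fin m0 → Ω), fun _ => 1 / (Fintype.card (Fin m0 → Ω) : ℝ),
    fun r i => PTFT.mn (e r (eq i).1).2 (e r (eq i).1).1 (eq i).2,
    fun r ans => decide (∀ j : Fin m0, PTFT.IsPTF d (fun z : Fin K → Bool => ans (eq.symm (j, z)))),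
    ?_, ?_, ?_, ?_⟩
  · intro r; positivity
  · have hpos : (0 : ℝ) < Fintype.card (Fin m0 → Ω) := PTFT.card_pos'
    rw [Finset.sum_const, Finset.card_univ, Fintype.card_fin, nsmul_eq_mul]
    field_simp
  · intro f hf
    refine le_of_le_of_eq ?_ (hacc f).symm
    have hptf := (PTFT.isPTF_iff f).1 hf
    have h1 : PTFT.pr (fun ω : Ω => PTFT.IsPTF d (fun z => f (PTFT.mn ω.2 ω.1 z))) = 1 := by
      rw [PTFT.pr_eq]
      refine Eq.trans (PTFT.av_congr (g := fun _ => (1 : ℝ)) ?_) (PTFT.av_const 1)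
      intro ω
      rw [if_pos (hptf.minor ω.2 ω.1)]
    rw [h1, one_pow]
    norm_num
  · intro f hf
    refine le_of_eq_of_le (hacc f) ?_
    have hfar : ∀ q : (Fin n → Bool) → ℝ, PTFT.degLE d q →
        ε ≤ PTFT.pr (fun x => f x ≠ decide (0 < q x)) := by
      intro q hq
      have h1 := hf (fun x => decide (0 < q x)) ((PTFT.isPTF_iff _).2 ⟨q, hq, fun _ => rfl⟩)
      rw [pr_ne_eq f (fun x => decide (0 < q x)), le_div_iff₀ (by positivity)]
      refine le_trans ?_ h1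
      gcongr
    have h2 := hsound n f hfar
    have h3 := PTFT.pr_not (fun ω : Ω => PTFT.IsPTF d (fun z => f (PTFT.mn ω.2 ω.1 z)))
    have h4 : PTFT.pr (fun ω : Ω => PTFT.IsPTF d (fun z => f (PTFT.mn ω.2 ω.1 z))) ≤ 1 - ε / 4 := by
      linarith
    calc _ ≤ (1 - ε / 4) ^ m0 := pow_le_pow_left₀ (PTFT.pr_nonneg _) h4 m0
      _ ≤ 1 / 3 := hm0.le

end Pool.Agent.S14577
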