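import Pool.Statements.S14897
import Pool.Agent.RecDim.Final

set_option autoImplicit false
open Pool Pool.MP_738f58_lc

namespace Pool.Agent.S14897

/-- There is a function f such that every computable partial order on a computable subset of ℕ, of width at most w and with no 3-crown, is the intersection of at most f(w) computable linear orders. -/
theorem result :
  ∃ f : ℕ → ℕ, ∀ w : ℕ, ∀ P : ℕ → Prop, ∀ r : ℕ → ℕ → Prop,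
    ComputablePred P →
    ComputablePred (fun p : ℕ × ℕ => r p.1 p.2) →
    (∀ x, P x → r x x) →
    (∀ x y, P x → P y → r x y → r y x → x = y) →
    (∀ x y z, P x → P y → P z → r x y → r y z → r x z) →
    (∀ s : Finset ℕ, (∀ x ∈ s, P x) →
        (∀ x ∈ s, ∀ y ∈ s, x ≠ y → ¬ r x y ∧ ¬ r y x) → s.card ≤ w) →
    (¬ ∃ a₁ a₂ a₃ b₁ b₂ b₃ : ℕ,
        P a₁ ∧ P a₂ ∧ P a₃ ∧ P b₁ ∧ P b₂ ∧ P b₃ ∧
        r a₁ b₂ ∧ r a₁ b₃ ∧ r a₂ b₁ ∧ r a₂ b₃ ∧ r a₃ b₁ ∧ r a₃ b₂ ∧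
        (¬ r a₁ b₁ ∧ ¬ r b₁ a₁) ∧ (¬ r a₂ b₂ ∧ ¬ r b₂ a₂) ∧
        (¬ r a₃ b₃ ∧ ¬ r b₃ a₃) ∧
        (¬ r a₁ a₂ ∧ ¬ r a₂ a₁) ∧ (¬ r a₁ a₃ ∧ ¬ r a₃ a₁) ∧
        (¬ r a₂ a₃ ∧ ¬ r a₃ a₂) ∧
        (¬ r b₁ b₂ ∧ ¬ r b₂ b₁) ∧ (¬ r b₁ b₃ ∧ ¬ r b₃ b₁) ∧
        (¬ r b₂ b₃ ∧ ¬ r b₃ b₂)) →
    ∃ d : ℕ, d ≤ f w ∧ ∃ L : Fin d → ℕ → ℕ → Prop,
      (∀ i, ComputablePred (fun p : ℕ × ℕ => L i p.1 p.2)) ∧
      (∀ i, ∀ x, P x → L i x x) ∧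
      (∀ i, ∀ x y, P x → P y → L i x y → L i y x → x = y) ∧
      (∀ i, ∀ x y z, P x → P y → P z → L i x y → L i y z → L i x z) ∧
      (∀ i, ∀ x y, P x → P y → L i x y ∨ L i y x) ∧
      (∀ x y, P x → P y → (r x y ↔ ∀ i, L i x y)) := by
  choose f hf using Pool.Agent.RecDim.main_thm
  exact ⟨f, fun w P r h1 h2 h3 h4 h5 h6 h7 => ⟨f w, le_rfl, hf w P r h1 h2 h3 h4 h5 h6 h7⟩⟩

end Pool.Agent.S14897
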