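import Pool.Statements.S17206
import Pool.Agent.E456.Final

set_option autoImplicit false
open Filter
open Pool Pool.MP_6380c3_nt

namespace Pool.Agent.S17206

/-- The negation of the preceding statement: The set of n whose least positive m with n dividing phi(m) is smaller than the least prime congruent to 1 mod n has natural density 1. -/
theorem result :
    ¬ (Tendsto
      (fun N : ℕ =>
        (((Finset.range N).filter
            (fun n : ℕ =>
              sInf {m : ℕ | 0 < m ∧ n ∣ Nat.totient m} <
                sInf {p : ℕ | p.Prime ∧ p ≡ 1 [MOD n]})).card : ℝ) / (N : ℝ))
      atTop (nhds 1)) := by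
  exact Pool.Agent.E456.final

end Pool.Agent.S17206
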