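import Pool.Statements.S17527
import Pool.Agent.SNum.Final

set_option autoImplicit false
open Pool Pool.MP_7b597b_nt

namespace Pool.Agent.S17527

/-- There is a real S-number ξ, meaning 0 < limsup w_n(ξ)/n < ∞ with w_n Mahler's exponent, such that limsup over n of (w_n(ξ)+1)/(n+1) is strictly less than the supremum over n ≥ 1 of (w_n(ξ)+1)/(n+1). -/
theorem result :
    ∃ ξ : ℝ, ∃ f : ℕ → ℝ,
      (∀ n : ℕ, 1 ≤ n →
        IsLUB {w : ℝ | {P : Polynomial ℤ | P ≠ 0 ∧ P.natDegree ≤ n ∧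
            0 < |Polynomial.aeval ξ P| ∧
            |Polynomial.aeval ξ P| ≤
              ((P.support.sup (fun i => (P.coeff i).natAbs) : ℕ) : ℝ) ^ (-w)}.Infinite}
          (f n)) ∧
      (∃ C : ℝ, ∀ n : ℕ, 1 ≤ n → f n / (n : ℝ) ≤ C) ∧
      (∃ ε : ℝ, 0 < ε ∧ ∃ᶠ n : ℕ in Filter.atTop, ε ≤ f n / (n : ℝ)) ∧
      (∃ m : ℕ, 1 ≤ m ∧ ∃ c : ℝ, c < (f m + 1) / ((m : ℝ) + 1) ∧
        ∀ᶠ n : ℕ in Filter.atTop, (f n + 1) / ((n : ℝ) + 1) ≤ c) :=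
  Pool.Agent.SNum.main

end Pool.Agent.S17527
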