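import Pool.Statements.S18659
import Pool.Agent.TNum.Final

set_option autoImplicit false
open Pool Pool.MP_dac5dd_nt

namespace Pool.Agent.S18659

/-- There is a real transcendental T-number ξ (every Mahler exponent w_n(ξ) finite, w_n(ξ)/n unbounded) whose type, the limsup of log w_n(ξ)/log n, is strictly less than 3. -/
theorem result :
    ∃ ξ : ℝ, Transcendental ℤ ξ ∧
      (∀ n : ℕ, 1 ≤ n → ∃ W : ℝ,
        Set.Finite {P : Polynomial ℤ | P ≠ 0 ∧ P.natDegree ≤ n ∧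
          |Polynomial.aeval ξ P| ≤
            ((P.support.sup fun i => (P.coeff i).natAbs : ℕ) : ℝ) ^ (-W)}) ∧
      (∀ M : ℝ, ∃ n : ℕ, 1 ≤ n ∧
        Set.Infinite {P : Polynomial ℤ | P ≠ 0 ∧ P.natDegree ≤ n ∧
          |Polynomial.aeval ξ P| ≤
            ((P.support.sup fun i => (P.coeff i).natAbs : ℕ) : ℝ) ^ (-(M * (n : ℝ)))}) ∧
      (∃ t : ℝ, t < 3 ∧ ∃ N : ℕ, ∀ n : ℕ, N ≤ n → ∀ w : ℝ, (n : ℝ) ^ t < w →
        Set.Finite {P : Polynomial ℤ | P ≠ 0 ∧ P.natDegree ≤ n ∧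
          |Polynomial.aeval ξ P| ≤
            ((P.support.sup fun i => (P.coeff i).natAbs : ℕ) : ℝ) ^ (-w)}) :=
  Pool.Agent.TNum.main

end Pool.Agent.S18659
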