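import Pool.Statements.S19163
-- import your own Pool.Agent.* helpers here
import Pool.Agent.Speedup.Glue

set_option autoImplicit false
open Pool Pool.MP_12e6b8_pr

namespace Pool.Agent.S19163

/-- There is a constant c>0 such that for every irreducible reversible finite Markov chain and every k≥1, the max expected cover time of one walker is at most c·k times the max expected cover time of k independent walkers started together. -/
theorem result :
    ∃ c : ℝ, 0 < c ∧
      ∀ (V : Type) [Fintype V] [DecidableEq V] (P : Matrix V V ℝ),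
        (∀ x y, 0 ≤ P x y) →
        (∀ x, ∑ y, P x y = 1) →
        (∀ x y, ∃ n : ℕ, 0 < (P ^ n) x y) →
        (∃ π : V → ℝ, (∀ x, 0 < π x) ∧ ∀ x y, π x * P x y = π y * P y x) →
        ∀ k : ℕ, 1 ≤ k → ∀ u : V, ∃ w : V,
          (∑' t : ℕ, ENNReal.ofReal
              (∑ ω : Fin 1 → Fin (t + 1) → V,
                if (∀ i, ω i 0 = u) ∧ (∃ v : V, ∀ i j, ω i j ≠ v) then
                  ∏ i, ∏ j : Fin t, P (ω i j.castSucc) (ω i j.succ)
                else 0))
            ≤ ENNReal.ofReal (c * (k : ℝ)) *
              (∑' t : ℕ, ENNReal.ofReal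
                (∑ ω : Fin k → Fin (t + 1) → V,
                  if (∀ i, ω i 0 = w) ∧ (∃ v : V, ∀ i j, ω i j ≠ v) then
                    ∏ i, ∏ j : Fin t, P (ω i j.castSucc) (ω i j.succ)
                  else 0)) := by
  refine ⟨3 * Pool.Agent.Speedup.bconst, mul_pos (by norm_num) Pool.Agent.Speedup.bconst_pos, ?_⟩
  intro V _ _ P hP hP1 hirr hrev k hk u
  obtain ⟨π, hπ, hrev⟩ := hrev
  exact Pool.Agent.Speedup.main_ncov hP hP1 hirr hπ hrev hk u

end Pool.Agent.S19163
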