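import Pool.Statements.S19283
import Pool.Agent.SAWP.F.Final
import Pool.Agent.SAWP.F.Transfer

set_option autoImplicit false
open MeasureTheory Filter Topology
open Pool Pool.MP_425fca_pr

namespace Pool.Agent.S19283

/-- For bond percolation on Z^2 with p > 1/2, almost surely there is one number mu such that, for every vertex v in an infinite open cluster, the n-th root of the number of n-step self-avoiding open walks from v tends to mu. -/
theorem result :
    ∀ p : ℝ, 1 / 2 < p → p ≤ 1 →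
    ∀ (Ω : Type) [MeasurableSpace Ω] (P : Measure Ω) [IsProbabilityMeasure P]
      (A : (ℤ × ℤ) × Bool → Set Ω),
      (∀ e, MeasurableSet (A e)) →
      (∀ e, P (A e) = ENNReal.ofReal p) →
      ProbabilityTheory.iIndepSet A P →
      ∀ᵐ ω ∂P, ∃ μ : ℝ, ∀ v : ℤ × ℤ,
        {w : ℤ × ℤ | (SimpleGraph.fromRel (fun x y : ℤ × ℤ =>
            (y = (x.1 + 1, x.2) ∧ ω ∈ A (x, false)) ∨
            (y = (x.1, x.2 + 1) ∧ ω ∈ A (x, true)))).Reachable v w}.Infinite →
        Tendsto (fun n : ℕ =>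
          ((Set.ncard {q : (Σ w : ℤ × ℤ, (SimpleGraph.fromRel (fun x y : ℤ × ℤ =>
              (y = (x.1 + 1, x.2) ∧ ω ∈ A (x, false)) ∨
              (y = (x.1, x.2 + 1) ∧ ω ∈ A (x, true)))).Walk v w) |
              q.2.IsPath ∧ q.2.length = n} : ℕ) : ℝ) ^ ((1 : ℝ) / (n : ℝ)))
          atTop (𝓝 μ) := by
  intro p hp hp1 Ω _ P _ A hA hPA hind
  have hp0 : (0 : ℝ) ≤ p := by linarith
  obtain ⟨hm, hmap⟩ := SAWP.law_eq P A hA ⟨p, hp0, hp1⟩ hPA hind
  have h := SAWP.limit_exists ⟨p, hp0, hp1⟩ hp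
  rw [← hmap] at h
  filter_upwards [ae_of_ae_map hm h] with ω hω
  obtain ⟨μ, hμ⟩ := hω
  refine ⟨μ, fun v hv => ?_⟩
  simp only [SAWP.graph_sig]
  apply hμ v
  simpa only [SAWP.InfCl, SAWP.graph_conn] using hv

end Pool.Agent.S19283
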